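import Pool.Statements.S00328
import Pool.Agent.Lib.MP_9b38bc_ag.Core

set_option autoImplicit false
open Pool Pool.MP_9b38bc_ag

namespace Pool.Agent.S00328

open Pool.Agent.Lib.MP_9b38bc_ag MvPolynomial in
/-- The negation of the preceding statement: Over the complex numbers, if F is a sum of degree d ≥ 3 forms F_i in disjoint blocks of variables, then in every shortest expression of F as a sum of d-th powers of linear forms, each linear form involves variables from only one block. -/
theorem result :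
    ¬ (∀ (n s d : ℕ) (part : Fin n → Fin s) (Fi : Fin s → MvPolynomial (Fin n) ℂ),
    3 ≤ d →
    (∀ i, (Fi i).IsHomogeneous d) →
    (∀ i, ∀ j ∈ (Fi i).vars, part j = i) →
    ∀ (r : ℕ) (L : Fin r → Fin n → ℂ),
      (∑ i, Fi i = ∑ k, (∑ j, MvPolynomial.C (L k j) * MvPolynomial.X j) ^ d) →
      (∀ (r' : ℕ) (L' : Fin r' → Fin n → ℂ),
        (∑ i, Fi i = ∑ k, (∑ j, MvPolynomial.C (L' k j) * MvPolynomial.X j) ^ d) →
          r ≤ r') →
      ∀ k, ∃ i, ∀ j, part j ≠ i → L k j = 0) := by
  classical
  intro H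
  obtain ⟨V, hV, Q, R, r, hQ, hR, hlow, L0, hL0⟩ := core
  let σ := Σ i, V i
  let e : σ ≃ Fin (Fintype.card σ) := Fintype.equivFin σ
  let part : Fin (Fintype.card σ) → Fin 10 := fun j => (e.symm j).1
  let Fi : Fin 10 → MvPolynomial (Fin (Fintype.card σ)) ℂ :=
    fun i => rename (fun v => e ⟨i, v⟩) (Q i)
  have hev : ∀ (i : Fin 10) (z : Fin (Fintype.card σ) → ℂ),
      eval z (Fi i) = eval (fun v => z (e ⟨i, v⟩)) (Q i) := by
    intro i z
    simp only [Fi, eval_rename]
    rfl
  -- decompositions as function identities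
  have hiff : ∀ (m : ℕ) (L : Fin m → Fin (Fintype.card σ) → ℂ),
      (∑ i, Fi i = ∑ k, (∑ j, C (L k j) * X j) ^ 3) ↔
      ∀ z : Fin (Fintype.card σ) → ℂ, ∑ i, eval (fun v => z (e ⟨i, v⟩)) (Q i) =
        ∑ k, (∑ j, L k j * z j) ^ 3 := by
    intro m L
    constructor
    · intro h z
      have := congrArg (eval z) h
      simpa [hev] using this
    · intro h
      apply MvPolynomial.funext
      intro z
      have := h z
      simpa [hev] using this
  have hex : ∃ m, ∃ L : Fin m → Fin (Fintype.card σ) → ℂ,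
      ∑ i, Fi i = ∑ k, (∑ j, C (L k j) * X j) ^ 3 := by
    refine ⟨R, fun k j => L0 k (e.symm j), (hiff _ _).mpr fun z => ?_⟩
    rw [hL0 (fun v => z (e v))]
    refine Finset.sum_congr rfl fun k _ => ?_
    congr 1
    rw [← Equiv.sum_comp e]
    refine Finset.sum_congr rfl fun v _ => by simp
  have hle : Nat.find hex ≤ R := by
    apply Nat.find_min' hex
    refine ⟨fun k j => L0 k (e.symm j), (hiff _ _).mpr fun z => ?_⟩
    rw [hL0 (fun v => z (e v))]
    refine Finset.sum_congr rfl fun k _ => ?_
    congr 1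
    rw [← Equiv.sum_comp e]
    refine Finset.sum_congr rfl fun v _ => by simp
  obtain ⟨L, hL⟩ := Nat.find_spec hex
  have hsplit := H (Fintype.card σ) 10 3 part Fi le_rfl
    (fun i => (hQ i).rename_isHomogeneous)
    (by
      intro i j hj
      have h1 : j ∈ (Q i).vars.image (fun v => e ⟨i, v⟩) := vars_rename _ _ hj
      obtain ⟨v, -, rfl⟩ := Finset.mem_image.mp h1
      simp [part])
    (Nat.find hex) L hL (fun r' L' h => Nat.find_min' hex ⟨L', h⟩)
  choose b hb using hsplit
  have hblock : ∀ i : Fin 10, r i ≤ Fintype.card {k : Fin (Nat.find hex) // b k = i} := by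
    intro i
    apply hlow i _ inferInstance (fun k v => L k.1 (e ⟨i, v⟩))
    intro z
    let z'' : σ → ℂ := fun s => if h : s.1 = i then z (h ▸ s.2) else 0
    let z' : Fin (Fintype.card σ) → ℂ := fun j => z'' (e.symm j)
    have hz' : ∀ v : V i, z' (e ⟨i, v⟩) = z v := by
      intro v
      have h1 : z' (e ⟨i, v⟩) = z'' ⟨i, v⟩ := by
        simp only [z', Equiv.symm_apply_apply]
      rw [h1]
      simp [z'']
    have hz0 : ∀ (i' : Fin 10) (v : V i'), i' ≠ i → z' (e ⟨i', v⟩) = 0 := by
      intro i' v hi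
      have h1 : z' (e ⟨i', v⟩) = z'' ⟨i', v⟩ := by
        simp only [z', Equiv.symm_apply_apply]
      rw [h1]
      simp [z'', hi]
    have h1 := (hiff _ _).mp hL z'
    have hzero : ∀ i' : Fin 10, i' ≠ i → eval (fun v => z' (e ⟨i', v⟩)) (Q i') = 0 := by
      intro i' hi
      have : (fun v : V i' => z' (e ⟨i', v⟩)) = 0 := by
        funext v; exact hz0 i' v hi
      rw [this]
      have h3 : eval (0 : V i' → ℂ) (Q i') = coeff 0 (Q i') := by
        rw [MvPolynomial.eval_zero]
        rfl
      rw [h3]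
      exact (hQ i').coeff_eq_zero (by simp)
    rw [Finset.sum_eq_single i (fun i' _ hi => hzero i' hi) (by simp)] at h1
    simp only [hz'] at h1
    rw [h1]
    have h2 : ∀ k, b k ≠ i → ∑ j, L k j * z' j = 0 := by
      intro k hk
      rw [← Equiv.sum_comp e, Fintype.sum_sigma]
      refine Finset.sum_eq_zero fun i' _ => Finset.sum_eq_zero fun v _ => ?_
      by_cases hi : i' = i
      · rw [hb k (e ⟨i', v⟩) (by simp [part, hi, Ne.symm hk]), zero_mul]
      · rw [hz0 i' v hi, mul_zero]
    have h3 : ∀ k, ∑ j, L k j * z' j = ∑ v, L k (e ⟨i, v⟩) * z v := by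
      intro k
      rw [← Equiv.sum_comp e, Fintype.sum_sigma, Finset.sum_eq_single i]
      · simp only [hz']
      · intro i' _ hi
        refine Finset.sum_eq_zero fun v _ => ?_
        rw [hz0 i' v hi, mul_zero]
      · simp
    simp only [← h3]
    rw [← Finset.sum_subtype (Finset.univ.filter (fun k => b k = i)) (by simp)
      (fun k => (∑ j, L k j * z' j) ^ 3)]
    symm
    apply Finset.sum_subset (Finset.subset_univ _)
    intro k _ hk
    rw [h2 k (by simpa using hk)]
    norm_num
  have hsum : ∑ i, Fintype.card {k : Fin (Nat.find hex) // b k = i} = Nat.find hex := by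
    rw [← Fintype.card_sigma, Fintype.card_congr (Equiv.sigmaFiberEquiv b), Fintype.card_fin]
  have hfin : ∑ i, r i ≤ Nat.find hex := by
    rw [← hsum]
    exact Finset.sum_le_sum fun i _ => hblock i
  omega

end Pool.Agent.S00328
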