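import Pool.Statements.S00967
import Pool.Agent.Lib.MP_24a659_al.BP2
import Pool.Agent.Lib.MP_24a659_al.S1
import Pool.Agent.Lib.MP_24a659_al.N3

set_option autoImplicit false
open Pool Pool.MP_24a659_al

namespace Pool.Agent.S00967

/-- There is a nil-ring R and a finitely generated, non-nilpotent subgroup G of its adjoint group 1+R, such that every abelian subgroup of G has finite Prüfer rank. -/
theorem result :
    ∃ (R : Type) (_ : NonUnitalRing R),
      (∀ x : R, IsNilpotent (Unitization.inr x : Unitization ℤ R)) ∧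
      ∃ G : Subgroup (Unitization ℤ R)ˣ,
        (∀ g ∈ G, ∃ x : R, (g : Unitization ℤ R) = 1 + Unitization.inr x) ∧
        Group.FG G ∧ ¬ Group.IsNilpotent G ∧
        ∀ H : Subgroup (Unitization ℤ R)ˣ, H ≤ G →
          (∀ a ∈ H, ∀ b ∈ H, a * b = b * a) →
          ∃ r : ℕ, ∀ K : Subgroup (Unitization ℤ R)ˣ, K ≤ H → K.FG →
            ∃ s : Finset (Unitization ℤ R)ˣ, s.card ≤ r ∧
              Subgroup.closure (s : Set (Unitization ℤ R)ˣ) = K := by
  exact NF.final_of_step (fun _ hS C k => NF.exists_Repl hS C k) NF.base_pkg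
    (fun _ _ _ pk m l => NF.step pk m l)

end Pool.Agent.S00967
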