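import Pool.Statements.S01111
import Pool.Agent.Lib.MP_322c5f_alP.PF05
import Pool.Agent.Lib.MP_322c5f_alF.FB32

set_option autoImplicit false
open CategoryTheory
open scoped CategoryTheory.MonoidalCategory
open Pool Pool.MP_322c5f_al

namespace Pool.Agent.S01111

/-- For every n ≥ 4 there is an irreducible complex representation V of A_n such that every irreducible complex representation W of A_n admits a nonzero map into V ⊗ V, i.e. occurs in the square of the character of V. -/
theorem result :
    ∀ n : ℕ, 4 ≤ n →
      ∃ V : FDRep ℂ (alternatingGroup (Fin n)),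
        Simple V ∧
          ∀ W : FDRep ℂ (alternatingGroup (Fin n)), Simple W →
            ∃ f : W ⟶ V ⊗ V, f ≠ 0 := by
  intro n hn
  rcases Nat.lt_or_ge n 24 with h | h
  · exact Pool.MP322F.direct_small hn (by omega)
  · exact Pool.MP322P.main24 n h

end Pool.Agent.S01111
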