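import Pool.Statements.S01190
import Pool.Agent.Lib.MP_377081_al.Final

set_option autoImplicit false
open Pool Pool.MP_377081_al

namespace Pool.Agent.S01190

/-- The negation of the preceding statement: Every finitely generated infinite residually finite group, all of whose finite-index subgroups have only finite-index nontrivial normal subgroups, has word growth that is either bounded by a polynomial or at least exponential. -/
theorem result :
    ¬ (∀ (G : Type) [Group G], Group.FG G → Infinite G →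
      (∀ g : G, g ≠ 1 → ∃ H : Subgroup G, H.index ≠ 0 ∧ g ∉ H) →
      (∀ H : Subgroup G, H.index ≠ 0 →
        ∀ N : Subgroup H, N.Normal → N ≠ ⊥ → N.index ≠ 0) →
      ∀ S : Finset G, Subgroup.closure (S : Set G) = ⊤ →
        (∃ C d : ℕ, ∀ n : ℕ,
          {g : G | ∃ l : List G, l.length ≤ n ∧ (∀ x ∈ l, x ∈ S ∨ x⁻¹ ∈ S) ∧ l.prod = g}.ncard
            ≤ C * (n + 1) ^ d) ∨
        (∃ c : ℝ, 1 < c ∧ ∀ n : ℕ,
          c ^ n ≤ ({g : G | ∃ l : List G, l.length ≤ n ∧ (∀ x ∈ l, x ∈ S ∨ x⁻¹ ∈ S) ∧ l.prod = g}.ncard : ℝ))) := by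
  intro h
  obtain ⟨G, hG, hfg, hinf, hrf, hji, S, hS, hlow, hup⟩ := Pool.Agent.HJI.main
  rcases h G hfg hinf hrf hji S hS with ⟨C, d, h1⟩ | ⟨c, hc, h1⟩
  · obtain ⟨n, h2⟩ := hlow C d
    exact absurd (h1 n) (not_le.2 h2)
  · obtain ⟨n, h2⟩ := hup c hc
    exact absurd (h1 n) (not_le.2 h2)

end Pool.Agent.S01190
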