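import Pool.Statements.S01309
import Pool.Agent.Lib.MP_41a456_al.TC.M4

set_option autoImplicit false
open Pool Pool.MP_41a456_al

namespace Pool.Agent.S01309

/-- For every n ≥ 3 and every field K, every ascending chain of two-sided ideals in the group algebra K[SL(n,Z)] is eventually constant. -/
theorem result :
    ∀ n : ℕ, 3 ≤ n → ∀ (K : Type) [Field K],
      ∀ I : ℕ → TwoSidedIdeal (MonoidAlgebra K (Matrix.SpecialLinearGroup (Fin n) ℤ)),
        Monotone I → ∃ m : ℕ, ∀ k : ℕ, m ≤ k → I k = I m := by
  intro n hn K _ I hI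
  exact Pool.Agent.Lib.MP_41a456_al.TC.noetherian_ideals n hn K I hI

end Pool.Agent.S01309
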