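import Pool.Statements.S01371
import Pool.Agent.Lib.MP_49224a_al.Final

set_option autoImplicit false
open Pool Pool.MP_49224a_al

namespace Pool.Agent.S01371

/-- For every unital subring S of ℝ: any square matrix over S whose nonzero spectrum meets the Perron condition and the trace conditions (Möbius form if S = ℤ) is strong shift equivalent over S to a primitive matrix over S. -/
theorem result :
    ∀ (S : Subring ℝ) (n : ℕ) (A : Matrix (Fin n) (Fin n) ℝ),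
      (∀ i j, A i j ∈ S) →
      (∃ r : ℝ, 0 < r ∧
        (A.map (fun x : ℝ => (x : ℂ))).charpoly.roots.count (r : ℂ) = 1 ∧
        ∀ z ∈ (A.map (fun x : ℝ => (x : ℂ))).charpoly.roots, z ≠ (r : ℂ) → ‖z‖ < r) →
      (S = ⊥ → ∀ m : ℕ, 0 < m →
        0 ≤ ∑ k ∈ m.divisors, ((ArithmeticFunction.moebius (m / k) : ℤ) : ℝ) * (A ^ k).trace) →
      (S ≠ ⊥ → ∀ m : ℕ, 0 < m →
        0 ≤ (A ^ m).trace ∧ ∀ k : ℕ, 0 < k → 0 < (A ^ m).trace → 0 < (A ^ (m * k)).trace) →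
      ∃ (p : ℕ) (B : Matrix (Fin p) (Fin p) ℝ),
        0 < p ∧ (∀ i j, B i j ∈ S) ∧ (∀ i j, 0 ≤ B i j) ∧
        (∃ k : ℕ, 0 < k ∧ ∀ i j, 0 < (B ^ k) i j) ∧
        Relation.ReflTransGen
          (fun X Y : (Σ d : ℕ, Matrix (Fin d) (Fin d) ℝ) =>
            ∃ (R : Matrix (Fin X.1) (Fin Y.1) ℝ) (T : Matrix (Fin Y.1) (Fin X.1) ℝ),
              (∀ i j, R i j ∈ S) ∧ (∀ i j, T i j ∈ S) ∧ X.2 = R * T ∧ Y.2 = T * R)
          ⟨n, A⟩ ⟨p, B⟩ := by
  exact Pool.Agent.Lib.MP_49224a_al.main_theorem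

end Pool.Agent.S01371
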