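import Pool.Statements.S01402
import Pool.Agent.Lib.MP_4c94d3_al.Main

set_option autoImplicit false
open Pool Pool.MP_4c94d3_al

namespace Pool.Agent.S01402

/-- The negation of the preceding statement: If H is a nontrivial subgroup of G and H together with some t generates a copy of the free product H*ℕ inside G, then for every finite generating set of G, the relative growth rate of H is strictly less than the growth rate of G. -/
theorem result :
    ¬ (∀ (G : Type) [Group G] (H : Subgroup G), H ≠ ⊥ →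
      (∃ f : Monoid.Coprod (↥H) (Multiplicative ℕ) →* G,
          Function.Injective f ∧ f.comp Monoid.Coprod.inl = H.subtype) →
      ∀ S : Finset G, Subgroup.closure (S : Set G) = ⊤ →
        Filter.limsup
            (fun n : ℕ =>
              ((Set.ncard {g : G | g ∈ H ∧ ∃ l : List G, l.length ≤ n ∧
                  (∀ x ∈ l, x ∈ S ∨ x⁻¹ ∈ S) ∧ l.prod = g} : ℕ) : ℝ) ^ ((1 : ℝ) / (n : ℝ)))
            Filter.atTop
          <
        Filter.limsup
            (fun n : ℕ =>
              ((Set.ncard {g : G | ∃ l : List G, l.length ≤ n ∧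
                  (∀ x ∈ l, x ∈ S ∨ x⁻¹ ∈ S) ∧ l.prod = g} : ℕ) : ℝ) ^ ((1 : ℝ) / (n : ℝ)))
            Filter.atTop) := by
  intro hall
  classical
  have hS : Subgroup.closure
      ((({Pool.Agent.Lib.MP_4c94d3_al.aK, Pool.Agent.Lib.MP_4c94d3_al.sK,
        Pool.Agent.Lib.MP_4c94d3_al.uK} : Finset Pool.Agent.Lib.MP_4c94d3_al.KK)) :
        Set Pool.Agent.Lib.MP_4c94d3_al.KK) = ⊤ := by
    simpa using Pool.Agent.Lib.MP_4c94d3_al.closure_gens
  have h := hall Pool.Agent.Lib.MP_4c94d3_al.KK Pool.Agent.Lib.MP_4c94d3_al.HH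
    Pool.Agent.Lib.MP_4c94d3_al.HH_ne_bot Pool.Agent.Lib.MP_4c94d3_al.embedding _ hS
  have h2 := Pool.Agent.Lib.MP_4c94d3_al.growth_le _ hS
  exact absurd h (not_lt.2 h2)

end Pool.Agent.S01402
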