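import Pool.Statements.S01575
import Pool.Agent.Lib.MP_5acbe8_al.Final

set_option autoImplicit false
open Pool Pool.MP_5acbe8_al

namespace Pool.Agent.S01575

/-- For every n ≥ 1 there is a lattice satisfying the n-th order Arguesian law D_n but not D_(n+1), where D_1 is the trivial law. -/
theorem result :
    ∀ n : ℕ, 1 ≤ n →
      ∃ (α : Type) (inst : Lattice α),
        (∀ (a b : ℕ → α) (h : (Finset.Icc 1 (n - 1)).Nonempty),
          a n ⊓ ((Finset.Icc 1 (n - 1)).inf' h (fun i => a i ⊔ b i) ⊔ b n) ≤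
            a 1 ⊔ ((Finset.Icc 1 (n - 1)).sup' h
                (fun i => (a i ⊔ a (i + 1)) ⊓ (b i ⊔ b (i + 1))) ⊓ (b 1 ⊔ b n))) ∧
        ¬ (∀ (a b : ℕ → α) (h : (Finset.Icc 1 (n + 1 - 1)).Nonempty),
          a (n + 1) ⊓ ((Finset.Icc 1 (n + 1 - 1)).inf' h (fun i => a i ⊔ b i) ⊔ b (n + 1)) ≤
            a 1 ⊔ ((Finset.Icc 1 (n + 1 - 1)).sup' h
                (fun i => (a i ⊔ a (i + 1)) ⊓ (b i ⊔ b (i + 1))) ⊓ (b 1 ⊔ b (n + 1)))) := by
  intro n hn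
  obtain ⟨α, inst, _, h1, h2⟩ := Pool.Agent.Lib.MP_5acbe8_al.strict n hn
  exact ⟨α, inst, h1, h2⟩

end Pool.Agent.S01575
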