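-- Frozen statement S01768 (negation of Remeslennikov question, MP_689b4c_al): proved.
import Pool.Statements.S01768
import Pool.Agent.Lib.MP_689b4c_al.Final

set_option autoImplicit false
open Pool Pool.MP_689b4c_al

/-!
# A finitely generated abelian-by-nilpotent group with undecidable conjugacy problem

Outline of the proof (all steps are formalized in `Pool/Agent/Lib/MP_689b4c_al`).

* `Machine.lean`: a rewriting machine on natural numbers (relation `Step`) that evaluates
  Mathlib's codes `Nat.Partrec.Code`; the equivalence relation generated by `Step` relates the
  starting configuration of a code to the halting configuration iff the code halts.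
* `StepDioph.lean`, `Guard.lean`: `Step` is Diophantine, hence there is an integer polynomial `P`
  in finitely many integer variables `j : I → ℤ` such that two integers `a`, `b` are equal or
  `Step`-related iff some `j` has `P j = 0`, `j x = a`, `j y = b`.
* `Group.lean`: `Q` is the group of triples `(f, k, v)`, where `v : I → ℤ` is a translation,
  `k` an integer and `f : (I → ℤ) → ℤ` a function; `M` is the free abelian group on the symbols
  `b(j, a)` (`j : I → ℤ`, `a : ℤ`), `e1(n)`, `e2(n)` (`n : ℤ`), and `(f, k, v)` acts by
  `b(j, a) ↦ b(j + v, a + f(j + v)) + k (e1(j x + v x) - e2(j y + v y))`,
  `e1(n) ↦ e1(n + v x)`, `e2(n) ↦ e2(n + v y)`.  The group of the counterexample is the subgroup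
  of `W = M ⋊ Q` generated by `b(0, 0)`, `e1(0)`, the unit translations and `q = (P, 1, 0)`.
* `Conj.lean`: `(e1(a) - e1(b)) q` and `q` are conjugate iff `e1(a) - e1(b) = m - q m` for some
  `m`, iff `a` and `b` lie in the same class of the equivalence relation generated by the guard
  `P`.
* `Polycyclic.lean`: the translates of a polynomial span a finitely generated group, so that the
  quotient by the abelian normal subgroup is polycyclic (it is in fact nilpotent).
* `Final.lean`: the reduction is computable, so that a decidable conjugacy problem would decide
  the halting problem.
-/

namespace Pool.Agent.S01768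

/-- The negation of the preceding statement: Every finitely generated group with a normal abelian subgroup whose quotient is polycyclic has solvable conjugacy problem: deciding if two words in any finite generating set give conjugate elements is computable. -/
theorem result :
    ¬ (∀ (G : Type) [Group G] (A : Subgroup G) [A.Normal],
      (∀ x ∈ A, ∀ y ∈ A, x * y = y * x) →
      IsSolvable (G ⧸ A) →
      (∀ H : Subgroup (G ⧸ A), H.FG) →
      ∀ (n : ℕ) (f : FreeGroup (Fin n) →* G), Function.Surjective f →
        ComputablePred (fun p : List (Fin n × Bool) × List (Fin n × Bool) =>
          IsConj (f (FreeGroup.mk p.1)) (f (FreeGroup.mk p.2)))) := by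
  exact Pool.Agent.Lib.MP_689b4c_al.main

end Pool.Agent.S01768
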