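import Pool.Statements.S02107
import Pool.Agent.Lib.MP_82c744_al.Sections

set_option autoImplicit false
open Pool Pool.MP_82c744_al

namespace Pool.Agent.S02107

/-- Let G be finitely generated, and suppose countably many groups cover, up to isomorphism, all finitely generated groups satisfying every law of G. Then every increasing chain of normal subgroups of G eventually stabilizes. -/
theorem result :
    ∀ (G : Type) [Group G], Group.FG G →
      (∃ (T : ℕ → Type) (_ : ∀ n, Group (T n)),
        ∀ (H : Type) [Group H], Group.FG H →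
          (∀ w : FreeGroup ℕ, (∀ f : FreeGroup ℕ →* G, f w = 1) →
            ∀ f : FreeGroup ℕ →* H, f w = 1) →
          ∃ n, Nonempty (H ≃* T n)) →
      ∀ N : ℕ → Subgroup G, (∀ n, (N n).Normal) → Monotone N →
        ∃ k, ∀ m, k ≤ m → N m = N k := by
  intro G _ hG hs N hN hmono
  have hU : (⨆ n, N n).Normal := Subgroup.iSup_normal N
  obtain ⟨X, hXfin, hXU, hX⟩ := Pool.Agent.Lib.MP_82c744_al.max_n (G0 := G) hs hG
    (Pool.Agent.Lib.MP_82c744_al.Laws.refl G) (⨆ n, N n) hU
  have hex : ∀ x : X, ∃ n, (x : G) ∈ N n := by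
    intro x
    exact (Subgroup.mem_iSup_of_directed hmono.directed_le).1 (hXU x.2)
  choose n hn using hex
  have hfin : Finite X := hXfin
  obtain ⟨k, hk⟩ := (Set.finite_range n).bddAbove
  refine ⟨k, fun m hm => le_antisymm ?_ (hmono hm)⟩
  refine (le_iSup N m).trans (hX.trans ?_)
  have := hN k
  apply Subgroup.normalClosure_le_normal
  intro x hx
  exact hmono (hk ⟨⟨x, hx⟩, rfl⟩) (hn ⟨x, hx⟩)

end Pool.Agent.S02107
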