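import Pool.Statements.S04690
import Pool.Agent.Lib.MP_53e230_an.Finite

set_option autoImplicit false
open MeasureTheory
open scoped FourierTransform
open Pool Pool.MP_53e230_an

namespace Pool.Agent.S04690

/-- The negation of the preceding statement: There is a Schwartz function ψ with Fourier transform zero on ξ ≤ 0 whose dilates-translates 2^{j/2}ψ(2^j x−k) satisfy two-sided Riesz bounds and are complete in H²: any L² function on the positive frequencies orthogonal to all their Fourier transforms is zero. -/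
theorem result :
    ¬ (∃ ψ : SchwartzMap ℝ ℂ,
    (∀ ξ : ℝ, ξ ≤ 0 → 𝓕 (fun x : ℝ => ψ x) ξ = 0) ∧
    (∃ A B : ℝ, 0 < A ∧ 0 < B ∧ ∀ c : ℤ × ℤ →₀ ℂ,
      A * c.sum (fun _ a => ‖a‖ ^ 2) ≤
        ∫ x : ℝ, ‖c.sum (fun p a => a * ((((2:ℝ) ^ ((p.1:ℝ) / 2) : ℝ) : ℂ) *
          ψ ((2:ℝ) ^ p.1 * x - (p.2 : ℝ))))‖ ^ 2 ∧
      ∫ x : ℝ, ‖c.sum (fun p a => a * ((((2:ℝ) ^ ((p.1:ℝ) / 2) : ℝ) : ℂ) *
          ψ ((2:ℝ) ^ p.1 * x - (p.2 : ℝ))))‖ ^ 2 ≤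
        B * c.sum (fun _ a => ‖a‖ ^ 2)) ∧
    (∀ h : ℝ → ℂ, MemLp h 2 volume → (∀ ξ : ℝ, ξ ≤ 0 → h ξ = 0) →
      (∀ p : ℤ × ℤ, ∫ ξ : ℝ, starRingEnd ℂ
          (𝓕 (fun x : ℝ => (((2:ℝ) ^ ((p.1:ℝ) / 2) : ℝ) : ℂ) *
            ψ ((2:ℝ) ^ p.1 * x - (p.2 : ℝ))) ξ) * h ξ = 0) →
      h =ᵐ[volume] 0)) := by
  rintro ⟨ψ, hzero, ⟨A, B, hA, _, hR⟩, hC⟩
  obtain ⟨M, hM, hd1, hd2⟩ := Pool.Agent.Lib.MP_53e230_an.exists_decay (𝓕 ψ)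
  have hcoe : (⇑(𝓕 ψ : SchwartzMap ℝ ℂ) : ℝ → ℂ) = 𝓕 (fun x : ℝ => ψ x) :=
    SchwartzMap.fourier_coe ψ
  have hF : Pool.Agent.Lib.MP_53e230_an.FData (𝓕 (fun x : ℝ => ψ x)) M := by
    refine ⟨hM, hzero, ?_, ?_, ?_⟩
    · rw [← hcoe]
      exact (𝓕 ψ : SchwartzMap ℝ ℂ).differentiable
    · rw [← hcoe]
      exact hd1
    · rw [← hcoe]
      exact hd2
  refine Pool.Agent.Lib.MP_53e230_an.no_riesz hF hA (fun c => ?_) fun g hg hg0 hgo => ?_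
  · rw [← Pool.Agent.Lib.MP_53e230_an.plancherel_sum]
    exact (hR c).1
  · refine hC g hg hg0 fun p => ?_
    have h1 := hgo p
    simp only [← Pool.Agent.Lib.MP_53e230_an.fourier_sc] at h1
    exact h1

end Pool.Agent.S04690
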