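import Pool.Statements.S05008
import Pool.Agent.Lib.MP_7045fd_an.Fin

set_option autoImplicit false
open Filter MeasureTheory
open scoped ENNReal Topology
open Pool Pool.MP_7045fd_an

namespace Pool.Agent.S05008

/-- The negation of the preceding statement: For n≥8 and a domain Ω in ℝⁿ with 0 on its boundary, if Σ 2^{k(n-4)} cap₂(C_{2^{-k}}∖Ω) diverges, then every H̊²(Ω) weak solution of Δ²u=f with smooth f compactly supported in Ω has a continuous representative tending to 0 at 0. -/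
theorem result :
    ¬ (∀ (n : ℕ), 8 ≤ n →
  ∀ (Ω : Set (EuclideanSpace ℝ (Fin n))), IsOpen Ω → IsConnected Ω →
    (0 : EuclideanSpace ℝ (Fin n)) ∈ frontier Ω →
    (∑' k : ℕ, (2 : ℝ≥0∞) ^ ((k + 1) * (n - 4)) *
        ⨅ (φ : EuclideanSpace ℝ (Fin n) → ℝ)
          (_ : ContDiff ℝ (⊤ : ℕ∞) φ ∧ HasCompactSupport φ ∧
            ∃ U : Set (EuclideanSpace ℝ (Fin n)), IsOpen U ∧
              {x : EuclideanSpace ℝ (Fin n) |
                ((1 : ℝ) / 2) ^ (k + 1) / 2 ≤ ‖x‖ ∧ ‖x‖ ≤ ((1 : ℝ) / 2) ^ (k + 1)} \ Ω ⊆ U ∧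
              ∀ x ∈ U, φ x = 1),
          ∫⁻ x, ‖∑ i : Fin n, iteratedFDeriv ℝ 2 φ x
                  ![EuclideanSpace.single i (1 : ℝ), EuclideanSpace.single i (1 : ℝ)]‖ₑ ^ 2) = ⊤ →
    ∀ f u : EuclideanSpace ℝ (Fin n) → ℝ,
      ContDiff ℝ (⊤ : ℕ∞) f → HasCompactSupport f → tsupport f ⊆ Ω →
      (∃ φ : ℕ → EuclideanSpace ℝ (Fin n) → ℝ,
          (∀ k, ContDiff ℝ (⊤ : ℕ∞) (φ k) ∧ HasCompactSupport (φ k) ∧ tsupport (φ k) ⊆ Ω) ∧
          (∀ ε : ℝ≥0∞, 0 < ε → ∃ N : ℕ, ∀ k ≥ N, ∀ m ≥ N,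
            ∫⁻ x, ‖(∑ i : Fin n, iteratedFDeriv ℝ 2 (φ k) x
                      ![EuclideanSpace.single i (1 : ℝ), EuclideanSpace.single i (1 : ℝ)])
                    - (∑ i : Fin n, iteratedFDeriv ℝ 2 (φ m) x
                      ![EuclideanSpace.single i (1 : ℝ), EuclideanSpace.single i (1 : ℝ)])‖ₑ ^ 2 < ε) ∧
          ∀ᵐ x, Tendsto (fun k => φ k x) atTop (𝓝 (u x))) →
      (∀ ψ : EuclideanSpace ℝ (Fin n) → ℝ,
          ContDiff ℝ (⊤ : ℕ∞) ψ → HasCompactSupport ψ → tsupport ψ ⊆ Ω →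
          ∫ x, u x * (∑ i : Fin n, ∑ j : Fin n, iteratedFDeriv ℝ 4 ψ x
              ![EuclideanSpace.single i (1 : ℝ), EuclideanSpace.single i (1 : ℝ),
                EuclideanSpace.single j (1 : ℝ), EuclideanSpace.single j (1 : ℝ)])
            = ∫ x, f x * ψ x) →
      ∃ v : EuclideanSpace ℝ (Fin n) → ℝ, ContinuousOn v Ω ∧
        (∀ᵐ x, x ∈ Ω → u x = v x) ∧ Tendsto v (𝓝[Ω] 0) (𝓝 0)) := by
  intro H
  have h01 : (0 : Fin 20) ≠ 1 := by decide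
  have h20 : (2 : Fin 20) ≠ 0 := by decide
  have h21 : (2 : Fin 20) ≠ 1 := by decide
  obtain ⟨θ, hθ, hθ2⟩ := Pool.Agent.Lib.MP_7045fd_an.exists_theta (n := 20)
  obtain ⟨q, hq, hmain⟩ := Pool.Agent.Lib.MP_7045fd_an.exists_scales (0 : Fin 20) 1 2 h01 h20 h21 8
    (by norm_num) (by norm_num) Pool.Agent.Lib.MP_7045fd_an.overshoot hθ hθ2
  have hopen := Pool.Agent.Lib.MP_7045fd_an.isOpen_Om (0 : Fin 20) 1 h01 hq
  have hconn := Pool.Agent.Lib.MP_7045fd_an.isConnected_Om (0 : Fin 20) 1 h01 2 h20 h21 hq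
  have hfront := Pool.Agent.Lib.MP_7045fd_an.zero_mem_frontier (0 : Fin 20) 1 h01 2 h20 h21 q
  have hdiv := Pool.Agent.Lib.MP_7045fd_an.series_diverges (0 : Fin 20) 1 2 h01 h20 h21 8
    (by norm_num) (by norm_num) hq
  obtain ⟨φ, u, g, hum, hgm, hg, hφ, hcau, hlim, hrep, hweak, horth⟩ :=
    Pool.Agent.Lib.MP_7045fd_an.exists_solution (by norm_num : 5 ≤ 20)
      (Pool.Agent.Lib.MP_7045fd_an.Om (0 : Fin 20) 1 q) hθ
  have hf : ContDiff ℝ (⊤ : ℕ∞)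
      (Pool.Agent.Lib.MP_7045fd_an.lap (Pool.Agent.Lib.MP_7045fd_an.lap θ)) :=
    Pool.Agent.Lib.MP_7045fd_an.contDiff_lap_top
      (Pool.Agent.Lib.MP_7045fd_an.contDiff_lap_top hθ.1)
  have hsupp : tsupport (Pool.Agent.Lib.MP_7045fd_an.lap (Pool.Agent.Lib.MP_7045fd_an.lap θ))
      ⊆ Pool.Agent.Lib.MP_7045fd_an.Om (0 : Fin 20) 1 q := by
    intro x hx
    have hx1 : 1 ≤ ‖x‖ := Pool.Agent.Lib.MP_7045fd_an.tsupport_bilap hθ2 hx
    apply Pool.Agent.Lib.MP_7045fd_an.mem_Om_of_norm (0 : Fin 20) 1 h01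
    · intro h
      rw [h, norm_zero] at hx1
      linarith
    · intro j hj
      have h1 := Pool.Agent.Lib.MP_7045fd_an.rr_le (q j)
      have h2 := Pool.Agent.Lib.MP_7045fd_an.rr_pos (q j)
      nlinarith
  obtain ⟨v, -, hv2, hv3⟩ := H 20 (by norm_num) _ hopen hconn hfront hdiv _ u hf
    (Pool.Agent.Lib.MP_7045fd_an.hcs_lap (Pool.Agent.Lib.MP_7045fd_an.hcs_lap hθ.2.1)) hsupp
    ⟨φ, hφ, by
      intro ε hε
      obtain ⟨N, hN⟩ := hcau ε hε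
      refine ⟨N, fun k hk m hm => ?_⟩
      have h := hN k hk m hm
      refine lt_of_eq_of_lt ?_ h
      congr 1
      funext x
      rw [Pool.Agent.Lib.MP_7045fd_an.iter_two_sum (contDiff_infty.1 (hφ k).1 2).contDiffAt,
        Pool.Agent.Lib.MP_7045fd_an.iter_two_sum (contDiff_infty.1 (hφ m).1 2).contDiffAt], hlim⟩
    (by
      intro ψ h1 h2 h3
      rw [← hweak ψ ⟨h1, h2, h3⟩]
      congr 1
      funext x
      rw [Pool.Agent.Lib.MP_7045fd_an.iter_four_sum h1])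
  have hv4 : ∀ᶠ x in 𝓝[Pool.Agent.Lib.MP_7045fd_an.Om (0 : Fin 20) 1 q] 0, |v x| < 1 := by
    have := hv3.abs
    rw [abs_zero] at this
    exact this.eventually (gt_mem_nhds one_pos)
  rw [eventually_nhdsWithin_iff, Metric.eventually_nhds_iff_ball] at hv4
  obtain ⟨η, hη, hv5⟩ := hv4
  apply hmain u g hum hgm hg hrep horth η hη
  filter_upwards [hv2, Pool.Agent.Lib.MP_7045fd_an.ae_Om (0 : Fin 20) 1 h01 (by norm_num) q]
    with x hx1 hx2 hx3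
  rw [hx1 hx2]
  exact (hv5 x (mem_ball_zero_iff.2 hx3) hx2).le

end Pool.Agent.S05008
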