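import Pool.Statements.S05381
import Pool.Agent.Lib.MP_9059b8_an.Z01
import Pool.Agent.Lib.MP_9059b8_an.L6
import Pool.Agent.Lib.MP_9059b8_an.B5
import Pool.Agent.Lib.MP_9059b8_an.N6E

set_option autoImplicit false
open Pool Pool.MP_9059b8_an

namespace Pool.Agent.S05381

/-- For n=5 and n=6, any continuous degree-one homogeneous u, positive exactly on a nonempty open set with C² boundary off 0, harmonic there, C² to the boundary with ∣∇u∣=1, and with nonnegative second domain variation, equals (x·v)⁺ for a unit v. -/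
theorem result :
  ∀ n : ℕ, (n = 5 ∨ n = 6) →
  ∀ (E : Set (EuclideanSpace ℝ (Fin n))) (u : EuclideanSpace ℝ (Fin n) → ℝ),
    IsOpen E → E.Nonempty →
    (∀ p ∈ frontier E, p ≠ 0 → ∃ U ∈ nhds p, ∃ f : EuclideanSpace ℝ (Fin n) → ℝ,
        ContDiff ℝ 2 f ∧ fderiv ℝ f p ≠ 0 ∧ ∀ x ∈ U, (x ∈ E ↔ 0 < f x)) →
    Continuous u →
    (∀ t : ℝ, 0 < t → ∀ x, u (t • x) = t * u x) →
    (∀ x ∈ E, 0 < u x) →
    (∀ x ∉ E, u x = 0) →
    ContDiffOn ℝ 2 u E →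
    (∀ x ∈ E, ∑ i : Fin n, fderiv ℝ (fderiv ℝ u) x
        (EuclideanSpace.single i (1 : ℝ)) (EuclideanSpace.single i (1 : ℝ)) = 0) →
    (∀ p ∈ frontier E, p ≠ 0 → ∃ U ∈ nhds p, ∃ g : EuclideanSpace ℝ (Fin n) → ℝ,
        ContDiff ℝ 2 g ∧ (∀ x ∈ U ∩ E, g x = u x) ∧ ‖fderiv ℝ g p‖ = 1) →
    (∀ Ψ : EuclideanSpace ℝ (Fin n) → EuclideanSpace ℝ (Fin n),
        ContDiff ℝ (⊤ : ℕ∞) Ψ →
        tsupport Ψ ⊆ Metric.ball 0 1 →
        (0 : EuclideanSpace ℝ (Fin n)) ∉ tsupport Ψ →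
        0 ≤ deriv (deriv (fun t : ℝ =>
          ∫ x in Metric.ball (0 : EuclideanSpace ℝ (Fin n)) 1,
            (‖fderiv ℝ (fun y => u (y + t • Ψ y)) x‖ ^ 2
              + Set.indicator {y | 0 < u (y + t • Ψ y)} (fun _ => (1 : ℝ)) x))) 0) →
    ∃ v : EuclideanSpace ℝ (Fin n), ‖v‖ = 1 ∧ ∀ x, u x = max (inner ℝ x v) 0 := by
  rintro n (rfl | rfl)
  · exact OPC.frozen_form 5 fun _ _ h hst =>
      OPC.rigidity_of_terms (m := 4) (ϖ := 11 / 10) (t := 1 / 1000) (by norm_num) (by norm_num)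
        (by norm_num) (by norm_num) OPC.L5_ok OPC.cert5 OPC.bdry5 h hst
  · exact OPC.frozen_form 6 fun _ _ h hst =>
      OPC.rigidity_of_xi (m := 5) (ϖ := 7 / 5) (t := 1 / 1000) (by norm_num) (by norm_num)
        (by norm_num) (by norm_num) OPC.LF6 OPC.L6_ok (c0 := 1 / 20000) (by norm_num)
        OPC.cert6 OPC.bdry6 h hst

end Pool.Agent.S05381
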