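import Pool.Statements.S06130

set_option autoImplicit false
open Pool Pool.MP_c98abc_an

namespace Pool.Agent.S06130

open Filter

/-- The substitution `0 ↦ 001`, `1 ↦ 10`. -/
def sg : Fin 2 → List (Fin 2) := ![[0, 0, 1], [1, 0]]

/-- `sg` extended to words. -/
def sb (w : List (Fin 2)) : List (Fin 2) := w.flatMap sg

theorem sb_append (u v : List (Fin 2)) : sb (u ++ v) = sb u ++ sb v := by
  simp [sb]

theorem sb_iter_append (n : ℕ) (u v : List (Fin 2)) :
    sb^[n] (u ++ v) = sb^[n] u ++ sb^[n] v := by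
  induction n generalizing u v with
  | zero => rfl
  | succ n ih => rw [Function.iterate_succ_apply, Function.iterate_succ_apply,
      Function.iterate_succ_apply, sb_append, ih]

/-- `W j u` is `sg` iterated `2j` times on the word `u`. -/
def W (j : ℕ) (u : List (Fin 2)) : List (Fin 2) := sb^[2 * j] u

theorem W_append (j : ℕ) (u v : List (Fin 2)) : W j (u ++ v) = W j u ++ W j v :=
  sb_iter_append _ _ _

theorem W_zero (u : List (Fin 2)) : W 0 u = u := rfl

theorem W_succ (j : ℕ) (u : List (Fin 2)) : W (j + 1) u = W j (sb (sb u)) := by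
  unfold W
  rw [show 2 * (j + 1) = 2 * j + 1 + 1 by ring, Function.iterate_succ_apply,
    Function.iterate_succ_apply]

theorem sb2_zero : sb (sb [0]) = [0, 0, 1, 0, 0, 1, 1, 0] := by decide

theorem sb2_one : sb (sb [1]) = [1, 0, 0, 0, 1] := by decide

theorem W_succ_zero (j : ℕ) : W (j + 1) [0] = W j [0, 0, 1, 0, 0, 1, 1, 0] := by
  rw [W_succ, sb2_zero]

theorem W_succ_one (j : ℕ) : W (j + 1) [1] = W j [1, 0, 0, 0, 1] := by
  rw [W_succ, sb2_one]

/-- prefix lengths only depend on the abelianisation -/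
theorem W_len_cons (j : ℕ) (a : Fin 2) (u : List (Fin 2)) :
    (W j (a :: u)).length = (W j [a]).length + (W j u).length := by
  rw [show a :: u = [a] ++ u from rfl, W_append, List.length_append]

theorem W_len_nil (j : ℕ) : (W j []).length = 0 := by
  have h := W_append j [] []
  have h2 := congrArg List.length h
  simp only [List.append_nil, List.length_append] at h2
  omega

variable (e : ℕ → Bool)

/-- the length of the prefix of type `e j` at level `j` -/
def sh (j : ℕ) : ℕ := if e j then (W j [0, 0, 1, 0]).length else 0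

/-- the offset of the origin in the level `j` block. -/
def O : ℕ → ℕ
  | 0 => 0
  | (j + 1) => O j + sh e j

theorem O_succ (j : ℕ) : O e (j + 1) = O e j + sh e j := rfl

theorem getElem?_append_some {α : Type} {u v : List α} {p : ℕ} {c : α} (h : u[p]? = some c) :
    (u ++ v)[p]? = some c := by
  have : p < u.length := by
    by_contra hh
    rw [List.getElem?_eq_none (by omega)] at h
    exact absurd h (by simp)
  rw [List.getElem?_append_left this, h]

theorem getElem?_append_shift {α : Type} {u v : List α} {p : ℕ} {c : α} (h : v[p]? = some c) :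
    (u ++ v)[p + u.length]? = some c := by
  rw [List.getElem?_append_right (by omega), Nat.add_sub_cancel, h]

/-- main propagation step inside the block of `0` -/
theorem step (k p : ℕ) (c : Fin 2) (h : (W k [0])[p]? = some c) :
    (W (k + 1) [0])[p + sh e k]? = some c := by
  unfold sh
  rw [W_succ_zero]
  cases hk : e k with
  | false =>
    simp only [Bool.false_eq_true, if_false, Nat.add_zero]
    rw [show ([0, 0, 1, 0, 0, 1, 1, 0] : List (Fin 2)) = [0] ++ [0, 1, 0, 0, 1, 1, 0] from rfl,
      W_append]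
    exact getElem?_append_some h
  | true =>
    simp only [if_true]
    rw [show ([0, 0, 1, 0, 0, 1, 1, 0] : List (Fin 2)) = [0, 0, 1, 0] ++ ([0] ++ [1, 1, 0]) from rfl,
      W_append, W_append]
    exact getElem?_append_shift (getElem?_append_some h)

/-- the origin carries the letter `0` in the block of `0` -/
theorem orig_zero (k : ℕ) : (W k [0])[O e k]? = some 0 := by
  induction k with
  | zero => rfl
  | succ k ih => exact step e k (O e k) 0 ih

/-- the same offset carries the letter `1` in the block of `1` -/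
theorem orig_one (k : ℕ) : (W k [1])[O e k]? = some 1 := by
  induction k with
  | zero => rfl
  | succ k ih =>
    rw [W_succ_one, O_succ]
    unfold sh
    cases hk : e k with
    | false =>
      simp only [Bool.false_eq_true, if_false, Nat.add_zero]
      rw [show ([1, 0, 0, 0, 1] : List (Fin 2)) = [1] ++ [0, 0, 0, 1] from rfl, W_append]
      exact getElem?_append_some ih
    | true =>
      simp only [if_true]
      have hlen : (W k [0, 0, 1, 0]).length = (W k [1, 0, 0, 0]).length := by
        simp only [W_len_cons k _ (_ :: _)]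
        omega
      rw [hlen, show ([1, 0, 0, 0, 1] : List (Fin 2)) = [1, 0, 0, 0] ++ [1] from rfl, W_append]
      exact getElem?_append_shift ih

/-- letter at distance `|W j 0|` from the origin, at level `j+1` -/
theorem first (j : ℕ) :
    (W (j + 1) [0])[O e (j + 1) + (W j [0]).length]? = some (if e j then 1 else 0) := by
  rw [W_succ_zero, O_succ]
  unfold sh
  cases hk : e j with
  | false =>
    simp only [Bool.false_eq_true, if_false, Nat.add_zero]
    rw [show ([0, 0, 1, 0, 0, 1, 1, 0] : List (Fin 2)) = [0] ++ ([0] ++ [1, 0, 0, 1, 1, 0]) from rfl,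
      W_append, W_append]
    exact getElem?_append_shift (getElem?_append_some (orig_zero e j))
  | true =>
    simp only [if_true]
    rw [show ([0, 0, 1, 0, 0, 1, 1, 0] : List (Fin 2)) = [0, 0, 1, 0] ++ ([0] ++ ([1] ++ [1, 0])) from rfl,
      W_append, W_append, W_append,
      show O e j + (W j [0, 0, 1, 0]).length + (W j [0]).length
        = (O e j + (W j [0]).length) + (W j [0, 0, 1, 0]).length by omega]
    exact getElem?_append_shift (getElem?_append_shift (getElem?_append_some (orig_one e j)))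

theorem later (j : ℕ) (k : ℕ) (hk : j + 1 ≤ k) :
    (W k [0])[O e k + (W j [0]).length]? = some (if e j then 1 else 0) := by
  induction k, hk using Nat.le_induction with
  | base => exact first e j
  | succ k hk ih =>
    have := step e k _ _ ih
    rw [O_succ, show O e k + sh e k + (W j [0]).length = O e k + (W j [0]).length + sh e k by omega]
    exact this

theorem W_len_pos (j : ℕ) (a : Fin 2) : 0 < (W j [a]).length := by
  induction j generalizing a with
  | zero => simp [W_zero]
  | succ j ih =>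
    fin_cases a
    · show 0 < (W (j + 1) [0]).length
      rw [W_succ_zero, W_len_cons]; have := ih 0; omega
    · show 0 < (W (j + 1) [1]).length
      rw [W_succ_one, W_len_cons]; have := ih 1; omega

/-- growth on both sides, when `e` is eventually `true` -/
theorem grow (J : ℕ) (hJ : ∀ k, J ≤ k → e k = true) (m : ℕ) :
    m ≤ O e (J + m) ∧ O e (J + m) + m < (W (J + m) [0]).length := by
  induction m with
  | zero =>
    refine ⟨Nat.zero_le _, ?_⟩
    have h := orig_zero e (J + 0)
    by_contra hh
    rw [List.getElem?_eq_none (by simpa using hh)] at h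
    exact absurd h (by simp)
  | succ m ih =>
    obtain ⟨h1, h2⟩ := ih
    have hE : e (J + m) = true := hJ _ (by omega)
    have hO : O e (J + (m + 1)) = O e (J + m) + (W (J + m) [0, 0, 1, 0]).length := by
      rw [show J + (m + 1) = (J + m) + 1 by omega, O_succ]
      unfold sh
      rw [hE, if_pos rfl]
    have hl : (W (J + (m + 1)) [0]).length
        = (W (J + m) [0, 0, 1, 0]).length + ((W (J + m) [0]).length + (W (J + m) [1, 1, 0]).length) := by
      rw [show J + (m + 1) = (J + m) + 1 by omega, W_succ_zero,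
        show ([0, 0, 1, 0, 0, 1, 1, 0] : List (Fin 2)) = [0, 0, 1, 0] ++ ([0] ++ [1, 1, 0]) from rfl,
        W_append, W_append, List.length_append, List.length_append]
    have p1 : 0 < (W (J + m) [0, 0, 1, 0]).length := by
      rw [W_len_cons]; have := W_len_pos (J + m) 0; omega
    have p2 : 0 < (W (J + m) [1, 1, 0]).length := by
      rw [W_len_cons]; have := W_len_pos (J + m) 1; omega
    rw [hO, hl]
    constructor <;> omega

/-- the letter of the limit sequence at `t` is `c` -/
def Rd (t : ℤ) (c : Fin 2) : Prop :=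
  ∀ᶠ k in atTop, ∃ p : ℕ, (p : ℤ) = (O e k : ℤ) + t ∧ (W k [0])[p]? = some c

theorem Rd_of (t : ℤ) (c : Fin 2) (k₀ p₀ : ℕ) (hp : (p₀ : ℤ) = (O e k₀ : ℤ) + t)
    (h : (W k₀ [0])[p₀]? = some c) : Rd e t c := by
  rw [Rd, eventually_atTop]
  refine ⟨k₀, fun k hk => ?_⟩
  induction k, hk using Nat.le_induction with
  | base => exact ⟨p₀, hp, h⟩
  | succ k hk ih =>
    obtain ⟨p, hp, h⟩ := ih
    refine ⟨p + sh e k, ?_, step e k p c h⟩
    rw [O_succ]; push_cast; omega

theorem Rd_exists (J : ℕ) (hJ : ∀ k, J ≤ k → e k = true) (t : ℤ) : ∃ c, Rd e t c := by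
  obtain ⟨h1, h2⟩ := grow e J hJ t.natAbs
  have h3 : 0 ≤ (O e (J + t.natAbs) : ℤ) + t := by omega
  obtain ⟨p, hp⟩ := Int.eq_ofNat_of_zero_le h3
  have h4 : p < (W (J + t.natAbs) [0]).length := by omega
  exact ⟨(W (J + t.natAbs) [0])[p], Rd_of e t _ (J + t.natAbs) p hp.symm (List.getElem?_eq_getElem h4)⟩

theorem Rd_unique (t : ℤ) (c c' : Fin 2) (h : Rd e t c) (h' : Rd e t c') : c = c' := by
  obtain ⟨k, ⟨p, hp, hc⟩, ⟨p', hp', hc'⟩⟩ := (h.and h').exists
  have : p = p' := by omega
  subst this
  rw [hc] at hc'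
  exact Option.some.inj hc'

/-- every window of the limit sequence is a factor of an iterate -/
theorem window (x : ℤ → Fin 2) (hx : ∀ t, Rd e t (x t)) (m : ℤ) (n : ℕ) :
    ∃ N : ℕ, ∃ c : Fin 2, List.IsInfix (List.ofFn (fun i : Fin n => x (m + ((i : ℕ) : ℤ))))
      ((fun w : List (Fin 2) => w.flatMap sg)^[N] [c]) := by
  have hall : ∀ᶠ k in atTop, ∀ i : Fin n, ∃ p : ℕ, (p : ℤ) = (O e k : ℤ) + (m + ((i : ℕ) : ℤ)) ∧
      (W k [0])[p]? = some (x (m + ((i : ℕ) : ℤ))) :=
    eventually_all.2 (fun i => hx (m + ((i : ℕ) : ℤ)))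
  obtain ⟨k, hk⟩ := hall.exists
  refine ⟨2 * k, 0, ?_⟩
  show List.IsInfix _ (W k [0])
  rcases Nat.eq_zero_or_pos n with hn | hn
  · subst hn
    simp
  · obtain ⟨p₀, hp₀, -⟩ := hk ⟨0, hn⟩
    have heq : List.ofFn (fun i : Fin n => x (m + ((i : ℕ) : ℤ))) = ((W k [0]).drop p₀).take n := by
      apply List.ext_getElem?
      intro i
      rcases lt_or_ge i n with hi | hi
      · rw [List.getElem?_take_of_lt hi, List.getElem?_drop]
        obtain ⟨p, hp, hc⟩ := hk ⟨i, hi⟩
        have : p = p₀ + i := by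
          simp only [Nat.cast_zero, add_zero] at hp₀
          simp only at hp
          omega
        rw [← this, hc]
        simp [hi]
      · rw [List.getElem?_eq_none (by simpa using hi), List.getElem?_eq_none]
        rw [List.length_take]
        omega
    rw [heq]
    exact (List.take_prefix _ _).isInfix.trans (List.drop_suffix _ _).isInfix

theorem mat_eq : (Matrix.of (fun i j : Fin 2 => (((sg j).count i : ℕ) : ℚ))) = !![2, 1; 1, 1] := by
  ext i j
  fin_cases i <;> fin_cases j <;> simp [sg]

theorem charpoly_eq : (!![2, 1; 1, 1] : Matrix (Fin 2) (Fin 2) ℚ).charpoly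
    = Polynomial.X ^ 2 - Polynomial.C 3 * Polynomial.X + Polynomial.C 1 := by
  rw [Matrix.charpoly_fin_two, Matrix.trace_fin_two, Matrix.det_fin_two]
  norm_num

theorem irr : Irreducible (Polynomial.X ^ 2 - Polynomial.C 3 * Polynomial.X + Polynomial.C 1 :
    Polynomial ℚ) := by
  have hdeg : (Polynomial.X ^ 2 - Polynomial.C 3 * Polynomial.X + Polynomial.C 1 :
    Polynomial ℚ).natDegree = 2 := by compute_degree!
  rw [Polynomial.irreducible_iff_roots_eq_zero_of_degree_le_three (by rw [hdeg])
    (by rw [hdeg]; norm_num)]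
  rw [Multiset.eq_zero_iff_forall_notMem]
  intro r hr
  rw [Polynomial.mem_roots'] at hr
  have h := hr.2
  simp only [Polynomial.IsRoot.def, Polynomial.eval_add, Polynomial.eval_sub, Polynomial.eval_pow,
    Polynomial.eval_X, Polynomial.eval_mul, Polynomial.eval_C] at h
  have h5 : ((2 * r - 3 : ℚ) : ℝ) ^ 2 = 5 := by
    have : (2 * r - 3) ^ 2 = 5 := by linear_combination 4 * h
    exact_mod_cast this
  have hirr : Irrational (Real.sqrt 5) := by
    simpa using Nat.Prime.irrational_sqrt (show Nat.Prime 5 by norm_num)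
  apply hirr
  refine ⟨|2 * r - 3|, ?_⟩
  rw [← h5, Real.sqrt_sq_eq_abs]
  push_cast
  rfl

theorem sqrt5_bounds : 2 < Real.sqrt 5 ∧ Real.sqrt 5 < 3 ∧ Real.sqrt 5 ^ 2 = 5 := by
  refine ⟨?_, ?_, Real.sq_sqrt (by norm_num)⟩
  · rw [Real.lt_sqrt (by norm_num)]; norm_num
  · rw [Real.sqrt_lt' (by norm_num)]; norm_num

theorem map_eq : (Polynomial.X ^ 2 - Polynomial.C 3 * Polynomial.X + Polynomial.C 1 :
    Polynomial ℚ).map (algebraMap ℚ ℂ) =
    (Polynomial.X - Polynomial.C (((3 + Real.sqrt 5) / 2 : ℝ) : ℂ)) *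
    (Polynomial.X - Polynomial.C (((3 - Real.sqrt 5) / 2 : ℝ) : ℂ)) := by
  obtain ⟨-, -, h5⟩ := sqrt5_bounds
  have h5' : (Real.sqrt 5 : ℂ) ^ 2 = 5 := by exact_mod_cast congrArg (fun x : ℝ => (x : ℂ)) h5
  have e1 : (((3 + Real.sqrt 5) / 2 : ℝ) : ℂ) + (((3 - Real.sqrt 5) / 2 : ℝ) : ℂ) = 3 := by
    push_cast; ring
  have e2 : (((3 + Real.sqrt 5) / 2 : ℝ) : ℂ) * (((3 - Real.sqrt 5) / 2 : ℝ) : ℂ) = 1 := by
    push_cast; linear_combination (-1 / 4 : ℂ) * h5'
  have e3 : ∀ a b : ℂ, (Polynomial.X - Polynomial.C a) * (Polynomial.X - Polynomial.C b)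
      = Polynomial.X ^ 2 - Polynomial.C (a + b) * Polynomial.X + Polynomial.C (a * b) := by
    intro a b
    rw [Polynomial.C_add, Polynomial.C_mul]
    ring
  rw [e3, e1, e2]
  simp

theorem roots_eq : ((Polynomial.X ^ 2 - Polynomial.C 3 * Polynomial.X + Polynomial.C 1 :
    Polynomial ℚ).map (algebraMap ℚ ℂ)).roots =
    {(((3 + Real.sqrt 5) / 2 : ℝ) : ℂ), (((3 - Real.sqrt 5) / 2 : ℝ) : ℂ)} := by
  rw [map_eq, Polynomial.roots_mul
    (mul_ne_zero (Polynomial.X_sub_C_ne_zero _) (Polynomial.X_sub_C_ne_zero _)),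
    Polynomial.roots_X_sub_C, Polynomial.roots_X_sub_C]
  rfl

/-- The negation of the preceding statement: Fix a substitution whose incidence matrix has irreducible char. polynomial with a Pisot root and determinant ±1. Then for every continuous f, the shifts of f restricted to the substitution subshift contain no independent sequence, i.e. the subshift is tame. -/
theorem result :
    ¬ (∀ (d : ℕ) (σ : Fin d → List (Fin d)),
    Irreducible (Matrix.of (fun i j : Fin d => (((σ j).count i : ℕ) : ℚ))).charpoly →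
    (∃ r : ℝ, 1 < r ∧
      (r : ℂ) ∈ ((Matrix.of (fun i j : Fin d => (((σ j).count i : ℕ) : ℚ))).charpoly.map
        (algebraMap ℚ ℂ)).roots ∧
      ∀ z ∈ ((Matrix.of (fun i j : Fin d => (((σ j).count i : ℕ) : ℚ))).charpoly.map
        (algebraMap ℚ ℂ)).roots, z ≠ (r : ℂ) → ‖z‖ < 1) →
    |(Matrix.of (fun i j : Fin d => (((σ j).count i : ℕ) : ℚ))).det| = 1 →
    ∀ f : (ℤ → Fin d) → ℝ, Continuous f →
      ¬ ∃ (n : ℕ → ℤ) (a b : ℝ), a < b ∧
        ∀ P Q : Finset ℕ, Disjoint P Q →
          ∃ x : ℤ → Fin d,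
            (∀ m : ℤ, ∀ k : ℕ, ∃ N : ℕ, ∃ c : Fin d,
              List.IsInfix (List.ofFn (fun i : Fin k => x (m + ((i : ℕ) : ℤ))))
                ((fun w : List (Fin d) => w.flatMap σ)^[N] [c])) ∧
            (∀ j ∈ P, f (fun t => x (t + n j)) < a) ∧
            (∀ j ∈ Q, b < f (fun t => x (t + n j)))) := by
  intro H
  obtain ⟨s1, s2, s3⟩ := sqrt5_bounds
  have hirr : Irreducible (Matrix.of (fun i j : Fin 2 => (((sg j).count i : ℕ) : ℚ))).charpoly := by
    rw [mat_eq, charpoly_eq]; exact irr
  have hpis : ∃ r : ℝ, 1 < r ∧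
      (r : ℂ) ∈ ((Matrix.of (fun i j : Fin 2 => (((sg j).count i : ℕ) : ℚ))).charpoly.map
        (algebraMap ℚ ℂ)).roots ∧
      ∀ z ∈ ((Matrix.of (fun i j : Fin 2 => (((sg j).count i : ℕ) : ℚ))).charpoly.map
        (algebraMap ℚ ℂ)).roots, z ≠ (r : ℂ) → ‖z‖ < 1 := by
    rw [mat_eq, charpoly_eq, roots_eq]
    refine ⟨(3 + Real.sqrt 5) / 2, by linarith, by simp, ?_⟩
    intro z hz hne
    simp only [Multiset.insert_eq_cons, Multiset.mem_cons, Multiset.mem_singleton] at hz
    rcases hz with hz | hz
    · exact absurd hz hne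
    · rw [hz, Complex.norm_real, Real.norm_eq_abs, abs_lt]
      constructor <;> linarith
  have hdet : |(Matrix.of (fun i j : Fin 2 => (((sg j).count i : ℕ) : ℚ))).det| = 1 := by
    rw [mat_eq, Matrix.det_fin_two]
    norm_num
  have hf : Continuous (fun x : ℤ → Fin 2 => if x 0 = 1 then (1 : ℝ) else 0) :=
    (continuous_of_discreteTopology (f := fun c : Fin 2 => if c = 1 then (1 : ℝ) else 0)).comp
      (continuous_apply 0)
  refine H 2 sg hirr hpis hdet _ hf
    ⟨fun j => ((W j [0]).length : ℤ), 1 / 3, 2 / 3, by norm_num, ?_⟩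
  intro P Q hPQ
  let J : ℕ := P.sup id + 1
  let e : ℕ → Bool := fun j => decide (j ∉ P)
  have hJ : ∀ k, J ≤ k → e k = true := by
    intro k hk
    have : k ∉ P := by
      intro hkP
      have : k ≤ P.sup id := Finset.le_sup (f := id) hkP
      omega
    simp [e, this]
  choose x hx using Rd_exists e J hJ
  have hval : ∀ j : ℕ, x ((W j [0]).length : ℤ) = if e j then 1 else 0 := by
    intro j
    refine Rd_unique e _ _ _ (hx _) (Rd_of e _ _ (j + 1) (O e (j + 1) + (W j [0]).length) ?_ ?_)
    · push_cast; ring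
    · exact later e j (j + 1) le_rfl
  refine ⟨x, fun m k => window e x hx m k, ?_, ?_⟩
  · intro j hj
    have h1 : e j = false := by simp [e, hj]
    have h2 := hval j
    rw [h1] at h2
    simp only [zero_add, h2]
    norm_num
  · intro j hj
    have h0 : j ∉ P := fun h => (Finset.disjoint_left.1 hPQ h) hj
    have h1 : e j = true := by simp [e, h0]
    have h2 := hval j
    rw [h1] at h2
    simp only [zero_add, h2]
    norm_num

end Pool.Agent.S06130
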