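import Pool.Statements.S06226
import Pool.Agent.Lib.MP_d01728_an.Final

set_option autoImplicit false
open Pool Pool.MP_d01728_an

namespace Pool.Agent.S06226

/-- The Robin fundamental gap conjecture fails in dimension three: thin hip-roof domains. -/
theorem result :
    ¬ (∀ (d : ℕ), 1 ≤ d → ∀ (Ω : Set (EuclideanSpace ℝ (Fin d))), IsOpen Ω → Convex ℝ Ω →
  Bornology.IsBounded Ω → Ω.Nonempty →
  ∀ (V : EuclideanSpace ℝ (Fin d) → ℝ), ConvexOn ℝ Ω V → ContinuousOn V (closure Ω) →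
  ∀ α : ℝ, 0 < α →
  ∀ lam0 lam1 mu0 mu1 : ℝ,
  IsGLB {t : ℝ | ∃ u : EuclideanSpace ℝ (Fin d) → ℝ, ContDiff ℝ 1 u ∧
      0 < (∫ x in Ω, u x ^ 2) ∧
      t = ((∫ x in Ω, (‖fderiv ℝ u x‖ ^ 2 + V x * u x ^ 2)) +
            α * (Real.pi ^ (((d:ℝ) - 1) / 2) / Real.Gamma (((d:ℝ) - 1) / 2 + 1) / 2 ^ ((d:ℝ) - 1)) *
            (∫ x in frontier Ω, u x ^ 2 ∂(MeasureTheory.Measure.hausdorffMeasure ((d:ℝ) - 1))))
          / (∫ x in Ω, u x ^ 2)} lam0 →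
  IsGLB {t : ℝ | ∃ u w : EuclideanSpace ℝ (Fin d) → ℝ, ContDiff ℝ 1 u ∧ ContDiff ℝ 1 w ∧
      0 < (∫ x in Ω, u x ^ 2) * (∫ x in Ω, w x ^ 2) - (∫ x in Ω, u x * w x) ^ 2 ∧
      IsLUB {s : ℝ | ∃ a b : ℝ, (a ≠ 0 ∨ b ≠ 0) ∧
        s = ((∫ x in Ω, (‖fderiv ℝ (fun y => a * u y + b * w y) x‖ ^ 2 +
                  V x * (a * u x + b * w x) ^ 2)) +
              α * (Real.pi ^ (((d:ℝ) - 1) / 2) / Real.Gamma (((d:ℝ) - 1) / 2 + 1) / 2 ^ ((d:ℝ) - 1)) *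
              (∫ x in frontier Ω, (a * u x + b * w x) ^ 2
                  ∂(MeasureTheory.Measure.hausdorffMeasure ((d:ℝ) - 1))))
            / (∫ x in Ω, (a * u x + b * w x) ^ 2)} t} lam1 →
  IsGLB {t : ℝ | ∃ u : ℝ → ℝ, ContDiff ℝ 1 u ∧
      0 < (∫ x in Set.Ioo (-(Metric.diam Ω / 2)) (Metric.diam Ω / 2), u x ^ 2) ∧
      t = ((∫ x in Set.Ioo (-(Metric.diam Ω / 2)) (Metric.diam Ω / 2), deriv u x ^ 2) +
            α * (u (-(Metric.diam Ω / 2)) ^ 2 + u (Metric.diam Ω / 2) ^ 2))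
          / (∫ x in Set.Ioo (-(Metric.diam Ω / 2)) (Metric.diam Ω / 2), u x ^ 2)} mu0 →
  IsGLB {t : ℝ | ∃ u w : ℝ → ℝ, ContDiff ℝ 1 u ∧ ContDiff ℝ 1 w ∧
      0 < (∫ x in Set.Ioo (-(Metric.diam Ω / 2)) (Metric.diam Ω / 2), u x ^ 2) *
          (∫ x in Set.Ioo (-(Metric.diam Ω / 2)) (Metric.diam Ω / 2), w x ^ 2) -
          (∫ x in Set.Ioo (-(Metric.diam Ω / 2)) (Metric.diam Ω / 2), u x * w x) ^ 2 ∧
      IsLUB {s : ℝ | ∃ a b : ℝ, (a ≠ 0 ∨ b ≠ 0) ∧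
        s = ((∫ x in Set.Ioo (-(Metric.diam Ω / 2)) (Metric.diam Ω / 2),
                  deriv (fun y => a * u y + b * w y) x ^ 2) +
              α * ((a * u (-(Metric.diam Ω / 2)) + b * w (-(Metric.diam Ω / 2))) ^ 2 +
                   (a * u (Metric.diam Ω / 2) + b * w (Metric.diam Ω / 2)) ^ 2))
            / (∫ x in Set.Ioo (-(Metric.diam Ω / 2)) (Metric.diam Ω / 2),
                  (a * u x + b * w x) ^ 2)} t} mu1 →
  mu1 - mu0 ≤ lam1 - lam0) := by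
  intro H
  obtain ⟨k, hk, hkm⟩ := Pool.Agent.Lib.MP_d01728_an.exists_kappa
  -- the normalising constant
  have hex : ((3:ℕ):ℝ) - 1 = 2 := by norm_num
  set c : ℝ := Real.pi ^ ((2:ℝ) / 2) / Real.Gamma ((2:ℝ) / 2 + 1) / 2 ^ (2:ℝ) with hc
  have hcpos : 0 < c := by
    have h1 : 0 < Real.pi := Real.pi_pos
    have h2 : 0 < Real.Gamma ((2:ℝ) / 2 + 1) := Real.Gamma_pos_of_pos (by norm_num)
    positivity
  set b : ℝ := min (1 / 10 ^ 7) (8 / 1000 * k * c) with hb'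
  have hb : 0 < b := lt_min (by norm_num) (by positivity)
  have hb1 : b ≤ 1 / 10 ^ 7 := min_le_left _ _
  have hb2 : b ≤ 8 / 1000 * k * c := min_le_right _ _
  set A : ℝ := b / (20 * k) with hA'
  have hA0 : 0 < A := by positivity
  have hA : A * k = 1 / 20 * b := by rw [hA']; field_simp
  set α : ℝ := A / c with hα'
  have hα : 0 < α := by positivity
  have hαc : α * c = A := by rw [hα']; field_simp
  have hαsmall : α ≤ 4 / 10000 := by
    rw [hα', hA', div_div, div_le_iff₀ (by positivity)]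
    calc b ≤ 8 / 1000 * k * c := hb2
      _ = 4 / 10000 * (20 * k * c) := by ring
  obtain ⟨lam0, lam1, h0, h1, hgap⟩ :=
    Pool.Agent.Lib.MP_d01728_an.lam_exists hk hkm hb hb1 hA0.le hA
  have hD := Pool.Agent.Lib.MP_d01728_an.le_diam hb
  have hD2 := Pool.Agent.Lib.MP_d01728_an.diam_le hb hb1
  set D := Metric.diam (Pool.Agent.Lib.MP_d01728_an.Om b) with hDdef
  have hL : 0 < D / 2 := by linarith
  obtain ⟨mu0, hmu0, hmu0le⟩ := Pool.Agent.Lib.MP_d01728_an.mu0_exists hL hα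
  obtain ⟨mu1, hmu1, hmu1ge⟩ := Pool.Agent.Lib.MP_d01728_an.mu1_exists hL hα
  have key := H 3 (by norm_num) (Pool.Agent.Lib.MP_d01728_an.Om b)
    (Pool.Agent.Lib.MP_d01728_an.isOpen_Om b) (Pool.Agent.Lib.MP_d01728_an.convex_Om b)
    (Pool.Agent.Lib.MP_d01728_an.isBounded_Om hb)
    ⟨_, Pool.Agent.Lib.MP_d01728_an.mem_Om_point (z := 0) hb (by norm_num)⟩
    (fun _ => 0) (convexOn_const 0 (Pool.Agent.Lib.MP_d01728_an.convex_Om b))
    continuousOn_const α hα lam0 lam1 mu0 mu1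
    (by
      simp only [hex, zero_mul, add_zero]
      rw [← hc, hαc]
      exact h0)
    (by
      simp only [hex, zero_mul, add_zero]
      rw [← hc, hαc]
      exact h1)
    hmu0 hmu1
  have e1 : 799 / 10 ^ 8 ≤ 2 / (D / 2) ^ 2 := by
    rw [le_div_iff₀ (by positivity)]
    nlinarith
  have e2 : α / (D / 2) ≤ 1 / 10 ^ 6 := by
    rw [div_le_iff₀ hL]
    nlinarith
  have : (799:ℝ) / 10 ^ 8 - 1 / 10 ^ 6 ≤ 576 / 10 ^ 8 := by linarith
  norm_num at this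

end Pool.Agent.S06226
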