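import Pool.Statements.S06311
import Pool.Agent.Lib.MP_d691669a_an.Main

set_option autoImplicit false
open Pool Pool.MP_d691669a_an

namespace Pool.Agent.S06311

/-- For every uncountable compact metrizable space K without Haver's property C, continuous real functions on K with the pointwise topology and with the weak (sup-norm Banach) topology are not homeomorphic. -/
theorem result :
  ∀ (K : Type) [TopologicalSpace K] [CompactSpace K] [TopologicalSpace.MetrizableSpace K],
    Uncountable K →
    ¬ (∀ U : ℕ → Set (Set K), (∀ n, (∀ s ∈ U n, IsOpen s) ∧ ⋃₀ U n = Set.univ) →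
        ∃ V : ℕ → Set (Set K),
          (∀ n, (∀ v ∈ V n, IsOpen v ∧ ∃ u ∈ U n, v ⊆ u) ∧ (V n).PairwiseDisjoint id) ∧
          ⋃ n, ⋃₀ V n = Set.univ) →
    ¬ ∃ e : C(K, ℝ) ≃ C(K, ℝ),
      @Continuous C(K, ℝ) C(K, ℝ)
        (⨅ x : K, TopologicalSpace.induced (fun f : C(K, ℝ) => f x) (inferInstance : TopologicalSpace ℝ))
        (⨅ φ : C(K, ℝ) →L[ℝ] ℝ, TopologicalSpace.induced (fun f : C(K, ℝ) => φ f) (inferInstance : TopologicalSpace ℝ))
        e ∧
      @Continuous C(K, ℝ) C(K, ℝ)
        (⨅ φ : C(K, ℝ) →L[ℝ] ℝ, TopologicalSpace.induced (fun f : C(K, ℝ) => φ f) (inferInstance : TopologicalSpace ℝ))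
        (⨅ x : K, TopologicalSpace.induced (fun f : C(K, ℝ) => f x) (inferInstance : TopologicalSpace ℝ))
        e.symm := by
  intro K _ _ _ hK _
  haveI : T2Space K := TopologicalSpace.t2Space_of_metrizableSpace
  haveI : Infinite K := by
    rcases finite_or_infinite K with h | h
    · exact absurd (Finite.to_countable : Countable K) (not_countable_iff.2 hK)
    · exact h
  exact Pool.Agent.CpCw.not_homeo Pool.Agent.CpCw.not_finiteDimensional

end Pool.Agent.S06311
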