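import Pool.Statements.S06340
-- import your own Pool.Agent.* helpers here
import Pool.Agent.Lib.MP_d7d6c7_an.Final

set_option autoImplicit false
open Filter Topology
open scoped ZeroAtInfty
open Pool Pool.MP_d7d6c7_an

namespace Pool.Agent.S06340

/-- The negation of the preceding statement: Every real Banach space with no isomorphic copy of c_0 has the Gelfand-Phillips property: each set on which every weak-star null sequence of functionals converges uniformly to 0 has compact norm closure. -/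
theorem result :
    ¬ (∀ (X : Type) [NormedAddCommGroup X] [NormedSpace ℝ X] [CompleteSpace X],
      (¬ ∃ (T : (ℕ →C₀ ℝ) →L[ℝ] X) (c : ℝ), 0 < c ∧ ∀ x, ‖x‖ ≤ c * ‖T x‖) →
      ∀ C : Set X,
        (∀ f : ℕ → (X →L[ℝ] ℝ),
            (∀ x : X, Tendsto (fun n => f n x) atTop (𝓝 0)) →
            ∀ ε : ℝ, 0 < ε → ∀ᶠ n in atTop, ∀ x ∈ C, |f n x| ≤ ε) →
        IsCompact (closure C)) := by
  intro h
  refine Pool.Agent.Lib.MP_d7d6c7_an.not_compact
    (h Pool.Agent.Lib.MP_d7d6c7_an.XX Pool.Agent.Lib.MP_d7d6c7_an.no_c0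
      (Set.range Pool.Agent.Lib.MP_d7d6c7_an.EgX) ?_)
  intro f hf ε hε
  refine (Pool.Agent.Lib.MP_d7d6c7_an.limited_core f hf hε).mono fun n hn => ?_
  rintro _ ⟨k, rfl⟩
  exact hn k

end Pool.Agent.S06340
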