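import Pool.Statements.S06578
import Pool.Agent.Lib.MP_ec292c_an.NoEmbed

set_option autoImplicit false
open Pool Pool.MP_ec292c_an
open Pool.Agent.Lib.MP_ec292c_an

namespace Pool.Agent.S06578

/-- The negation of the preceding statement: Every separable real Banach space X has a compact subset K such that any real Banach space Z into which K embeds isometrically (as a metric space) admits a linear isometric embedding of X. -/
theorem result :
    ¬ (∀ (X : Type) [NormedAddCommGroup X] [NormedSpace ℝ X] [CompleteSpace X]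
      [TopologicalSpace.SeparableSpace X],
      ∃ K : Set X, IsCompact K ∧
        ∀ (Z : Type) [NormedAddCommGroup Z] [NormedSpace ℝ Z] [CompleteSpace Z],
          (∃ f : K → Z, Isometry f) → Nonempty (X →ₗᵢ[ℝ] Z)) := by
  intro hall
  obtain ⟨K, hK, hprop⟩ := hall XX
  obtain ⟨R, hR⟩ := hK.exists_bound_of_continuousOn (f := fun y : XX => ‖y‖)
    (continuous_norm (E := XX)).continuousOn
  simp only [norm_norm] at hR
  have hR0 : 0 ≤ max R 0 := le_max_right _ _
  have hR' : ∀ y ∈ K, ‖y‖ ≤ max R 0 := fun y hy => (hR y hy).trans (le_max_left _ _)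
  obtain ⟨T⟩ := hprop ZZ ⟨fun y => ⟨phi (max R 0) hR0 y, phi_mem _ hR0 y⟩, by
    apply Isometry.of_dist_eq
    intro y y'
    rw [Subtype.dist_eq, Subtype.dist_eq, dist_eq_norm]
    rw [isometry_phi (max R 0) hR0 y y' (hR' _ y.2) (hR' _ y'.2)]
    exact (dist_eq_norm (y : XX) (y' : XX)).symm⟩
  exact no_embed T

end Pool.Agent.S06578
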