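import Pool.Statements.S06797
import Pool.Agent.Lib.MP_fb9e71_an.Main

set_option autoImplicit false
open Pool Pool.MP_fb9e71_an

namespace Pool.Agent.S06797

/-- There exists an equivalent norm N on c_0 = C_0(ℕ,ℝ), C^2 on x ≠ 0, and distinct functionals f ≠ g in the dual unit ball whose midpoint has dual norm 1 (dual norm not strictly convex). -/
theorem result :
    ∃ N : ZeroAtInftyContinuousMap ℕ ℝ → ℝ,
      (∃ a b : ℝ, 0 < a ∧ 0 < b ∧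
        ∀ x : ZeroAtInftyContinuousMap ℕ ℝ, a * ‖x‖ ≤ N x ∧ N x ≤ b * ‖x‖) ∧
      (∀ x y : ZeroAtInftyContinuousMap ℕ ℝ, N (x + y) ≤ N x + N y) ∧
      (∀ (c : ℝ) (x : ZeroAtInftyContinuousMap ℕ ℝ), N (c • x) = |c| * N x) ∧
      ContDiffOn ℝ 2 N {x : ZeroAtInftyContinuousMap ℕ ℝ | x ≠ 0} ∧
      ∃ f g : ZeroAtInftyContinuousMap ℕ ℝ →L[ℝ] ℝ,
        f ≠ g ∧
        (∀ x : ZeroAtInftyContinuousMap ℕ ℝ, N x ≤ 1 → f x ≤ 1) ∧
        (∀ x : ZeroAtInftyContinuousMap ℕ ℝ, N x ≤ 1 → g x ≤ 1) ∧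
        ∀ ε : ℝ, 0 < ε →
          ∃ x : ZeroAtInftyContinuousMap ℕ ℝ, N x ≤ 1 ∧ 1 - ε < (f x + g x) / 2 := by
  obtain ⟨b, hb, hub⟩ := Pool.Agent.Lib.MP_fb9e71_an.N_upper
  refine ⟨Pool.Agent.Lib.MP_fb9e71_an.N,
    ⟨2⁻¹, b, by norm_num, hb, fun x => ⟨Pool.Agent.Lib.MP_fb9e71_an.N_lower x, hub x⟩⟩,
    Pool.Agent.Lib.MP_fb9e71_an.N_add_le, Pool.Agent.Lib.MP_fb9e71_an.N_smul,
    fun x hx => (Pool.Agent.Lib.MP_fb9e71_an.contDiffAt_N x hx).contDiffWithinAt,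
    Pool.Agent.Lib.MP_fb9e71_an.ev 1 + Pool.Agent.Lib.MP_fb9e71_an.ev 0,
    Pool.Agent.Lib.MP_fb9e71_an.ev 1 - Pool.Agent.Lib.MP_fb9e71_an.ev 0,
    Pool.Agent.Lib.MP_fb9e71_an.ev_ne, ?_, ?_, ?_⟩
  · refine Pool.Agent.Lib.MP_fb9e71_an.le_one_of_N_le_one _ (fun x hx => ?_)
    have := Pool.Agent.Lib.MP_fb9e71_an.abs_add_abs_lt x hx
    have h1 := le_abs_self (x 1)
    have h2 := le_abs_self (x 0)
    simp only [_root_.add_apply, Pool.Agent.Lib.MP_fb9e71_an.ev_apply]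
    linarith
  · refine Pool.Agent.Lib.MP_fb9e71_an.le_one_of_N_le_one _ (fun x hx => ?_)
    have := Pool.Agent.Lib.MP_fb9e71_an.abs_add_abs_lt x hx
    have h1 := le_abs_self (x 1)
    have h2 := neg_abs_le (x 0)
    simp only [_root_.sub_apply, Pool.Agent.Lib.MP_fb9e71_an.ev_apply]
    linarith
  · intro ε hε
    obtain ⟨x, hx1, hx2⟩ := Pool.Agent.Lib.MP_fb9e71_an.exists_test ε hε
    refine ⟨x, hx1, ?_⟩
    simp only [_root_.add_apply, _root_.sub_apply,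
      Pool.Agent.Lib.MP_fb9e71_an.ev_apply]
    linarith

end Pool.Agent.S06797
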