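import Pool.Statements.S06969
import Pool.Agent.Lib.MP_057dff_co.Final

set_option autoImplicit false
open Pool Pool.MP_057dff_co

open Pool.Agent.Lib.MP_057dff_co

namespace Pool.Agent.S06969

/-- For every finite abelian group G of order at least 3, ρ₃(G) = D(G)+1 if and only if G is cyclic or G ≅ C₂×C₂. Here ρ₃(G) is the largest factorization length of a zero-sum sequence that also factors into 3 minimal zero-sum sequences, and D(G) is the maximal length of a minimal zero-sum sequence. -/
theorem result :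
    ∀ (G : Type) [AddCommGroup G] [Fintype G], 3 ≤ Fintype.card G →
      ((∃ D : ℕ,
          (∃ S : Multiset G, S ≠ 0 ∧ S.sum = 0 ∧
              (∀ T : Multiset G, T ≤ S → T ≠ 0 → T.sum = 0 → T = S) ∧
              Multiset.card S = D) ∧
          (∀ S : Multiset G, S ≠ 0 → S.sum = 0 →
              (∀ T : Multiset G, T ≤ S → T ≠ 0 → T.sum = 0 → T = S) →
              Multiset.card S ≤ D) ∧
          (∀ (A : Multiset G) (m : ℕ),
              (∃ l : List (Multiset G), l.length = 3 ∧
                  (∀ S ∈ l, S ≠ 0 ∧ S.sum = 0 ∧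
                    ∀ T : Multiset G, T ≤ S → T ≠ 0 → T.sum = 0 → T = S) ∧
                  l.sum = A) →
              (∃ l : List (Multiset G), l.length = m ∧
                  (∀ S ∈ l, S ≠ 0 ∧ S.sum = 0 ∧
                    ∀ T : Multiset G, T ≤ S → T ≠ 0 → T.sum = 0 → T = S) ∧
                  l.sum = A) →
              m ≤ D + 1) ∧
          (∃ A : Multiset G,
              (∃ l : List (Multiset G), l.length = 3 ∧
                  (∀ S ∈ l, S ≠ 0 ∧ S.sum = 0 ∧
                    ∀ T : Multiset G, T ≤ S → T ≠ 0 → T.sum = 0 → T = S) ∧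
                  l.sum = A) ∧
              (∃ l : List (Multiset G), l.length = D + 1 ∧
                  (∀ S ∈ l, S ≠ 0 ∧ S.sum = 0 ∧
                    ∀ T : Multiset G, T ≤ S → T ≠ 0 → T.sum = 0 → T = S) ∧
                  l.sum = A))) ↔
        (IsAddCyclic G ∨ Nonempty (G ≃+ (ZMod 2 × ZMod 2)))) := by
  intro G _ _ h3
  constructor
  · rintro ⟨D, hU, hmax, hb, -⟩
    obtain ⟨S, h1, h2, h4, h5⟩ := hU
    exact cyclic_or_klein h3 D ⟨S, ⟨h1, h2, h4⟩, h5⟩ (fun T hT => hmax T hT.1 hT.2.1 hT.2.2)
      (fun A m hA hm => hb A m hA hm)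
  · rintro (hc | ⟨⟨e⟩⟩)
    · obtain ⟨⟨S, hS, hcard⟩, hA⟩ := cyclic_attained h3 hc
      exact ⟨Fintype.card G, ⟨S, hS.1, hS.2.1, hS.2.2, hcard⟩,
        fun T h1 h2 h4 => Atom.card_le ⟨h1, h2, h4⟩,
        fun A m h1 h2 => cyclic_bound h3 A m h1 h2, hA⟩
    · have h4 : Fintype.card G = 4 := by
        rw [Fintype.card_congr e.toEquiv]; rfl
      have h2 : ∀ x : G, x + x = 0 := by
        intro x
        apply e.injective
        rw [map_add, map_zero]
        generalize e x = y
        revert y
        decide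
      obtain ⟨⟨S, hS, hcard⟩, hA⟩ := klein_attained e
      have hmax := card_le_three h4 h2
      exact ⟨3, ⟨S, hS.1, hS.2.1, hS.2.2, hcard⟩,
        fun T h1 h2 h4 => hmax T ⟨h1, h2, h4⟩,
        fun A m h1 h2 => small_bound hmax A m h1 h2, hA⟩

end Pool.Agent.S06969
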