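import Pool.Statements.S07051
import Pool.Agent.Lib.MP_09393f_co.Final

set_option autoImplicit false
open Pool Pool.MP_09393f_co

namespace Pool.Agent.S07051

/-- For every k there is a finite loopless digraph that is connected, has in-degree equal to out-degree at every vertex, and has a planar drawing of its underlying graph, on which k cops cannot force capture of the robber. -/
theorem result :
    ∀ k : ℕ, ∃ (V : Type) (_ : Finite V) (G : Digraph V),
      (∀ v, ¬ G.Adj v v) ∧
      (SimpleGraph.fromRel G.Adj).Connected ∧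
      (∀ v, Set.ncard {u | G.Adj u v} = Set.ncard {w | G.Adj v w}) ∧
      (∃ f : V → EuclideanSpace ℝ (Fin 2), Function.Injective f ∧
        ∃ γ : V → V → (unitInterval → EuclideanSpace ℝ (Fin 2)),
          (∀ u v, (SimpleGraph.fromRel G.Adj).Adj u v →
            Continuous (γ u v) ∧ Function.Injective (γ u v) ∧
            γ u v 0 = f u ∧ γ u v 1 = f v) ∧
          (∀ u v w, (SimpleGraph.fromRel G.Adj).Adj u v →
            ∀ s, γ u v s = f w → w = u ∨ w = v) ∧
          (∀ u v x y, (SimpleGraph.fromRel G.Adj).Adj u v →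
            (SimpleGraph.fromRel G.Adj).Adj x y →
            Sym2.mk (u, v) ≠ Sym2.mk (x, y) →
            ∀ s t, γ u v s = γ x y t →
              ∃ z, (z = u ∨ z = v) ∧ (z = x ∨ z = y) ∧ γ u v s = f z)) ∧
      ¬ (∃ S : Set ((Fin k → V) × V), ∃ ρ : (Fin k → V) × V → ℕ,
          ∃ c₀ : Fin k → V,
            (∀ r₀ : V, (∃ i, c₀ i = r₀) ∨ (c₀, r₀) ∈ S) ∧
            ∀ p ∈ S, ∃ c' : Fin k → V,
              (∀ i, c' i = p.1 i ∨ G.Adj (p.1 i) (c' i)) ∧
              ((∃ i, c' i = p.2) ∨
                ∀ r' : V, (r' = p.2 ∨ G.Adj p.2 r') →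
                  (∃ i, c' i = r') ∨ ((c', r') ∈ S ∧ ρ (c', r') < ρ p))) := by
  exact fun k => CR.main k

end Pool.Agent.S07051
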