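import Pool.Statements.S07444
import Pool.Agent.Lib.MP_1b5659_co.Rank

set_option autoImplicit false
open Classical
open Pool Pool.MP_1b5659_co

namespace Pool.Agent.S07444

/-- The negation of the preceding statement: For d≥3, if G on n vertices is 3-connected and redundantly rigid in R^d, and H is any graph on n vertices whose measurement set equals that of G under some edge bijection, then G and H are isomorphic. -/
theorem result :
    ¬ (∀ (d : ℕ), 3 ≤ d → ∀ (n : ℕ) (G H : SimpleGraph (Fin n)),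
      (3 < n ∧ ∀ S : Finset (Fin n), S.card ≤ 2 →
          (G.induce {v : Fin n | v ∉ S}).Connected) →
      (∀ e : Sym2 (Fin n), e ∈ G.edgeSet → ∃ p : Fin n → Fin d → ℝ, ∀ q : Fin n → Fin d → ℝ,
          Matrix.rank (Matrix.of fun (a : Fin n × Fin n) (b : Fin n × Fin d) =>
              if a.1 ≠ a.2 then
                ((if b.1 = a.1 then (1 : ℝ) else 0) - (if b.1 = a.2 then (1 : ℝ) else 0))
                  * (q a.1 b.2 - q a.2 b.2)
              else (0 : ℝ)) ≤
          Matrix.rank (Matrix.of fun (a : Fin n × Fin n) (b : Fin n × Fin d) =>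
              if G.Adj a.1 a.2 ∧ s(a.1, a.2) ≠ e then
                ((if b.1 = a.1 then (1 : ℝ) else 0) - (if b.1 = a.2 then (1 : ℝ) else 0))
                  * (p a.1 b.2 - p a.2 b.2)
              else (0 : ℝ))) →
      ∀ σ : G.edgeSet ≃ H.edgeSet,
      (∀ x : H.edgeSet → ℂ,
        (∀ f : MvPolynomial H.edgeSet ℂ,
            (∀ (p : Fin n → Fin d → ℂ) (z : H.edgeSet → ℂ),
              (∀ (e : H.edgeSet) (u v : Fin n), s(u, v) = e.1 →
                  z e = ∑ k : Fin d, (p u k - p v k) ^ 2) →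
              MvPolynomial.eval z f = 0) →
            MvPolynomial.eval x f = 0) ↔
        (∀ f : MvPolynomial G.edgeSet ℂ,
            (∀ (p : Fin n → Fin d → ℂ) (z : G.edgeSet → ℂ),
              (∀ (e : G.edgeSet) (u v : Fin n), s(u, v) = e.1 →
                  z e = ∑ k : Fin d, (p u k - p v k) ^ 2) →
              MvPolynomial.eval z f = 0) →
            MvPolynomial.eval (fun e => x (σ e)) f = 0)) →
      Nonempty (G ≃g H)) := by
  intro hall
  have h := hall 3 (le_refl 3) 15 (Pool.Agent.Lib.MP_1b5659_co.mkG Pool.Agent.Lib.MP_1b5659_co.piG)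
    (Pool.Agent.Lib.MP_1b5659_co.mkG Pool.Agent.Lib.MP_1b5659_co.piH)
    ⟨by norm_num, Pool.Agent.Lib.MP_1b5659_co.three_connected⟩ ?_
    Pool.Agent.Lib.MP_1b5659_co.sig Pool.Agent.Lib.MP_1b5659_co.meas_eq
  · exact Pool.Agent.Lib.MP_1b5659_co.not_iso h
  · intro e _
    refine ⟨Pool.Agent.Lib.MP_1b5659_co.pR, fun q => ?_⟩
    have h1 := Pool.Agent.Lib.MP_1b5659_co.rank_le
      (fun a : Fin 15 × Fin 15 => a.1 ≠ a.2) q
    have h2 := Pool.Agent.Lib.MP_1b5659_co.rank_ge e
      (fun a : Fin 15 × Fin 15 =>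
        (Pool.Agent.Lib.MP_1b5659_co.mkG Pool.Agent.Lib.MP_1b5659_co.piG).Adj a.1 a.2 ∧
          s(a.1, a.2) ≠ e) (fun a => Iff.rfl)
    unfold Pool.Agent.Lib.MP_1b5659_co.RM at h1 h2
    refine le_trans ?_ (le_trans (le_trans h1 h2) ?_)
    · apply le_of_eq
      congr!
    · apply le_of_eq
      congr!

end Pool.Agent.S07444
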