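import Pool.Statements.S07471
import Pool.Agent.Lib.MP_1c7511_co.Final

set_option autoImplicit false
open Pool Pool.MP_1c7511_co

namespace Pool.Agent.S07471

/-- Every finite set of points in the complex projective plane either lies on some (possibly degenerate) conic, or there is a conic through exactly 5 of its points such that every conic through those 5 points equals it. -/
theorem result :
    ∀ P : Finset (Projectivization ℂ (Fin 3 → ℂ)),
      (∃ f : MvPolynomial (Fin 3) ℂ, f.IsHomogeneous 2 ∧ f ≠ 0 ∧
          ∀ p ∈ P, MvPolynomial.eval p.rep f = 0) ∨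
      (∃ f : MvPolynomial (Fin 3) ℂ, f.IsHomogeneous 2 ∧ f ≠ 0 ∧
          {p | p ∈ P ∧ MvPolynomial.eval p.rep f = 0}.ncard = 5 ∧
          ∀ g : MvPolynomial (Fin 3) ℂ, g.IsHomogeneous 2 →
            (∀ p ∈ P, MvPolynomial.eval p.rep f = 0 → MvPolynomial.eval p.rep g = 0) →
            ∃ c : ℂ, g = MvPolynomial.C c * f) := by
  exact Pool.Agent.Lib.MP_1c7511_co.main

end Pool.Agent.S07471
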