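import Pool.Statements.S08682
import Mathlib

set_option autoImplicit false
open Pool Pool.MP_4e5a55_co

namespace Pool.Agent.S08682

/-- mask of the radius one ball -/
def ballMask (c : Nat) : Nat :=
  2 ^ c ||| 2 ^ (c ^^^ 1) ||| 2 ^ (c ^^^ 2) ||| 2 ^ (c ^^^ 4) ||| 2 ^ (c ^^^ 8) ||| 2 ^ (c ^^^ 16)

/-- `search k U`: can the uncovered mask `U` be covered by `k` balls (branching on the top bit). -/
def search : Nat → Nat → Bool
  | 0, U => U == 0
  | k + 1, U =>
    if U == 0 then true else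
      let w := Nat.log2 U
      search k (U ^^^ (U &&& ballMask w)) ||
      search k (U ^^^ (U &&& ballMask (w ^^^ 1))) ||
      search k (U ^^^ (U &&& ballMask (w ^^^ 2))) ||
      search k (U ^^^ (U &&& ballMask (w ^^^ 4))) ||
      search k (U ^^^ (U &&& ballMask (w ^^^ 8))) ||
      search k (U ^^^ (U &&& ballMask (w ^^^ 16)))

/-- binary value of a word -/
def enc (w : Fin 5 → Bool) : Nat :=
  (w 0).toNat + 2 * (w 1).toNat + 4 * (w 2).toNat + 8 * (w 3).toNat + 16 * (w 4).toNat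

theorem enc_lt (w : Fin 5 → Bool) : enc w < 32 := by
  revert w; decide

theorem enc_surj : ∀ i < 32, ∃ w : Fin 5 → Bool, enc w = i := by
  decide

theorem enc_ball : ∀ w c : Fin 5 → Bool, hammingDist w c ≤ 1 →
    (enc c = enc w ∨ enc c = enc w ^^^ 1 ∨ enc c = enc w ^^^ 2 ∨ enc c = enc w ^^^ 4 ∨
      enc c = enc w ^^^ 8 ∨ enc c = enc w ^^^ 16) ∧ (ballMask (enc c)).testBit (enc w) = true := by
  decide +kernel

theorem search_sound : ∀ (k U : Nat) (C : Finset (Fin 5 → Bool)), C.card ≤ k →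
    (∀ i, U.testBit i = true → i < 32) →
    (∀ w : Fin 5 → Bool, U.testBit (enc w) = true → ∃ c ∈ C, hammingDist w c ≤ 1) →
    search k U = true := by
  intro k
  induction k with
  | zero =>
    intro U C hC hU hcov
    have hC' : C = ∅ := by
      rw [← Finset.card_eq_zero]; omega
    subst hC'
    have : U = 0 := by
      apply Nat.eq_of_testBit_eq
      intro i
      rw [Nat.zero_testBit]
      by_contra h
      have h1 : U.testBit i = true := by
        cases hh : U.testBit i <;> simp_all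
      obtain ⟨w, hw⟩ := enc_surj i (hU i h1)
      subst hw
      obtain ⟨c, hc, _⟩ := hcov w h1
      simp at hc
    simp [search, this]
  | succ k ih =>
    intro U C hC hU hcov
    by_cases hU0 : U = 0
    · simp [search, hU0]
    · have hb : U.testBit (Nat.log2 U) = true := by
        exact Nat.testBit_log2 hU0
      obtain ⟨w, hw⟩ := enc_surj _ (hU _ hb)
      rw [← hw] at hb
      obtain ⟨c, hc, hd⟩ := hcov w hb
      obtain ⟨h1, -⟩ := enc_ball w c hd
      have key : search k (U ^^^ (U &&& ballMask (enc c))) = true := by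
        apply ih _ (C.erase c)
        · rw [Finset.card_erase_of_mem hc]; omega
        · intro i hi
          rw [Nat.testBit_xor, Nat.testBit_and] at hi
          apply hU
          cases hh : U.testBit i <;> simp_all
        · intro w' hw'
          rw [Nat.testBit_xor, Nat.testBit_and] at hw'
          have h2 : U.testBit (enc w') = true := by
            cases hh : U.testBit (enc w') <;> simp_all
          have h3 : (ballMask (enc c)).testBit (enc w') = false := by
            cases hh : (ballMask (enc c)).testBit (enc w') <;> simp_all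
          obtain ⟨c', hc', hd'⟩ := hcov w' h2
          refine ⟨c', ?_, hd'⟩
          rw [Finset.mem_erase]
          refine ⟨?_, hc'⟩
          rintro rfl
          have := (enc_ball w' c' hd').2
          rw [this] at h3
          exact absurd h3 (by simp)
      have hU0' : (U == 0) = false := by simpa using hU0
      simp only [search, hU0', Bool.false_eq_true, if_false, ← hw]
      rcases h1 with h | h | h | h | h | h <;> rw [h] at key <;> simp [key]

theorem search_eq : search 6 (2 ^ 32 - 1) = false := by decide +kernel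

theorem no_code (C : Finset (Fin 5 → Bool)) (hC : C.card ≤ 6)
    (hcov : ∀ w : Fin 5 → Bool, ∃ c ∈ C, hammingDist w c ≤ 1) : False := by
  have := search_sound 6 (2 ^ 32 - 1) C hC (by
    intro i hi
    rw [Nat.testBit_two_pow_sub_one] at hi
    simpa using hi) (fun w _ => hcov w)
  rw [search_eq] at this
  exact absurd this (by simp)


/-! Six lines whose sign patterns run through six antipodal geodesics of the 5-cube graph. -/

/-- signs of the direction vectors -/
def sg : Fin 6 → Fin 5 → Int :=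
  ![![-1, 1, 1, 1, -1], ![1, -1, -1, 1, -1], ![1, -1, 1, -1, -1], ![-1, -1, -1, 1, 1],
    ![1, 1, 1, 1, 1], ![-1, 1, -1, 1, -1]]

/-- the time slot in which each coordinate crosses `[0,1]` -/
def kk : Fin 6 → Fin 5 → Int :=
  ![![0, 1, 3, 4, 2], ![0, 3, 1, 4, 2], ![4, 1, 0, 2, 3], ![4, 3, 0, 1, 2],
    ![2, 3, 0, 1, 4], ![1, 4, 3, 0, 2]]

/-- base points -/
noncomputable def bp (i : Fin 6) : Fin 5 → ℝ := fun j => 1 / 2 - (sg i j : ℝ) * (2 * (kk i j : ℝ) + 1)

/-- directions -/
noncomputable def dir (i : Fin 6) : Fin 5 → ℝ := fun j => 2 * (sg i j : ℝ)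

/-- the six lines -/
noncomputable def lin (i : Fin 6) : AffineSubspace ℝ (Fin 5 → ℝ) :=
  AffineSubspace.mk' (bp i) (Submodule.span ℝ {dir i})

theorem mem_lin (i : Fin 6) (y : Fin 5 → ℝ) :
    y ∈ lin i ↔ ∃ t : ℝ, ∀ j, y j = 1 / 2 + (sg i j : ℝ) * (2 * t - 2 * (kk i j : ℝ) - 1) := by
  unfold lin
  rw [AffineSubspace.mem_mk', Submodule.mem_span_singleton]
  constructor
  · rintro ⟨t, ht⟩
    refine ⟨t, fun j => ?_⟩
    have h := congrFun ht j
    simp only [Pi.smul_apply, smul_eq_mul, dir, bp, vsub_eq_sub, Pi.sub_apply] at h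
    linarith
  · rintro ⟨t, ht⟩
    refine ⟨t, ?_⟩
    funext j
    simp only [Pi.smul_apply, smul_eq_mul, dir, bp, vsub_eq_sub, Pi.sub_apply, ht j]
    ring

theorem cover : ∀ w : Fin 5 → Bool, ∃ i : Fin 6, ∃ t : Fin 6, ∀ j : Fin 5,
    (w j = true → 1 ≤ sg i j * (2 * (t.val : Int) - 2 * kk i j - 1)) ∧
    (w j = false → sg i j * (2 * (t.val : Int) - 2 * kk i j - 1) ≤ -1) ∧
    sg i j * (2 * (t.val : Int) - 2 * kk i j - 1) ≤ 9 ∧
    -9 ≤ sg i j * (2 * (t.val : Int) - 2 * kk i j - 1) := by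
  decide +kernel

theorem dir_ne (i : Fin 6) : dir i ≠ 0 := by
  intro h
  have h0 := congrFun h 0
  fin_cases i <;> simp [dir, sg] at h0

theorem miss (i : Fin 6) (y : Fin 5 → ℝ) (hy : y ∈ lin i) : ¬ (∀ j, 0 ≤ y j ∧ y j ≤ 1) := by
  intro h
  rw [mem_lin] at hy
  obtain ⟨t, ht⟩ := hy
  have h0 := h 0
  have h1 := h 1
  have h2 := h 2
  have h3 := h 3
  have h4 := h 4
  rw [ht 0] at h0
  rw [ht 1] at h1
  rw [ht 2] at h2
  rw [ht 3] at h3
  rw [ht 4] at h4
  fin_cases i <;> simp [sg, kk] at h0 h1 h2 h3 h4 <;> linarith [h0.1, h0.2, h1.1, h1.2, h2.1, h2.2, h3.1, h3.2, h4.1, h4.2]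

theorem illum (x : Fin 5 → ℝ) (hx : ∀ j, 0 ≤ x j ∧ x j ≤ 1) :
    ∃ i, ∃ y ∈ lin i, ∃ t : ℝ, 0 < t ∧
      ∀ j, 0 < (x + t • (x - y)) j ∧ (x + t • (x - y)) j < 1 := by
  classical
  obtain ⟨i, t, ht⟩ := cover (fun j => decide (1 / 2 ≤ x j))
  refine ⟨i, fun j => 1 / 2 + (sg i j : ℝ) * (2 * ((t.val : ℝ)) - 2 * (kk i j : ℝ) - 1),
    (mem_lin i _).2 ⟨(t.val : ℝ), fun j => rfl⟩, 1 / 40, by norm_num, fun j => ?_⟩
  obtain ⟨h1, h2, h3, h4⟩ := ht j
  obtain ⟨hx0, hx1⟩ := hx j
  have e : ((sg i j * (2 * (t.val : Int) - 2 * kk i j - 1) : Int) : ℝ) =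
      (sg i j : ℝ) * (2 * ((t.val : ℝ)) - 2 * (kk i j : ℝ) - 1) := by push_cast; ring
  have h3' : ((sg i j * (2 * (t.val : Int) - 2 * kk i j - 1) : Int) : ℝ) ≤ ((9 : Int) : ℝ) :=
    Int.cast_le.2 h3
  have h4' : ((-9 : Int) : ℝ) ≤ ((sg i j * (2 * (t.val : Int) - 2 * kk i j - 1) : Int) : ℝ) :=
    Int.cast_le.2 h4
  rw [e] at h3' h4'
  simp only [Pi.add_apply, Pi.smul_apply, Pi.sub_apply, smul_eq_mul]
  push_cast at h3' h4'
  by_cases hc : 1 / 2 ≤ x j
  · have h1' : ((1 : Int) : ℝ) ≤ ((sg i j * (2 * (t.val : Int) - 2 * kk i j - 1) : Int) : ℝ) :=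
      Int.cast_le.2 (h1 (by simpa using hc))
    rw [e] at h1'
    push_cast at h1'
    constructor <;> linarith
  · have hc' := not_le.1 hc
    have h2' : ((sg i j * (2 * (t.val : Int) - 2 * kk i j - 1) : Int) : ℝ) ≤ ((-1 : Int) : ℝ) :=
      Int.cast_le.2 (h2 (by simpa using hc'))
    rw [e] at h2'
    push_cast at h2'
    constructor <;> linarith

/-- The negation of the preceding statement: For all d and l<d: the least number of l-dimensional affine subspaces missing the unit d-cube that illuminate all its boundary points equals the least size of a binary length-d code in which every word is within Hamming distance l of a codeword. -/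
theorem result :
    ¬ (∀ d l : ℕ, l < d →
      sInf {n : ℕ | ∃ L : Fin n → AffineSubspace ℝ (Fin d → ℝ),
          (∀ i, Module.finrank ℝ (L i).direction = l ∧
              ∀ y ∈ L i, ¬ (∀ j, 0 ≤ y j ∧ y j ≤ 1)) ∧
          ∀ x : Fin d → ℝ, (∀ j, 0 ≤ x j ∧ x j ≤ 1) → ¬ (∀ j, 0 < x j ∧ x j < 1) →
            ∃ i, ∃ y ∈ L i, ∃ t : ℝ, 0 < t ∧
              ∀ j, 0 < (x + t • (x - y)) j ∧ (x + t • (x - y)) j < 1}
        =
      sInf {n : ℕ | ∃ C : Finset (Fin d → Bool), C.card = n ∧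
          ∀ w : Fin d → Bool, ∃ c ∈ C, hammingDist w c ≤ l}) := by
  intro H
  have h := H 5 1 (by norm_num)
  have h6 : sInf {n : ℕ | ∃ L : Fin n → AffineSubspace ℝ (Fin 5 → ℝ),
          (∀ i, Module.finrank ℝ (L i).direction = 1 ∧
              ∀ y ∈ L i, ¬ (∀ j, 0 ≤ y j ∧ y j ≤ 1)) ∧
          ∀ x : Fin 5 → ℝ, (∀ j, 0 ≤ x j ∧ x j ≤ 1) → ¬ (∀ j, 0 < x j ∧ x j < 1) →
            ∃ i, ∃ y ∈ L i, ∃ t : ℝ, 0 < t ∧
              ∀ j, 0 < (x + t • (x - y)) j ∧ (x + t • (x - y)) j < 1} ≤ 6 := by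
    apply Nat.sInf_le
    refine ⟨lin, fun i => ⟨?_, fun y hy => miss i y hy⟩, fun x hx _ => illum x hx⟩
    unfold lin
    rw [AffineSubspace.direction_mk']
    exact finrank_span_singleton (dir_ne i)
  have hne : {n : ℕ | ∃ C : Finset (Fin 5 → Bool), C.card = n ∧
          ∀ w : Fin 5 → Bool, ∃ c ∈ C, hammingDist w c ≤ 1}.Nonempty :=
    ⟨_, Finset.univ, rfl, fun w => ⟨w, Finset.mem_univ w, by simp⟩⟩
  have hmem := Nat.sInf_mem hne
  rw [← h] at hmem
  obtain ⟨C, hC, hcov⟩ := hmem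
  exact no_code C (by rw [hC]; exact h6) hcov

end Pool.Agent.S08682
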