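import Pool.Statements.S08686

set_option autoImplicit false
open Pool Pool.MP_4e7ec3_co

namespace Pool.Agent.S08686

/-- The eight point set. -/
noncomputable def F8 : Finset ℝ :=
  {0, 1/10, 2/10, 3/10, 7/10, 8/10, 9/10, 1}

/-- The displacing map. -/
noncomputable def T8 (x : ℝ) : ℝ :=
  if x < 15/100 then 2/10 else if x < 5/10 then 0 else if x < 85/100 then 1 else 8/10

theorem mem_F8 {x : ℝ} : x ∈ F8 ↔
    x = 0 ∨ x = 1/10 ∨ x = 2/10 ∨ x = 3/10 ∨ x = 7/10 ∨ x = 8/10 ∨ x = 9/10 ∨ x = 1 := by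
  unfold F8
  simp only [Finset.mem_insert, Finset.mem_singleton]

/-- Left block: one step keeps a point in `F8 ∩ [0, 3/10]`. -/
theorem step_left {p q : ℝ} (hp : p ∈ F8) (hp3 : p ≤ 3/10)
    (h : q = T8 p ∨ (q ∈ F8 ∧ q < T8 p ∧ ∀ r ∈ F8, r < T8 p → r ≤ q) ∨
      (q ∈ F8 ∧ T8 p < q ∧ ∀ r ∈ F8, T8 p < r → q ≤ r)) :
    q ∈ F8 ∧ q ≤ 3/10 := by
  have h3 : (3/10 : ℝ) ∈ F8 := by rw [mem_F8]; norm_num
  have hT : T8 p = 2/10 ∨ T8 p = 0 := by
    unfold T8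
    split_ifs with h1 h2 h3
    · left; rfl
    · right; rfl
    · exfalso; linarith
    · exfalso; linarith
  have hTm : T8 p ∈ F8 ∧ T8 p < 3/10 := by
    rcases hT with hT | hT <;> rw [hT, mem_F8] <;> norm_num
  rcases h with h | ⟨hq, hlt, _⟩ | ⟨hq, _, hr⟩
  · rw [h]; exact ⟨hTm.1, hTm.2.le⟩
  · exact ⟨hq, by linarith [hTm.2]⟩
  · exact ⟨hq, hr _ h3 hTm.2⟩

/-- Right block: one step keeps a point in `F8 ∩ [7/10, 1]`. -/
theorem step_right {p q : ℝ} (hp : p ∈ F8) (hp3 : 7/10 ≤ p)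
    (h : q = T8 p ∨ (q ∈ F8 ∧ q < T8 p ∧ ∀ r ∈ F8, r < T8 p → r ≤ q) ∨
      (q ∈ F8 ∧ T8 p < q ∧ ∀ r ∈ F8, T8 p < r → q ≤ r)) :
    q ∈ F8 ∧ 7/10 ≤ q := by
  have h3 : (7/10 : ℝ) ∈ F8 := by rw [mem_F8]; norm_num
  have hT : T8 p = 8/10 ∨ T8 p = 1 := by
    unfold T8
    split_ifs with h1 h2 h3
    · exfalso; linarith
    · exfalso; linarith
    · right; rfl
    · left; rfl
  have hTm : T8 p ∈ F8 ∧ 7/10 < T8 p := by
    rcases hT with hT | hT <;> rw [hT, mem_F8] <;> norm_num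
  rcases h with h | ⟨hq, _, hr⟩ | ⟨hq, hlt, _⟩
  · rw [h]; exact ⟨hTm.1, hTm.2.le⟩
  · exact ⟨hq, hr _ h3 hTm.2⟩
  · exact ⟨hq, by linarith [hTm.2]⟩

/-- The negation of the preceding statement: There is a constant k such that for every finite F in [0,1] containing 0 and 1, every ε>0, and every T:F→F moving each point by more than ε, some p₀ in F reaches a point at distance at least 1/3 in at most k/ε steps, each step going to T(p) or a neighbour of T(p) in F. -/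
theorem result :
    ¬ (∃ k : ℝ, ∀ (F : Finset ℝ) (ε : ℝ) (T : ℝ → ℝ),
      (∀ p ∈ F, 0 ≤ p ∧ p ≤ 1) → (0 : ℝ) ∈ F → (1 : ℝ) ∈ F → 0 < ε →
      (∀ p ∈ F, T p ∈ F ∧ ε < |p - T p|) →
      ∃ p₀ ∈ F, ∃ n : ℕ, (n : ℝ) ≤ k / ε ∧
        ∃ x : ℕ → ℝ, x 0 = p₀ ∧
          (∀ i < n,
            x (i + 1) = T (x i) ∨
            (x (i + 1) ∈ F ∧ x (i + 1) < T (x i) ∧
              ∀ r ∈ F, r < T (x i) → r ≤ x (i + 1)) ∨
            (x (i + 1) ∈ F ∧ T (x i) < x (i + 1) ∧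
              ∀ r ∈ F, T (x i) < r → x (i + 1) ≤ r)) ∧
          1 / 3 ≤ |x n - p₀|) := by
  rintro ⟨k, hk⟩
  have h01 : ∀ p ∈ F8, 0 ≤ p ∧ p ≤ 1 := by
    intro p hp
    rw [mem_F8] at hp
    rcases hp with rfl | rfl | rfl | rfl | rfl | rfl | rfl | rfl <;> norm_num
  have h0 : (0 : ℝ) ∈ F8 := by rw [mem_F8]; norm_num
  have h1 : (1 : ℝ) ∈ F8 := by rw [mem_F8]; norm_num
  have hT : ∀ p ∈ F8, T8 p ∈ F8 ∧ (1/20 : ℝ) < |p - T8 p| := by
    intro p hp
    rw [mem_F8] at hp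
    rcases hp with rfl | rfl | rfl | rfl | rfl | rfl | rfl | rfl <;>
      (unfold T8; norm_num [mem_F8, abs_of_pos, abs_of_neg])
  obtain ⟨p₀, hp₀, n, -, x, hx0, hstep, hfar⟩ :=
    hk F8 (1/20) T8 h01 h0 h1 (by norm_num) hT
  have hcase : p₀ ≤ 3/10 ∨ 7/10 ≤ p₀ := by
    rw [mem_F8] at hp₀
    rcases hp₀ with rfl | rfl | rfl | rfl | rfl | rfl | rfl | rfl <;> norm_num
  rcases hcase with hc | hc
  · have hinv : ∀ i ≤ n, x i ∈ F8 ∧ x i ≤ 3/10 := by
      intro i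
      induction i with
      | zero => intro _; rw [hx0]; exact ⟨hp₀, hc⟩
      | succ i ih =>
        intro hi
        have := ih (by omega)
        exact step_left this.1 this.2 (hstep i (by omega))
    have hn := hinv n le_rfl
    have a1 := h01 _ hn.1
    have a2 := h01 _ hp₀
    have : |x n - p₀| ≤ 3/10 := by
      rw [abs_le]; constructor <;> linarith [hn.2, a1.1, a1.2, a2.1, a2.2]
    linarith
  · have hinv : ∀ i ≤ n, x i ∈ F8 ∧ 7/10 ≤ x i := by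
      intro i
      induction i with
      | zero => intro _; rw [hx0]; exact ⟨hp₀, hc⟩
      | succ i ih =>
        intro hi
        have := ih (by omega)
        exact step_right this.1 this.2 (hstep i (by omega))
    have hn := hinv n le_rfl
    have a1 := h01 _ hn.1
    have a2 := h01 _ hp₀
    have : |x n - p₀| ≤ 3/10 := by
      rw [abs_le]; constructor <;> linarith [hn.2, a1.1, a1.2, a2.1, a2.2]
    linarith

end Pool.Agent.S08686
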