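import Pool.Statements.S09051
-- import your own Pool.Agent.* helpers here
import Pool.Agent.Lib.MP_5f0bce_co.Final

set_option autoImplicit false
open Pool Pool.MP_5f0bce_co

namespace Pool.Agent.S09051

/-- For each n ≥ 1 there is k such that every finite graph with no induced n-vertex path and no induced K_{n,n} has a tree decomposition all of whose bags have independence number at most k. -/
theorem result :
    ∀ n : ℕ, 0 < n → ∃ k : ℕ, ∀ (V : Type) [Fintype V] (G : SimpleGraph V),
      ¬ (SimpleGraph.pathGraph n).IsIndContained G →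
      ¬ (completeBipartiteGraph (Fin n) (Fin n)).IsIndContained G →
      ∃ (m : ℕ) (T : SimpleGraph (Fin m)) (B : Fin m → Finset V),
        T.IsTree ∧
        (∀ v : V, ∃ t : Fin m, v ∈ B t) ∧
        (∀ u v : V, G.Adj u v → ∃ t : Fin m, u ∈ B t ∧ v ∈ B t) ∧
        (∀ v : V, ∀ s t : Fin m, v ∈ B s → v ∈ B t →
          ∃ p : T.Walk s t, ∀ x ∈ p.support, v ∈ B x) ∧
        (∀ t : Fin m, ∀ S : Finset V, S ⊆ B t → G.IsIndepSet (S : Set V) → S.card ≤ k) := by
  intro n hn
  rcases Nat.lt_or_ge n 2 with h2 | h2
  · -- `n = 1`: the vertex set is empty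
    have h1 : n = 1 := by omega
    subst h1
    refine ⟨0, ?_⟩
    intro V _ G hP _
    have hV : IsEmpty V := by
      rw [isEmpty_iff]
      intro v
      have := Pool.Agent.MP5f0bce.indP_length_lt hP (l := [v]) trivial
      simp at this
    refine ⟨1, ⊥, fun _ => ∅, SimpleGraph.IsTree.of_subsingleton, fun v => (hV.false v).elim,
      fun v => (hV.false v).elim, fun v => (hV.false v).elim, ?_⟩
    intro t S hS _
    rw [Finset.subset_empty] at hS
    simp [hS]
  · obtain ⟨K, hK⟩ := Pool.Agent.MP5f0bce.main_bound n h2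
    exact ⟨K, fun V _ G hP hKG => (hK V G hP hKG).toFin⟩

end Pool.Agent.S09051
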