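import Pool.Statements.S09135
import Pool.Agent.Lib.MP_61e017_co.Converse

set_option autoImplicit false
open SimpleGraph
open Pool Pool.MP_61e017_co

namespace Pool.Agent.S09135

/-- For k≥3, n≥2, a finite graph has the same number of proper q-colorings as K_{1,n,n+k} for every q iff it is isomorphic to an edgeless n-set joined to a tree on n+k+1 vertices, or an edgeless (n+k)-set joined to a tree on n+1 vertices. -/
theorem result :
    ∀ n k : ℕ, 3 ≤ k → 2 ≤ n →
      ∀ (V : Type) [Fintype V] (G : SimpleGraph V),
        (∀ q : ℕ, Nat.card (G.Coloring (Fin q)) =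
            Nat.card ((completeMultipartiteGraph
              (fun i : Fin 3 => Fin ((![1, n, n + k] : Fin 3 → ℕ) i))).Coloring (Fin q))) ↔
        ((∃ T : SimpleGraph (Fin (n + k + 1)), T.IsTree ∧
            Nonempty (G ≃g SimpleGraph.fromRel
              (fun a b : Fin n ⊕ Fin (n + k + 1) =>
                (∃ x y, a = Sum.inr x ∧ b = Sum.inr y ∧ T.Adj x y) ∨
                ∃ x y, a = Sum.inl x ∧ b = Sum.inr y))) ∨
         (∃ T : SimpleGraph (Fin (n + 1)), T.IsTree ∧
            Nonempty (G ≃g SimpleGraph.fromRel
              (fun a b : Fin (n + k) ⊕ Fin (n + 1) =>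
                (∃ x y, a = Sum.inr x ∧ b = Sum.inr y ∧ T.Adj x y) ∨
                ∃ x y, a = Sum.inl x ∧ b = Sum.inr y)))) := by
  intro n k hk hn V _ G
  exact Pool.Agent.Lib.MP_61e017_co.classification n (n + k) hn (by omega) G

end Pool.Agent.S09135
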