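import Pool.Statements.S10011
import Pool.Agent.Lib.MP_8bcb9d_co.H.H8
import Pool.Agent.Lib.MP_8bcb9d_co.PI.NIL
import Pool.Agent.Lib.MP_8bcb9d_co.W.Fin

set_option autoImplicit false
open Pool Pool.MP_8bcb9d_co

namespace Pool.Agent.S10011

/-- For every M there is N₀ such that any set of at least N₀ planar points with no three collinear has two distinct points x, y with at least M other points z such that the triangle xyz contains no further point of the set. -/
theorem result :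
    ∀ M : ℕ, ∃ N₀ : ℕ, ∀ X : Finset (EuclideanSpace ℝ (Fin 2)),
      N₀ ≤ X.card →
      (∀ a ∈ X, ∀ b ∈ X, ∀ c ∈ X, a ≠ b → a ≠ c → b ≠ c →
        ¬ Collinear ℝ ({a, b, c} : Set (EuclideanSpace ℝ (Fin 2)))) →
      ∃ x ∈ X, ∃ y ∈ X, x ≠ y ∧
        M ≤ {z : EuclideanSpace ℝ (Fin 2) | z ∈ X ∧ z ≠ x ∧ z ≠ y ∧
              ∀ w ∈ X, w ∈ convexHull ℝ ({x, y, z} : Set (EuclideanSpace ℝ (Fin 2))) →
                w = x ∨ w = y ∨ w = z}.ncard := by
  exact Pool.Agent.Lib.MP_8bcb9d_co.H.final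
    (fun _ _ h => Pool.Agent.Lib.MP_8bcb9d_co.pos_finite h)
    (fun w X hX hK => w.fin X hX hK)

end Pool.Agent.S10011
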