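import Pool.Statements.S10183
import Pool.Agent.Lib.MP_9393b1_co.Comb
import Pool.Agent.Lib.MP_9393b1_co.Final
import Pool.Agent.Lib.MP_9393b1_co.FC

set_option autoImplicit false
open Pool Pool.MP_9393b1_co

namespace Pool.Agent.S10183

/-- For every n, every complex root of the polynomial summing x^(Durfee square size) over all partitions of n is real, i.e. every Durfee polynomial D_n is real-rooted. -/
theorem result :
    ∀ n : ℕ, ∀ z : ℂ,
      Polynomial.aeval z
        (∑ μ ∈ (Finset.univ : Finset (Nat.Partition n)),
          (Polynomial.X : Polynomial ℝ) ^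
            ((Finset.Icc 1 n).filter
              (fun k => k ≤ Multiset.card (μ.parts.filter (fun p => k ≤ p)))).card) = 0 →
      z.im = 0 := by
  intro n z hz
  rw [Pool.Agent.Lib.Durfee.partition_sum_eq] at hz
  rcases Nat.eq_zero_or_pos n with h0 | h0
  · subst h0
    exfalso
    revert hz
    simp [Pool.Agent.Lib.Durfee.Dpoly, Pool.Agent.Lib.Durfee.dco, Pool.Agent.Lib.Durfee.pk]
  · rcases Nat.lt_or_ge n (10 ^ 4) with h | h
    · exact Pool.Agent.Lib.Durfee.Dpoly_realrooted_small h0 h z hz
    · exact Pool.Agent.Lib.Durfee.Dpoly_realrooted_large h z hz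

end Pool.Agent.S10183
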