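import Pool.Statements.S10526
import Pool.Agent.Lib.MP_a2fd8c_co.Main
import Pool.Agent.Lib.MP_a2fd8c_co.Final

set_option autoImplicit false
open SimpleGraph
open Pool Pool.MP_a2fd8c_co

namespace Pool.Agent.S10526

/-- The negation of the preceding statement: For every finite bipartite graph H with an edge and no isolated vertices there is f with: every n-vertex graph having no induced copy of H and no K_{t,t} subgraph has at most f(t)·ex(n,H) edges, for all t,n ≥ 1. -/
theorem result :
    ¬ (∀ (k : ℕ) (H : SimpleGraph (Fin k)),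
      H.Colorable 2 →
      H.edgeSet.Nonempty →
      (∀ v : Fin k, ∃ w : Fin k, H.Adj v w) →
      ∃ f : ℕ → ℝ, ∀ t : ℕ, 1 ≤ t → ∀ n : ℕ, 1 ≤ n →
        ∀ G : SimpleGraph (Fin n),
          IsEmpty (H ↪g G) →
          (completeBipartiteGraph (Fin t) (Fin t)).Free G →
          (G.edgeSet.ncard : ℝ) ≤ f t * (SimpleGraph.extremalNumber n H : ℝ)) := by
  obtain ⟨C, hC⟩ := Pool.Agent.Lib.MP_a2fd8c_co.potential_eq
  exact Pool.Agent.Lib.MP_a2fd8c_co.final 600 (by norm_num) C (1 / 250) (by norm_num) hC

end Pool.Agent.S10526
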