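import Mathlib
import Pool.Statements.S10882

/-!
A counterexample, on 11 vertices with 29 arcs, to Berge's directed path conjecture for
4-chromatic graphs.

The graph is uniquely 4-colourable with colour classes {0,5,8}, {3,7,9}, {2,6,10}, {1,4}, and in
the orientation below no directed path on four vertices meets the four classes.
-/

set_option autoImplicit false
open Pool Pool.MP_b245d9_co

namespace Pool.Agent.S10882

/-- The arcs of the oriented graph. -/
def arcList : List (Fin 11 × Fin 11) :=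
  [(0, 4), (1, 0), (1, 3), (1, 6), (2, 0), (2, 1), (2, 3), (2, 4), (2, 5), (2, 9), (5, 3), (5, 4),
   (5, 6), (5, 10), (6, 3), (7, 0), (7, 1), (7, 4), (7, 6), (7, 8), (7, 10), (8, 3), (8, 4),
   (8, 6), (8, 9), (9, 4), (9, 6), (10, 3), (10, 4)]

/-- The arc relation. -/
def Arc (u v : Fin 11) : Prop := (u, v) ∈ arcList

instance : DecidableRel Arc := fun u v => inferInstanceAs (Decidable ((u, v) ∈ arcList))

/-- The underlying graph. -/
def gr : SimpleGraph (Fin 11) where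
  Adj u v := Arc u v ∨ Arc v u
  symm := ⟨fun _ _ h => h.symm⟩
  loopless := ⟨by decide⟩

instance : DecidableRel gr.Adj := fun u v => inferInstanceAs (Decidable (Arc u v ∨ Arc v u))

/-- The standard 4-colouring. -/
def std : Fin 11 → Fin 4 := ![0, 3, 2, 1, 3, 0, 2, 1, 0, 1, 2]

theorem std_proper : ∀ u v, gr.Adj u v → std u ≠ std v := by decide

set_option synthInstance.maxSize 100000 in
/-- All 4-colourings have the standard colour classes. -/
theorem unique_aux : ∀ c0 : Fin 4, ∀ c1 : Fin 4, c0 ≠ c1 → ∀ c2 : Fin 4, c0 ≠ c2 → c1 ≠ c2 →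
    ∀ c3 : Fin 4, c1 ≠ c3 → c2 ≠ c3 → ∀ c4 : Fin 4, c0 ≠ c4 → c2 ≠ c4 →
    ∀ c5 : Fin 4, c2 ≠ c5 → c3 ≠ c5 → c4 ≠ c5 → ∀ c6 : Fin 4, c1 ≠ c6 → c3 ≠ c6 → c5 ≠ c6 →
    ∀ c7 : Fin 4, c0 ≠ c7 → c1 ≠ c7 → c4 ≠ c7 → c6 ≠ c7 →
    ∀ c8 : Fin 4, c3 ≠ c8 → c4 ≠ c8 → c6 ≠ c8 → c7 ≠ c8 →
    ∀ c9 : Fin 4, c2 ≠ c9 → c4 ≠ c9 → c6 ≠ c9 → c8 ≠ c9 →
    ∀ c10 : Fin 4, c3 ≠ c10 → c4 ≠ c10 → c5 ≠ c10 → c7 ≠ c10 →
    c0 = c5 ∧ c5 = c8 ∧ c3 = c7 ∧ c7 = c9 ∧ c2 = c6 ∧ c6 = c10 ∧ c1 = c4 ∧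
      c0 ≠ c3 ∧ c0 ≠ c4 ∧ c3 ≠ c4 := by
  decide +kernel

theorem unique (c : Fin 11 → Fin 4) (hc : ∀ u v, gr.Adj u v → c u ≠ c v) :
    (c 0 = c 5 ∧ c 5 = c 8 ∧ c 3 = c 7 ∧ c 7 = c 9 ∧ c 2 = c 6 ∧ c 6 = c 10 ∧ c 1 = c 4) ∧
      (c 0 ≠ c 1 ∧ c 0 ≠ c 2 ∧ c 0 ≠ c 3 ∧ c 1 ≠ c 2 ∧ c 1 ≠ c 3 ∧ c 2 ≠ c 3) := by
  have h := unique_aux (c 0) (c 1) (hc _ _ (by decide)) (c 2) (hc _ _ (by decide))
    (hc _ _ (by decide)) (c 3) (hc _ _ (by decide)) (hc _ _ (by decide)) (c 4)
    (hc _ _ (by decide)) (hc _ _ (by decide)) (c 5) (hc _ _ (by decide)) (hc _ _ (by decide))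
    (hc _ _ (by decide)) (c 6) (hc _ _ (by decide)) (hc _ _ (by decide)) (hc _ _ (by decide))
    (c 7) (hc _ _ (by decide)) (hc _ _ (by decide)) (hc _ _ (by decide)) (hc _ _ (by decide))
    (c 8) (hc _ _ (by decide)) (hc _ _ (by decide)) (hc _ _ (by decide)) (hc _ _ (by decide))
    (c 9) (hc _ _ (by decide)) (hc _ _ (by decide)) (hc _ _ (by decide)) (hc _ _ (by decide))
    (c 10) (hc _ _ (by decide)) (hc _ _ (by decide)) (hc _ _ (by decide)) (hc _ _ (by decide))
  obtain ⟨h1, h2, h3, h4, h5, h6, h7, h8, -, -⟩ := h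
  exact ⟨⟨h1, h2, h3, h4, h5, h6, h7⟩, hc _ _ (by decide), hc _ _ (by decide), h8,
    hc _ _ (by decide), hc _ _ (by decide), hc _ _ (by decide)⟩

theorem not_three : ¬ gr.Colorable 3 := by
  rintro ⟨C⟩
  -- view the 3-colouring as a 4-colouring
  have h := (unique (fun v => (C v).castSucc) (fun u v huv => by
    have := C.valid huv
    intro he
    exact this (Fin.castSucc_injective _ he))).2
  simp only [ne_eq, Fin.castSucc_inj] at h
  generalize C 0 = x0 at h
  generalize C 1 = x1 at h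
  generalize C 2 = x2 at h
  generalize C 3 = x3 at h
  revert x0 x1 x2 x3
  decide

theorem chrom : gr.chromaticNumber = 4 := by
  have h4 : gr.Colorable 4 := ⟨SimpleGraph.Coloring.mk std (fun {u v} h => std_proper u v h)⟩
  apply le_antisymm
  · exact_mod_cast h4.chromaticNumber_le
  · by_contra hlt
    push Not at hlt
    apply not_three
    have : gr.chromaticNumber ≤ 3 := by
      have h3 : (4 : ℕ∞) = 3 + 1 := by norm_num
      rw [h3] at hlt
      exact Order.le_of_lt_add_one hlt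
    exact SimpleGraph.chromaticNumber_le_iff_colorable.mp this

theorem no_rainbow : ∀ a b : Fin 11, Arc a b → ∀ c, Arc b c → ∀ d, Arc c d →
    std a = std c ∨ std b = std d ∨ std a = std d := by
  decide +kernel

/-- same colour in the standard colouring implies same colour in every colouring -/
theorem same (c : Fin 11 → Fin 4) (hc : ∀ u v, gr.Adj u v → c u ≠ c v) :
    ∀ u v, std u = std v → c u = c v := by
  obtain ⟨⟨h1, h2, h3, h4, h5, h6, h7⟩, -⟩ := unique c hc
  intro u v huv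
  fin_cases u <;> fin_cases v <;> simp [std] at huv <;> simp_all

/-- For every finite graph with chromatic number 4 and every orientation of it, there is a directed path on 4 vertices and a proper 4-colouring giving the path's vertices 4 distinct colours: refuted. -/
theorem result :
    ¬ (∀ (V : Type) [Fintype V] (G : SimpleGraph V),
      G.chromaticNumber = 4 →
      ∀ D : V → V → Prop,
        (∀ u v, D u v → G.Adj u v) →
        (∀ u v, G.Adj u v → (D u v ↔ ¬ D v u)) →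
        ∃ (p : Fin 4 → V) (c : G.Coloring (Fin 4)),
          (∀ i : Fin 3, D (p i.castSucc) (p i.succ)) ∧
          Function.Injective (fun i => c (p i))) := by
  intro h
  obtain ⟨p, c, hp, hinj⟩ := h (Fin 11) gr chrom Arc (fun u v h => Or.inl h) (by decide)
  have h0 : Arc (p 0) (p 1) := hp 0
  have h1 : Arc (p 1) (p 2) := hp 1
  have h2 : Arc (p 2) (p 3) := hp 2
  have hs := same (fun v => c v) (fun u v huv => c.valid huv)
  rcases no_rainbow _ _ h0 _ h1 _ h2 with h | h | h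
  · exact absurd (hinj (hs _ _ h)) (by decide)
  · exact absurd (hinj (hs _ _ h)) (by decide)
  · exact absurd (hinj (hs _ _ h)) (by decide)

end Pool.Agent.S10882
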