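import Pool.Statements.S11156
import Pool.Agent.Lib.MP_be97b2_co.Final

set_option autoImplicit false
open Pool Pool.MP_be97b2_co

namespace Pool.Agent.S11156

/-- The negation of the preceding statement: For n,r ≥ 2, every measurable r-coloring of the unit n-sphere has a measurable monochromatic subset invariant under some nonidentity orientation-preserving involutive isometry, of normalized measure at least 1/r^2. -/
theorem result :
    ¬ (∀ n r : ℕ, 1 < n → 1 < r →
    ∀ c : EuclideanSpace ℝ (Fin (n+1)) → Fin r, Measurable c →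
      ∃ (i : Fin r)
        (g : EuclideanSpace ℝ (Fin (n+1)) ≃ₗᵢ[ℝ] EuclideanSpace ℝ (Fin (n+1)))
        (A : Set (EuclideanSpace ℝ (Fin (n+1)))),
        g ≠ LinearIsometryEquiv.refl ℝ (EuclideanSpace ℝ (Fin (n+1))) ∧
        (∀ x, g (g x) = x) ∧
        LinearMap.det (g.toLinearEquiv : EuclideanSpace ℝ (Fin (n+1)) →ₗ[ℝ] EuclideanSpace ℝ (Fin (n+1))) = 1 ∧
        MeasurableSet A ∧
        A ⊆ Metric.sphere (0 : EuclideanSpace ℝ (Fin (n+1))) 1 ∧
        (∀ x ∈ A, c x = i) ∧
        g '' A = A ∧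
        ((r : ENNReal) ^ 2)⁻¹ ≤
          ((MeasureTheory.volume : MeasureTheory.Measure (EuclideanSpace ℝ (Fin (n+1)))).toSphere Set.univ)⁻¹ *
          (MeasureTheory.volume : MeasureTheory.Measure (EuclideanSpace ℝ (Fin (n+1)))).toSphere (Subtype.val ⁻¹' A)) := by
  intro h
  obtain ⟨c, hc, hc'⟩ := Pool.Agent.MP_be97b2_co.exists_bad_map
  obtain ⟨i, g, A, hg, hinv, hdet, hAm, hAs, hAc, hgA, hA⟩ :=
    h 2 2 (by norm_num) (by norm_num) c hc
  have h1 := hc' i g A hg hinv hdet hAc hgA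
  rw [Pool.Agent.MP_be97b2_co.sphP_apply hAm] at h1
  refine absurd hA (not_le.2 (lt_of_lt_of_eq h1 ?_))
  norm_num

end Pool.Agent.S11156
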