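import Pool.Statements.S11737
import Mathlib
import Pool.Agent.Lib.MP_d7e043_co.Main

set_option autoImplicit false
open Pool Pool.MP_d7e043_co

namespace Pool.Agent.S11737

/-- If a finite set X in R^d is Ramsey (every r-colouring of some R^N has a monochromatic congruent copy), then X, placed in the hyperplane of R^(d+1), together with any point z off that hyperplane is also Ramsey. -/
theorem result :
    ∀ (d : ℕ) (X : Set (EuclideanSpace ℝ (Fin d))) (z : EuclideanSpace ℝ (Fin (d + 1))),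
      X.Finite →
      (∀ r : ℕ, ∃ N : ℕ, ∀ c : EuclideanSpace ℝ (Fin N) → Fin r,
        ∃ g : X → EuclideanSpace ℝ (Fin N), Isometry g ∧ ∀ x y : X, c (g x) = c (g y)) →
      z (Fin.last d) ≠ 0 →
      ∀ r : ℕ, ∃ N : ℕ, ∀ c : EuclideanSpace ℝ (Fin N) → Fin r,
        ∃ g : ({y : EuclideanSpace ℝ (Fin (d + 1)) |
                  y (Fin.last d) = 0 ∧ ∃ x ∈ X, ∀ i : Fin d, y (Fin.castSucc i) = x i}
                ∪ {z} : Set (EuclideanSpace ℝ (Fin (d + 1)))) → EuclideanSpace ℝ (Fin N),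
          Isometry g ∧ ∀ x y, c (g x) = c (g y) := by
  intro d X z hfin hX hz r
  classical
  open Pool.Agent.Lib.MP_d7e043_co in
  have hfinX : Finite X := hfin
  have hRam : Lib.MP_d7e043_co.Ram (fun i j : X => ‖(i : EuclideanSpace ℝ (Fin d)) - j‖ ^ 2) := by
    intro k
    obtain ⟨N, hN⟩ := hX k
    refine Lib.MP_d7e043_co.compactness (N := N) fun c => ?_
    obtain ⟨g, hg, hc⟩ := hN c
    refine ⟨g, fun i j => ?_, hc⟩
    rw [← dist_eq_norm, hg.dist_eq, Subtype.dist_eq, dist_eq_norm]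
  -- the foot of `z`
  let p : EuclideanSpace ℝ (Fin d) := WithLp.toLp 2 (fun i => z (Fin.castSucc i))
  have hs : 0 < (z (Fin.last d)) ^ 2 := by positivity
  obtain ⟨κ, hκ, N, w, hw⟩ := Lib.MP_d7e043_co.main_step (fun i : X => (i : EuclideanSpace ℝ (Fin d)))
    hRam p hs r
  refine ⟨N, fun c => ?_⟩
  obtain ⟨g, hg, hc⟩ := hw (fun a => c (w a))
  -- index of a point
  have hidx : ∀ y : ({y : EuclideanSpace ℝ (Fin (d + 1)) |
                  y (Fin.last d) = 0 ∧ ∃ x ∈ X, ∀ i : Fin d, y (Fin.castSucc i) = x i}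
                ∪ {z} : Set (EuclideanSpace ℝ (Fin (d + 1)))), ∃ o : Option X,
      (o = none ∧ (y : EuclideanSpace ℝ (Fin (d + 1))) = z) ∨
      (∃ x : X, o = some x ∧ (y : EuclideanSpace ℝ (Fin (d + 1))) (Fin.last d) = 0 ∧
        ∀ i : Fin d, (y : EuclideanSpace ℝ (Fin (d + 1))) (Fin.castSucc i) =
          (x : EuclideanSpace ℝ (Fin d)) i) := by
    rintro ⟨y, hy | hy⟩
    · obtain ⟨h0, x, hx, hyx⟩ := hy
      exact ⟨some ⟨x, hx⟩, Or.inr ⟨⟨x, hx⟩, rfl, h0, hyx⟩⟩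
    · exact ⟨none, Or.inl ⟨rfl, hy⟩⟩
  choose o ho using hidx
  have hdist : ∀ u v, ‖w (g (o u)) - w (g (o v))‖ ^ 2 =
      ‖(u : EuclideanSpace ℝ (Fin (d + 1))) - v‖ ^ 2 := by
    intro u v
    rw [hg (o u) (o v), EuclideanSpace.real_norm_sq_eq, Fin.sum_univ_castSucc]
    rcases ho u with ⟨hou, hu⟩ | ⟨x, hou, hu0, hux⟩ <;>
      rcases ho v with ⟨hov, hv⟩ | ⟨x', hov, hv0, hvx⟩
    · rw [hou, hov, hu, hv]
      simp [Lib.MP_d7e043_co.extD]
    · rw [hou, hov, hu]
      change ‖(x' : EuclideanSpace ℝ (Fin d)) - p‖ ^ 2 + z (Fin.last d) ^ 2 = _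
      rw [EuclideanSpace.real_norm_sq_eq]
      congr 1
      · refine Finset.sum_congr rfl fun i _ => ?_
        rw [PiLp.sub_apply, PiLp.sub_apply, hvx i]
        change ((x' : EuclideanSpace ℝ (Fin d)) i - z (Fin.castSucc i)) ^ 2 = _
        ring
      · rw [PiLp.sub_apply, hv0, sub_zero]
    · rw [hou, hov, hv]
      change ‖(x : EuclideanSpace ℝ (Fin d)) - p‖ ^ 2 + z (Fin.last d) ^ 2 = _
      rw [EuclideanSpace.real_norm_sq_eq]
      congr 1
      · refine Finset.sum_congr rfl fun i _ => ?_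
        rw [PiLp.sub_apply, PiLp.sub_apply, hux i]
      · rw [PiLp.sub_apply, hu0]
        ring
    · rw [hou, hov]
      change ‖(x : EuclideanSpace ℝ (Fin d)) - x'‖ ^ 2 = _
      rw [EuclideanSpace.real_norm_sq_eq, PiLp.sub_apply, hu0, hv0]
      simp only [sub_self, ne_eq, OfNat.ofNat_ne_zero, not_false_eq_true, zero_pow, add_zero]
      refine Finset.sum_congr rfl fun i _ => ?_
      rw [PiLp.sub_apply, PiLp.sub_apply, hux i, hvx i]
  refine ⟨fun u => w (g (o u)), ?_, fun x y => hc _ _⟩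
  refine Isometry.of_dist_eq fun u v => ?_
  rw [dist_eq_norm, Subtype.dist_eq, dist_eq_norm]
  exact (sq_eq_sq₀ (norm_nonneg _) (norm_nonneg _)).1 (hdist u v)

end Pool.Agent.S11737
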