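-- Proof of frozen statement S12093 (MP_e5126b_co): strict inequality ms(G,r) > 1/r^2 for groups of odd order.
import Pool.Statements.S12093
-- import your own Pool.Agent.* helpers here

set_option autoImplicit false
open Pool Pool.MP_e5126b_co

namespace Pool.Agent.S12093

section aux

variable {G : Type} [Group G] [Fintype G]

/-- Squaring is injective in a finite group of odd order. -/
theorem sq_injective (hodd : Odd (Fintype.card G)) :
    Function.Injective (fun x : G => x ^ 2) := by
  have h : Nat.Coprime (Nat.card G) 2 := by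
    rw [Nat.card_eq_fintype_card]
    exact Nat.coprime_two_right.mpr hodd
  exact (powCoprime h).injective

theorem sq_bijective (hodd : Odd (Fintype.card G)) :
    Function.Bijective (fun x : G => x ^ 2) :=
  Finite.injective_iff_bijective.mp (sq_injective hodd)

/-- For all `x y` there is exactly one `g` with `g * x⁻¹ * g = y`. -/
theorem card_centers [DecidableEq G] (hodd : Odd (Fintype.card G)) (x y : G) :
    (Finset.univ.filter (fun g : G => g * x⁻¹ * g = y)).card = 1 := by
  rw [Finset.card_eq_one]
  obtain ⟨h, hh⟩ := (sq_bijective hodd).2 (y * x⁻¹)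
  simp only at hh
  refine ⟨h * x, ?_⟩
  ext g
  simp only [Finset.mem_filter, Finset.mem_univ, true_and, Finset.mem_singleton]
  constructor
  · intro hg
    have h1 : (g * x⁻¹) ^ 2 = h ^ 2 := by
      rw [hh, ← hg, pow_two]
      simp [mul_assoc]
    have h2 : g * x⁻¹ = h := sq_injective hodd h1
    rw [← h2]
    simp
  · intro hg
    subst hg
    have : h * h = y * x⁻¹ := by rw [← pow_two]; exact hh
    calc h * x * x⁻¹ * (h * x) = (h * h) * x := by simp [mul_assoc]
      _ = y := by rw [this]; simp

end aux

/-- For every finite group of odd order, every r > 1 and every r-coloring, some one-colored set A with A = gA⁻¹g for some g has more than ∣G∣/r² elements. -/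
theorem result :
    ∀ (G : Type) [Group G] [Fintype G], Odd (Fintype.card G) →
      ∀ r : ℕ, 1 < r → ∀ χ : G → Fin r,
        ∃ (A : Finset G) (g : G) (c : Fin r),
          (∀ a ∈ A, χ a = c) ∧
          (∀ x : G, x ∈ A ↔ g * x⁻¹ * g ∈ A) ∧
          (1 : ℝ) / ((r : ℝ) ^ 2) < (A.card : ℝ) / (Fintype.card G : ℝ) := by
  intro G _ _ hodd r hr χ
  classical
  set n := Fintype.card G with hn
  let S : G → Fin r → Finset G := fun g c =>
    Finset.univ.filter (fun x => χ x = c ∧ χ (g * x⁻¹ * g) = c)
  -- it suffices to find `g`, `c` with `n < |S g c| * r ^ 2`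
  suffices hmain : ∃ (g : G) (c : Fin r), n < (S g c).card * r ^ 2 by
    obtain ⟨g, c, hgc⟩ := hmain
    refine ⟨S g c, g, c, ?_, ?_, ?_⟩
    · intro a ha
      exact (Finset.mem_filter.mp ha).2.1
    · intro x
      have hinv : g * (g * x⁻¹ * g)⁻¹ * g = x := by
        simp [mul_assoc]
      simp only [S, Finset.mem_filter, Finset.mem_univ, true_and, hinv]
      exact and_comm
    · have hnpos : (0 : ℝ) < (n : ℝ) := by
        have : 0 < n := Fintype.card_pos
        exact_mod_cast this
      have hrpos : (0 : ℝ) < (r : ℝ) ^ 2 := by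
        have : (0 : ℝ) < (r : ℝ) := by exact_mod_cast (lt_trans Nat.zero_lt_one hr)
        positivity
      rw [div_lt_div_iff₀ hrpos hnpos]
      have : (n : ℝ) < ((S g c).card : ℝ) * (r : ℝ) ^ 2 := by exact_mod_cast hgc
      linarith
  by_contra hcon
  push Not at hcon
  -- color classes
  let a : Fin r → ℕ := fun c => (Finset.univ.filter (fun x => χ x = c)).card
  have hsum_a : ∑ c, a c = n := by
    have := Finset.card_eq_sum_card_fiberwise (s := (Finset.univ : Finset G))
      (t := (Finset.univ : Finset (Fin r))) (f := χ) (fun x _ => Finset.mem_univ _)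
    rw [Finset.card_univ] at this
    exact this.symm
  -- double counting
  have hdouble : ∀ c, ∑ g, (S g c).card = a c ^ 2 := by
    intro c
    have h1 : ∀ g, (S g c).card
        = ∑ x, ∑ y, if (χ x = c ∧ χ y = c ∧ g * x⁻¹ * g = y) then 1 else 0 := by
      intro g
      rw [Finset.card_filter]
      refine Finset.sum_congr rfl (fun x _ => ?_)
      rw [Finset.sum_eq_single (g * x⁻¹ * g)]
      · simp
      · intro y _ hy
        rw [if_neg]
        rintro ⟨_, _, h3⟩
        exact hy h3.symm
      · intro h
        exact absurd (Finset.mem_univ _) h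
    simp_rw [h1]
    rw [Finset.sum_comm]
    have h2 : ∀ x, ∑ g, ∑ y, (if (χ x = c ∧ χ y = c ∧ g * x⁻¹ * g = y) then 1 else 0)
        = if χ x = c then a c else 0 := by
      intro x
      rw [Finset.sum_comm]
      have h3 : ∀ y, ∑ g, (if (χ x = c ∧ χ y = c ∧ g * x⁻¹ * g = y) then 1 else 0)
          = if (χ x = c ∧ χ y = c) then 1 else 0 := by
        intro y
        by_cases hxy : χ x = c ∧ χ y = c
        · rw [if_pos hxy]
          have h4 := card_centers hodd x y
          rw [Finset.card_filter] at h4
          refine Eq.trans ?_ h4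
          refine Finset.sum_congr rfl (fun g _ => ?_)
          simp [hxy.1, hxy.2]
        · rw [if_neg hxy]
          refine Finset.sum_eq_zero (fun g _ => ?_)
          rw [if_neg]
          rintro ⟨h5, h6, _⟩
          exact hxy ⟨h5, h6⟩
      simp_rw [h3]
      by_cases hx : χ x = c
      · rw [if_pos hx]
        simp only [hx, true_and]
        rw [← Finset.card_filter]
      · rw [if_neg hx]
        simp [hx]
    have h5 : ∀ x, ∑ g, ∑ y, (if (χ x = c ∧ χ y = c ∧ g * x⁻¹ * g = y) then 1 else 0)
        = if χ x = c then a c else 0 := h2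
    calc ∑ x, ∑ g, ∑ y, (if (χ x = c ∧ χ y = c ∧ g * x⁻¹ * g = y) then 1 else 0)
        = ∑ x, (if χ x = c then a c else 0) := Finset.sum_congr rfl (fun x _ => h5 x)
      _ = a c ^ 2 := by
        rw [← Finset.sum_filter, Finset.sum_const, smul_eq_mul, pow_two]
  -- total count
  have hrpos : 0 < r := lt_trans Nat.zero_lt_one hr
  have hupper : ∑ c, ∑ g, (S g c).card * r ^ 2 ≤ r * (n * n) := by
    calc ∑ c, ∑ g, (S g c).card * r ^ 2 ≤ ∑ _c : Fin r, ∑ _g : G, n :=
          Finset.sum_le_sum (fun c _ => Finset.sum_le_sum (fun g _ => hcon g c))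
      _ = r * (n * n) := by simp [hn]
  have hCS : n ^ 2 ≤ r * ∑ c, a c ^ 2 := by
    have := sq_sum_le_card_mul_sum_sq (s := (Finset.univ : Finset (Fin r))) (f := a)
    rw [hsum_a, Finset.card_univ, Fintype.card_fin] at this
    exact this
  have hlower : r * (n * n) ≤ ∑ c, ∑ g, (S g c).card * r ^ 2 := by
    have h1 : ∑ c, ∑ g, (S g c).card * r ^ 2 = (∑ c, a c ^ 2) * r ^ 2 := by
      rw [Finset.sum_mul]
      refine Finset.sum_congr rfl (fun c _ => ?_)
      rw [← Finset.sum_mul, hdouble c]
    rw [h1]
    calc r * (n * n) = r * n ^ 2 := by ring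
      _ ≤ r * (r * ∑ c, a c ^ 2) := Nat.mul_le_mul_left _ hCS
      _ = (∑ c, a c ^ 2) * r ^ 2 := by ring
  -- equality holds everywhere
  have heq : ∀ c g, (S g c).card * r ^ 2 = n := by
    have htot : ∑ p : Fin r × G, (S p.2 p.1).card * r ^ 2 = ∑ _p : Fin r × G, n := by
      rw [Fintype.sum_prod_type]
      apply le_antisymm
      · exact Finset.sum_le_sum (fun p _ => hcon p.2 p.1) |>.trans_eq' (by rw [Fintype.sum_prod_type])
      · calc ∑ _p : Fin r × G, n = r * (n * n) := by simp [hn, mul_assoc]
          _ ≤ _ := hlower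
    have := (Finset.sum_eq_sum_iff_of_le (fun p _ => hcon p.2 p.1)).mp htot
    intro c g
    exact this (c, g) (Finset.mem_univ _)
  -- pick a color different from the color of `1`
  obtain ⟨c, hc⟩ : ∃ c : Fin r, c ≠ χ 1 := by
    have : Nontrivial (Fin r) := Fin.nontrivial_iff_two_le.mpr hr
    exact exists_ne (χ 1)
  -- `|S 1 c|` is odd
  have hodd' : Odd (S 1 c).card := by
    have h1 : Odd ((S 1 c).card * r ^ 2) := by rw [heq c 1]; exact hodd
    exact (Nat.odd_mul.mp h1).1
  -- but inversion is a fixed point free involution on `S 1 c`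
  have heven : Even (S 1 c).card := by
    have hz : ((S 1 c).card : ZMod 2) = 0 := by
      have h0 : ∑ _x ∈ S 1 c, (1 : ZMod 2) = 0 := by
        refine Finset.sum_involution (fun x _ => x⁻¹) ?_ ?_ ?_ ?_
        · intro x hx
          decide
        · intro x hx _ hxx
          have hx' := (Finset.mem_filter.mp hx).2.1
          have hsq : x ^ 2 = 1 ^ 2 := by
            rw [one_pow, pow_two]
            nth_rewrite 1 [← hxx]
            simp
          have hx1 : x = 1 := sq_injective hodd hsq
          rw [hx1] at hx'
          exact hc hx'.symm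
        · intro x hx
          have h2 := (Finset.mem_filter.mp hx).2
          simp only [S, Finset.mem_filter, Finset.mem_univ, true_and]
          simp only [one_mul, mul_one] at h2
          refine ⟨h2.2, ?_⟩
          simpa using h2.1
        · intro x hx
          simp
      rw [Finset.sum_const, nsmul_eq_mul, mul_one] at h0
      exact h0
    rw [ZMod.natCast_eq_zero_iff] at hz
    exact even_iff_two_dvd.mpr hz
  exact (Nat.not_even_iff_odd.mpr hodd') heven

end Pool.Agent.S12093
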