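import Pool.Statements.S12780
import Pool.Agent.Lib.MP_12964e_gt.h39c.NotM1

set_option autoImplicit false
open Pool Pool.MP_12964e_gt

namespace Pool.Agent.S12780

/-- The negation of the preceding statement: Every topological space having a countable union of closure-preserving families of closed sets forming a pseudobase (x in interior of P inside U) also has an open base that is a countable union of closure-preserving families. -/
theorem result :
    ¬ (∀ (X : Type) [TopologicalSpace X],
      (∃ P : ℕ → Set (Set X),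
        (∀ n, ∀ Q ⊆ P n, closure (⋃₀ Q) = ⋃₀ (closure '' Q)) ∧
        (∀ n, ∀ s ∈ P n, IsClosed s) ∧
        (∀ (x : X) (U : Set X), IsOpen U → x ∈ U →
          ∃ n, ∃ s ∈ P n, x ∈ interior s ∧ s ⊆ U)) →
      ∃ B : ℕ → Set (Set X),
        (∀ n, ∀ Q ⊆ B n, closure (⋃₀ Q) = ⋃₀ (closure '' Q)) ∧
        TopologicalSpace.IsTopologicalBasis (⋃ n, B n)) := by
  intro h
  exact Pool.Agent.Lib.MP_12964e_gt.h39c.not_M1 Pool.Agent.Lib.MP_12964e_gt.h39c.reg_root
    (h Pool.Agent.Lib.MP_12964e_gt.h39c.X
      ⟨Pool.Agent.Lib.MP_12964e_gt.h39c.PP, Pool.Agent.Lib.MP_12964e_gt.h39c.PP_cp,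
        Pool.Agent.Lib.MP_12964e_gt.h39c.PP_closed,
        Pool.Agent.Lib.MP_12964e_gt.h39c.PP_pseudobase⟩)

end Pool.Agent.S12780
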