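import Pool.Statements.S13007
import Pool.Agent.Lib.MP_35943b_gt.Final
-- import your own Pool.Agent.* helpers here

set_option autoImplicit false
open Pool Pool.MP_35943b_gt

namespace Pool.Agent.S13007

/-- For a finite graph with countable vertex groups, if every vertex group has asymptotic property C (finite-set form), then the graph product, given by its universal property, also has asymptotic property C. -/
theorem result :
    ∀ (V : Type) [Fintype V] (Γ : SimpleGraph V) (G : V → Type) [∀ v, Group (G v)]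
      [∀ v, Countable (G v)] (H : Type) [Group H] (ι : ∀ v, G v →* H),
      (∀ v w, Γ.Adj v w → ∀ (g : G v) (h : G w), Commute (ι v g) (ι w h)) →
      (∀ (K : Type) [Group K] (φ : ∀ v, G v →* K),
        (∀ v w, Γ.Adj v w → ∀ (g : G v) (h : G w), Commute (φ v g) (φ w h)) →
        ∃! f : H →* K, ∀ v, f.comp (ι v) = φ v) →
      (∀ v, ∀ F : ℕ → Finset (G v), ∃ n : ℕ, ∃ 𝒰 : Fin n → Set (Set (G v)),
        ∃ L : Finset (G v),
          (∀ i, ∀ U ∈ 𝒰 i, ∀ x ∈ U, ∀ y ∈ U, x⁻¹ * y ∈ L) ∧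
          (∀ i : Fin n, ∀ U ∈ 𝒰 i, ∀ U' ∈ 𝒰 i, U ≠ U' →
            ∀ x ∈ U, ∀ y ∈ U', x⁻¹ * y ∉ F i.val) ∧
          (∀ x : G v, ∃ i, ∃ U ∈ 𝒰 i, x ∈ U)) →
      (∀ F : ℕ → Finset H, ∃ n : ℕ, ∃ 𝒰 : Fin n → Set (Set H),
        ∃ L : Finset H,
          (∀ i, ∀ U ∈ 𝒰 i, ∀ x ∈ U, ∀ y ∈ U, x⁻¹ * y ∈ L) ∧
          (∀ i : Fin n, ∀ U ∈ 𝒰 i, ∀ U' ∈ 𝒰 i, U ≠ U' →
            ∀ x ∈ U, ∀ y ∈ U', x⁻¹ * y ∉ F i.val) ∧
          (∀ x : H, ∃ i, ∃ U ∈ 𝒰 i, x ∈ U)) := by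
  intro V _ Γ G _ _ H _ ι hcomm huniv hG
  exact Pool.Agent.Lib.MP_35943b_gt.main_thm V Γ G H ι hcomm huniv hG

end Pool.Agent.S13007
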