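import Pool.Statements.S13545
import Pool.Agent.Lib.MP_8d00da_gt.h28k.KLSN
import Pool.Agent.Lib.MP_8d00da_gt.h42k.ZG

set_option autoImplicit false
open MeasureTheory
open Pool Pool.MP_8d00da_gt

namespace Pool.Agent.S13545

/-- Some universal c>0 works for every convex body K in any dimension with uniform measure μ: if t·min(μH,1−μH) ≤ μ⁺(H) for all halfspaces H, then c·t·min(μA,1−μA) ≤ μ⁺(A) for every measurable A (μ⁺ = Minkowski boundary measure). -/
theorem result :
    ∃ c : ℝ, 0 < c ∧
      ∀ (n : ℕ) (K : Set (EuclideanSpace ℝ (Fin n))),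
        Convex ℝ K → IsCompact K → (interior K).Nonempty →
        ∀ μ : Measure (EuclideanSpace ℝ (Fin n)),
          μ = (volume K)⁻¹ • volume.restrict K →
          ∀ t : ENNReal,
            (∀ (u : EuclideanSpace ℝ (Fin n)) (b : ℝ), u ≠ 0 →
              t * min (μ {x : EuclideanSpace ℝ (Fin n) | inner ℝ u x ≤ b})
                  (1 - μ {x : EuclideanSpace ℝ (Fin n) | inner ℝ u x ≤ b}) ≤
                Filter.liminf
                  (fun ε : ℝ =>
                    (μ (Metric.thickening ε {x : EuclideanSpace ℝ (Fin n) | inner ℝ u x ≤ b})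
                      - μ {x : EuclideanSpace ℝ (Fin n) | inner ℝ u x ≤ b})
                      / ENNReal.ofReal ε)
                  (nhdsWithin 0 (Set.Ioi 0))) →
            ∀ A : Set (EuclideanSpace ℝ (Fin n)), MeasurableSet A →
              ENNReal.ofReal c * t * min (μ A) (1 - μ A) ≤
                Filter.liminf
                  (fun ε : ℝ => (μ (Metric.thickening ε A) - μ A) / ENNReal.ofReal ε)
                  (nhdsWithin 0 (Set.Ioi 0)) := by
  obtain ⟨C, hC, hP⟩ := Pool.Agent.Lib.MP_8d00da_gt.h28k.klsn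
  exact Pool.Agent.Lib.MP_8d00da_gt.h42k.ZZ.frozen_of_PI hC fun n κ M V => hP (Fin n) κ M V

end Pool.Agent.S13545
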