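import Pool.Statements.S13889
import Pool.Agent.Lib.MP_c41363_gt.Final

set_option autoImplicit false
open Pool Pool.MP_c41363_gt

namespace Pool.Agent.S13889

/-- For every labelled triangulation pattern K and every geodesic realization T of K on the round 2-sphere, the space of geodesic realizations of K with the same orientation as T is homotopy equivalent to SO(3). -/
theorem result :
  ∀ (n : ℕ) (K : Finset (Fin n × Fin n × Fin n)),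
    (∀ τ ∈ K, τ.1 ≠ τ.2.1 ∧ τ.1 ≠ τ.2.2 ∧ τ.2.1 ≠ τ.2.2) →
    (∀ i : Fin n, ∃ τ ∈ K, i = τ.1 ∨ i = τ.2.1 ∨ i = τ.2.2) →
    ∀ v : Fin n → Fin 3 → ℝ,
      ((∀ i, (∑ a, v i a ^ 2) = 1) ∧
        (∀ t : Fin n → ℝ, ((∀ i, 0 ≤ t i) ∧ (∑ i, t i) = 1 ∧
            ∃ τ ∈ K, ∀ i, t i ≠ 0 → (i = τ.1 ∨ i = τ.2.1 ∨ i = τ.2.2)) →
          (∑ i, t i • v i) ≠ 0) ∧
        (∀ t s : Fin n → ℝ,
          ((∀ i, 0 ≤ t i) ∧ (∑ i, t i) = 1 ∧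
            ∃ τ ∈ K, ∀ i, t i ≠ 0 → (i = τ.1 ∨ i = τ.2.1 ∨ i = τ.2.2)) →
          ((∀ i, 0 ≤ s i) ∧ (∑ i, s i) = 1 ∧
            ∃ τ ∈ K, ∀ i, s i ≠ 0 → (i = τ.1 ∨ i = τ.2.1 ∨ i = τ.2.2)) →
          ∀ c : ℝ, 0 < c → (∑ i, t i • v i) = c • (∑ i, s i • v i) → t = s) ∧
        (∀ x : Fin 3 → ℝ, x ≠ 0 → ∃ t : Fin n → ℝ,
          ((∀ i, 0 ≤ t i) ∧ (∑ i, t i) = 1 ∧
            ∃ τ ∈ K, ∀ i, t i ≠ 0 → (i = τ.1 ∨ i = τ.2.1 ∨ i = τ.2.2)) ∧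
          ∃ c : ℝ, 0 < c ∧ (∑ i, t i • v i) = c • x)) →
      Nonempty (ContinuousMap.HomotopyEquiv
        {w : Fin n → Fin 3 → ℝ //
          ((∀ i, (∑ a, w i a ^ 2) = 1) ∧
            (∀ t : Fin n → ℝ, ((∀ i, 0 ≤ t i) ∧ (∑ i, t i) = 1 ∧
                ∃ τ ∈ K, ∀ i, t i ≠ 0 → (i = τ.1 ∨ i = τ.2.1 ∨ i = τ.2.2)) →
              (∑ i, t i • w i) ≠ 0) ∧
            (∀ t s : Fin n → ℝ,
              ((∀ i, 0 ≤ t i) ∧ (∑ i, t i) = 1 ∧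
                ∃ τ ∈ K, ∀ i, t i ≠ 0 → (i = τ.1 ∨ i = τ.2.1 ∨ i = τ.2.2)) →
              ((∀ i, 0 ≤ s i) ∧ (∑ i, s i) = 1 ∧
                ∃ τ ∈ K, ∀ i, s i ≠ 0 → (i = τ.1 ∨ i = τ.2.1 ∨ i = τ.2.2)) →
              ∀ c : ℝ, 0 < c → (∑ i, t i • w i) = c • (∑ i, s i • w i) → t = s) ∧
            (∀ x : Fin 3 → ℝ, x ≠ 0 → ∃ t : Fin n → ℝ,
              ((∀ i, 0 ≤ t i) ∧ (∑ i, t i) = 1 ∧
                ∃ τ ∈ K, ∀ i, t i ≠ 0 → (i = τ.1 ∨ i = τ.2.1 ∨ i = τ.2.2)) ∧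
              ∃ c : ℝ, 0 < c ∧ (∑ i, t i • w i) = c • x)) ∧
          ∀ τ ∈ K, 0 < (Matrix.of ![w τ.1, w τ.2.1, w τ.2.2]).det *
                        (Matrix.of ![v τ.1, v τ.2.1, v τ.2.2]).det}
        ↥(Matrix.specialOrthogonalGroup (Fin 3) ℝ)) := by
  intro n K hK hK' v hv
  exact GT.main K hK hK' v hv

end Pool.Agent.S13889
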