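import Pool.Statements.S14473
import Pool.Agent.Lib.MP_21db1f_lc.AData
import Pool.Agent.Lib.MP_21db1f_lc.HSide
import Pool.Agent.Lib.MP_21db1f_lc.GSide

set_option autoImplicit false
open Pool Pool.MP_21db1f_lc

namespace Pool.Agent.S14473

/-- For every n ≥ 2 there is a first-order sentence about multiplication that is true in the free solvable group of class 3 and rank n, and every finitely generated group satisfying it is isomorphic to that group. -/
theorem result :
    ∀ n : ℕ, 2 ≤ n →
      ∃ φ : FirstOrder.Language.Sentence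
          (⟨fun k => if k = 2 then Unit else Empty, fun _ => Empty⟩ : FirstOrder.Language.{0, 0}),
        @FirstOrder.Language.Sentence.Realize
            (⟨fun k => if k = 2 then Unit else Empty, fun _ => Empty⟩ : FirstOrder.Language.{0, 0})
            (FreeGroup (Fin n) ⧸ derivedSeries (FreeGroup (Fin n)) 3)
            { funMap := fun _ xs => (List.ofFn xs).prod, RelMap := fun _ _ => False }
            φ ∧
        ∀ (H : Type) [Group H], Group.FG H →
          @FirstOrder.Language.Sentence.Realize
              (⟨fun k => if k = 2 then Unit else Empty, fun _ => Empty⟩ : FirstOrder.Language.{0, 0})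
              H
              { funMap := fun _ xs => (List.ofFn xs).prod, RelMap := fun _ _ => False }
              φ →
            Nonempty (H ≃* (FreeGroup (Fin n) ⧸ derivedSeries (FreeGroup (Fin n)) 3)) := by
  intro n hn
  obtain ⟨D⟩ := Pool.Agent.Lib.MP_21db1f_lc.exists_AData n
  obtain ⟨φ, hφ⟩ := (Pool.Agent.Lib.MP_21db1f_lc.defAx D).exists_sentence
  refine ⟨φ, ?_, ?_⟩
  · exact (hφ (Pool.Agent.Lib.MP_21db1f_lc.G3 n)).2
      ⟨Pool.Agent.Lib.MP_21db1f_lc.x3 n, Pool.Agent.Lib.MP_21db1f_lc.G_side n hn D⟩
  · intro H _ hfg hH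
    obtain ⟨x, hx⟩ := (hφ H).1 hH
    exact Pool.Agent.Lib.MP_21db1f_lc.H_side hn
      (Pool.Agent.Lib.MP_21db1f_lc.triv_iff n hn) D hfg x hx

end Pool.Agent.S14473
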