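import Pool.Statements.S15227
import Pool.Agent.Lib.MP_afa64c_lc.Main

set_option autoImplicit false
open Pool Pool.MP_afa64c_lc

namespace Pool.Agent.S15227

/-- Some integer polynomial f exists such that, identifying subrings of Q with sets of primes (Cantor space, fair-coin measure), the boundary of the set of subrings where f has no solution has positive measure. -/
theorem result :
    ∃ n : ℕ, ∃ f : MvPolynomial (Fin n) ℤ,
      0 < (MeasureTheory.Measure.infinitePi
            (fun _ : ℕ => (PMF.uniformOfFintype Bool).toMeasure))
          (frontier ({W : ℕ → Bool | ∃ x : Fin n → ℚ,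
              (∀ i : Fin n, ∀ k : ℕ, Nat.nth Nat.Prime k ∣ (x i).den → W k = true) ∧
              MvPolynomial.aeval x f = 0}ᶜ)) := by
  exact BQ60.main

end Pool.Agent.S15227
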