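import Pool.Statements.S15259

set_option autoImplicit false
open FirstOrder FirstOrder.Language
open Pool Pool.MP_b47165_lc

namespace Pool.Agent.S15259

/-!
# An infinite poset all of whose order-preserving self-maps are definable with parameters

The poset `P` is the union of a chain `C` (binary sequences, ordered lexicographically) and a
countable part `Q` made of gadgets.  The gadget number `s` consists of a chain
`a s < b s < m (s + 1)`, and moreover `a s < m (T s)` and `a s < n (U s)`, where `(T s, U s)` is the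
ordered pair of natural numbers attached to `s`.  An element `x` of the chain is above `a s` iff
`A s ≤ x` and above `b s` iff `B s < x`, where `[A s, B s]` is a cylinder of `C`.

* Every relation between the `m`-part and the `n`-part is coded by a single element of the chain
  (`coding`, `dRel`), so every relation on the countable part `Q` is definable (`dQ`).
* Monotone maps are determined by countable data: every up-set of `C` is determined by the set of
  the `a s` whose cones in `C` it contains together with its least element, if there is one, and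
  that least element is determined by the set of the `a s` below it.  Hence any family of up-sets of
  `P` indexed by the countable part is definable (`dUp`), and so is every monotone map (`main`).
-/

/-! ## The chain: binary sequences ordered lexicographically -/

def C : Type := Lex (ℕ → Bool)

noncomputable instance : LinearOrder C := inferInstanceAs (LinearOrder (Lex (ℕ → Bool)))

instance : CoeFun C (fun _ => ℕ → Bool) := ⟨fun x => x⟩

/-- A binary sequence as an element of the chain. -/
def mk (f : ℕ → Bool) : C := f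

/-- Least element of the `k`-th cylinder coded by `l` (all `x` with `x i = l.testBit i` for `i < k`
and `x k = true`). -/
def lo (k l : ℕ) : C := mk (fun i => if i < k then l.testBit i else decide (i = k))

/-- Greatest element of the same cylinder. -/
def hi (k l : ℕ) : C := mk (fun i => if i < k then l.testBit i else true)

theorem clt_iff (x y : C) : x < y ↔ ∃ i, (∀ j, j < i → x j = y j) ∧ x i < y i := Iff.rfl

theorem lo_lt {k l i : ℕ} (h : i < k) : lo k l i = l.testBit i := by
  show (if i < k then l.testBit i else decide (i = k)) = _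
  simp [h]

theorem lo_self {k l : ℕ} : lo k l k = true := by
  show (if k < k then l.testBit k else decide (k = k)) = _
  simp

theorem lo_gt {k l i : ℕ} (h : k < i) : lo k l i = false := by
  show (if i < k then l.testBit i else decide (i = k)) = _
  simp [h.not_gt, h.ne']

theorem hi_lt {k l i : ℕ} (h : i < k) : hi k l i = l.testBit i := by
  show (if i < k then l.testBit i else true) = _
  simp [h]

theorem hi_ge {k l i : ℕ} (h : k ≤ i) : hi k l i = true := by
  show (if i < k then l.testBit i else true) = _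
  simp [h]

theorem cyl (k l : ℕ) (x : C) :
    (lo k l ≤ x ∧ x ≤ hi k l) ↔ (∀ i, i < k → x i = l.testBit i) ∧ x k = true := by
  constructor
  · rintro ⟨h1, h2⟩
    have key : ∀ i, i < k → x i = l.testBit i := by
      intro i
      induction i using Nat.strong_induction_on with
      | _ i ih =>
        intro hik
        by_contra hne
        cases hx : x i with
        | false =>
          have hb : l.testBit i = true := by
            cases hb : l.testBit i with
            | false => exact absurd (hx.trans hb.symm) hne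
            | true => rfl
          apply absurd h1
          rw [not_le, clt_iff]
          refine ⟨i, fun j hj => ?_, ?_⟩
          · rw [lo_lt (hj.trans hik)]; exact ih j hj (hj.trans hik)
          · rw [lo_lt hik, hb, hx]; exact Bool.false_lt_true
        | true =>
          have hb : l.testBit i = false := by
            cases hb : l.testBit i with
            | true => exact absurd (hx.trans hb.symm) hne
            | false => rfl
          apply absurd h2
          rw [not_le, clt_iff]
          refine ⟨i, fun j hj => ?_, ?_⟩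
          · rw [hi_lt (hj.trans hik)]; exact (ih j hj (hj.trans hik)).symm
          · rw [hi_lt hik, hb, hx]; exact Bool.false_lt_true
    refine ⟨key, ?_⟩
    cases hx : x k with
    | true => rfl
    | false =>
      exfalso
      apply absurd h1
      rw [not_le, clt_iff]
      refine ⟨k, fun j hj => ?_, ?_⟩
      · rw [lo_lt hj]; exact key j hj
      · rw [lo_self, hx]; exact Bool.false_lt_true
  · rintro ⟨h1, h2⟩
    constructor
    · by_contra hlt
      rw [not_le, clt_iff] at hlt
      obtain ⟨i, -, hi'⟩ := hlt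
      rcases lt_trichotomy i k with h | h | h
      · rw [lo_lt h, h1 i h] at hi'; exact lt_irrefl _ hi'
      · subst h; rw [lo_self, h2] at hi'; exact lt_irrefl _ hi'
      · rw [lo_gt h] at hi'; exact absurd hi' (by cases x i <;> decide)
    · by_contra hlt
      rw [not_le, clt_iff] at hlt
      obtain ⟨i, -, hi'⟩ := hlt
      rcases lt_or_ge i k with h | h
      · rw [hi_lt h, h1 i h] at hi'; exact lt_irrefl _ hi'
      · rw [hi_ge h] at hi'; exact absurd hi' (by cases x i <;> decide)

theorem exists_code (x : C) (k : ℕ) : ∃ l : ℕ, ∀ i, i < k → x i = l.testBit i := by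
  refine ⟨Nat.ofBits (fun i : Fin k => x i), fun i hi => ?_⟩
  rw [Nat.testBit_ofBits_lt _ i hi]

theorem lo_le_hi (k l : ℕ) : lo k l ≤ hi k l := by
  have h := (cyl k l (lo k l)).2 ⟨fun i hi => lo_lt hi, lo_self⟩
  exact h.2

theorem sep {x y : C} (h : x < y) : ∃ k l, x < lo k l ∧ lo k l ≤ y := by
  obtain ⟨k, hk, hk2⟩ := (clt_iff x y).1 h
  obtain ⟨l, hl⟩ := exists_code y k
  have hyk : y k = true := by
    cases hy : y k with
    | true => rfl
    | false => rw [hy] at hk2; exact absurd hk2 (by cases x k <;> decide)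
  refine ⟨k, l, ?_, ((cyl k l y).2 ⟨hl, hyk⟩).1⟩
  rw [clt_iff]
  refine ⟨k, fun j hj => ?_, ?_⟩
  · rw [lo_lt hj, hk j hj, hl j hj]
  · rw [lo_self, ← hyk]; exact hk2

/-- The least element of the chain. -/
def c0 : C := mk (fun _ => false)

theorem c0_le (x : C) : c0 ≤ x := by
  by_contra h
  rw [not_le, clt_iff] at h
  obtain ⟨i, -, hi'⟩ := h
  have : c0 i = false := rfl
  rw [this] at hi'
  exact absurd hi' (by cases x i <;> decide)

/-! ## The data attached to a gadget `s` -/

/-- First coordinate of the pair attached to the gadget `s`. -/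
def T (s : ℕ) : ℕ := (Nat.unpair (Nat.unpair s).1).1
/-- Second coordinate of the pair attached to the gadget `s`. -/
def U (s : ℕ) : ℕ := (Nat.unpair (Nat.unpair s).1).2
/-- Left endpoint of the interval of the gadget `s`. -/
def A (s : ℕ) : C := lo (Nat.unpair s).1 (Nat.unpair s).2
/-- Right endpoint of the interval of the gadget `s`. -/
def B (s : ℕ) : C := hi (Nat.unpair s).1 (Nat.unpair s).2

theorem T_le (s : ℕ) : T s ≤ s :=
  (Nat.unpair_left_le _).trans (Nat.unpair_left_le _)

theorem A_le_B (s : ℕ) : A s ≤ B s := lo_le_hi _ _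

theorem sepA {x y : C} (h : x < y) : ∃ s, x < A s ∧ A s ≤ y := by
  obtain ⟨k, l, h1, h2⟩ := sep h
  exact ⟨Nat.pair k l, by simpa [A] using h1, by simpa [A] using h2⟩

/-- Every binary relation on `ℕ` is coded by an element of the chain. -/
theorem coding (R : ℕ → ℕ → Prop) :
    ∃ x : C, ∀ t u, R t u ↔ ∃ s, T s = t ∧ U s = u ∧ A s ≤ x ∧ x ≤ B s := by
  classical
  refine ⟨mk (fun k => decide (R (Nat.unpair k).1 (Nat.unpair k).2)), fun t u => ?_⟩
  constructor
  · intro h
    obtain ⟨l, hl⟩ := exists_code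
      (mk (fun k => decide (R (Nat.unpair k).1 (Nat.unpair k).2))) (Nat.pair t u)
    refine ⟨Nat.pair (Nat.pair t u) l, by simp [T], by simp [U], ?_⟩
    have := (cyl (Nat.pair t u) l _).2 ⟨hl, by
      show decide (R (Nat.unpair (Nat.pair t u)).1 (Nat.unpair (Nat.pair t u)).2) = true
      simpa using h⟩
    simpa [A, B] using this
  · rintro ⟨s, rfl, rfl, h1, h2⟩
    have := ((cyl (Nat.unpair s).1 (Nat.unpair s).2 _).1 ⟨h1, h2⟩).2
    have h3 : decide (R (Nat.unpair (Nat.unpair s).1).1 (Nat.unpair (Nat.unpair s).1).2) = true :=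
      this
    simpa [T, U] using h3

/-! ## The poset -/

inductive P : Type
  | c : C → P
  | a : ℕ → P
  | b : ℕ → P
  | m : ℕ → P
  | n : ℕ → P

def P.le : P → P → Prop
  | .c x, .c y => x ≤ y
  | .a s, .c x => A s ≤ x
  | .b s, .c x => B s < x
  | .a s, .a t => s = t
  | .a s, .b t => s = t
  | .a s, .m i => i = s + 1 ∨ i = T s
  | .a s, .n j => j = U s
  | .b s, .b t => s = t
  | .b s, .m i => i = s + 1
  | .m i, .m j => i = j
  | .n i, .n j => i = j
  | _, _ => False

theorem P.le_trans' : ∀ p q r : P, p.le q → q.le r → p.le r := by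
  rintro (x | s | s | s | s) (y | t | t | t | t) (z | u | u | u | u) h1 h2 <;>
    simp only [P.le] at h1 h2 ⊢
  all_goals first
    | exact _root_.le_trans h1 h2
    | exact lt_of_lt_of_le h1 h2
    | (subst h1; first | exact h2 | exact Or.inl h2 | exact (A_le_B _).trans h2.le)
    | (subst h2; exact h1)

theorem P.le_antisymm' : ∀ p q : P, p.le q → q.le p → p = q := by
  rintro (x | s | s | s | s) (y | t | t | t | t) h1 h2 <;>
    simp only [P.le] at h1 h2
  · exact congrArg P.c (_root_.le_antisymm h1 h2)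
  all_goals (subst h1; rfl)

instance : PartialOrder P where
  le := P.le
  le_refl := by
    rintro (x | s | s | s | s) <;> simp [P.le]
  le_trans := P.le_trans'
  le_antisymm := P.le_antisymm'

/-! ## Closure properties of definable relations -/

section Def

variable {M : Type} [Language.order.Structure M]

/-- `p` is definable with parameters. -/
def D (n : ℕ) (p : (Fin n → M) → Prop) : Prop :=
  (Set.univ : Set M).Definable Language.order {v : Fin n → M | p v}

theorem D.congr {n : ℕ} {p q : (Fin n → M) → Prop} (h : D n p) (e : ∀ v, q v ↔ p v) : D n q := by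
  have : q = p := funext fun v => propext (e v)
  rw [this]; exact h

theorem D.and {n : ℕ} {p q : (Fin n → M) → Prop} (hp : D n p) (hq : D n q) :
    D n (fun v => p v ∧ q v) := Set.Definable.inter hp hq

theorem D.or {n : ℕ} {p q : (Fin n → M) → Prop} (hp : D n p) (hq : D n q) :
    D n (fun v => p v ∨ q v) := Set.Definable.union hp hq

theorem D.not {n : ℕ} {p : (Fin n → M) → Prop} (hp : D n p) :
    D n (fun v => ¬ p v) := Set.Definable.compl hp

theorem D.imp {n : ℕ} {p q : (Fin n → M) → Prop} (hp : D n p) (hq : D n q) :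
    D n (fun v => p v → q v) :=
  (hp.not.or hq).congr (fun _ => imp_iff_not_or)

theorem D.iff {n : ℕ} {p q : (Fin n → M) → Prop} (hp : D n p) (hq : D n q) :
    D n (fun v => (p v ↔ q v)) :=
  ((hp.imp hq).and (hq.imp hp)).congr (fun _ => iff_iff_implies_and_implies)

theorem D.sub {k n : ℕ} {p : (Fin k → M) → Prop} (h : D k p) (σ : Fin k → Fin n) :
    D n (fun v => p (fun i => v (σ i))) :=
  Set.Definable.preimage_comp σ h

theorem D.ex {n : ℕ} {p : (Fin n → M) → M → Prop}
    (h : D (n + 1) (fun w => p (fun i => w i.succ) (w 0))) : D n (fun v => ∃ y, p v y) := by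
  have h2 := Set.Definable.image_comp h (Fin.succ : Fin n → Fin (n + 1))
  refine D.congr (p := fun v => v ∈ (fun g : Fin (n + 1) → M => g ∘ Fin.succ) ''
    {w | p (fun i => w i.succ) (w 0)}) h2 (fun v => ?_)
  constructor
  · rintro ⟨y, hy⟩
    exact ⟨Fin.cons y v, by simpa using hy, by ext i; simp⟩
  · rintro ⟨w, hw, rfl⟩
    exact ⟨w 0, hw⟩

theorem D.all {n : ℕ} {p : (Fin n → M) → M → Prop}
    (h : D (n + 1) (fun w => p (fun i => w i.succ) (w 0))) : D n (fun v => ∀ y, p v y) :=
  (D.ex (p := fun v y => ¬ p v y) h.not).not.congr (fun v => by simp)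

abbrev D1 (r : M → Prop) : Prop := D 1 (fun v => r (v 0))
abbrev D2 (r : M → M → Prop) : Prop := D 2 (fun v => r (v 0) (v 1))
abbrev D3 (r : M → M → M → Prop) : Prop := D 3 (fun v => r (v 0) (v 1) (v 2))

theorem D1.at {r : M → Prop} (h : D1 r) {n : ℕ} (i : Fin n) : D n (fun v => r (v i)) :=
  D.sub h ![i]

theorem D2.at {r : M → M → Prop} (h : D2 r) {n : ℕ} (i j : Fin n) :
    D n (fun v => r (v i) (v j)) :=
  D.sub h ![i, j]

theorem D3.at {r : M → M → M → Prop} (h : D3 r) {n : ℕ} (i j k : Fin n) :
    D n (fun v => r (v i) (v j) (v k)) :=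
  D.sub h ![i, j, k]

theorem dconst (c : M) : D1 (fun x : M => x = c) := by
  have := Set.Definable.singleton_of_mem Language.order (Set.mem_univ c)
  exact this

theorem D2.fixR {r : M → M → Prop} (h : D2 r) (c : M) : D1 (fun x => r x c) := by
  refine D.congr (p := fun v => ∃ y, y = c ∧ r (v 0) y) ?_ (fun v => by simp)
  exact D.ex (((dconst c).at 0).and (h.at (Fin.succ 0) 0))

theorem D2.fixL {r : M → M → Prop} (h : D2 r) (c : M) : D1 (fun x => r c x) := by
  refine D.congr (p := fun v => ∃ y, y = c ∧ r y (v 0)) ?_ (fun v => by simp)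
  exact D.ex (((dconst c).at 0).and (h.at 0 (Fin.succ 0)))

theorem deq : D2 (fun x y : M => x = y) := Set.Definable.diagonal Language.order Set.univ

end Def

theorem dle {M : Type} [LE M] [Language.order.Structure M] [Language.order.OrderedStructure M] :
    D2 (fun x y : M => x ≤ y) := by
  have h : (∅ : Set M).Definable Language.order {v : Fin 2 → M | v 0 ≤ v 1} := by
    rw [Set.empty_definable_iff]
    refine ⟨Relations.formula₂ (leSymb : Language.order.Relations 2) (Term.var 0) (Term.var 1), ?_⟩
    ext v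
    simp [Formula.realize_rel₂]
  exact h.mono (Set.empty_subset _)

/-! ## Definability in the poset `P` -/

instance : Language.order.Structure P := Language.orderStructure P

instance : Language.order.OrderedStructure P := ⟨fun _ => Iff.rfl⟩

theorem ple {p q : P} : p ≤ q ↔ P.le p q := Iff.rfl

theorem plt {p q : P} : p < q ↔ P.le p q ∧ p ≠ q := lt_iff_le_and_ne

theorem dlt : D2 (fun x y : P => x < y) :=
  ((dle.at 0 1).and (deq.at 0 1).not).congr (fun _ => lt_iff_le_and_ne)

/-- Membership in the chain part of `P`. -/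
def inC (p : P) : Prop := P.c c0 ≤ p

theorem inC_iff (p : P) : inC p ↔ ∃ x, p = P.c x := by
  unfold inC
  rcases p with (x | s | s | s | s) <;> simp [ple, P.le, c0_le]

theorem dinC : D1 inC := (dle (M := P)).fixL (P.c c0)

/-- The relation between the two lower elements of a gadget and its name. -/
def Gad (a b w : P) : Prop := a < b ∧ b < w ∧ ¬ inC w

theorem Gad_iff (a b w : P) : Gad a b w ↔ ∃ s, a = P.a s ∧ b = P.b s ∧ w = P.m (s + 1) := by
  unfold Gad
  constructor
  · rintro ⟨h1, h2, h3⟩
    rw [plt] at h1 h2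
    rw [inC_iff] at h3
    obtain ⟨h1, h1'⟩ := h1
    obtain ⟨h2, h2'⟩ := h2
    rcases a with (x | s | s | s | s) <;> rcases b with (y | t | t | t | t) <;>
      rcases w with (z | u | u | u | u) <;> simp [P.le] at h1 h2 h3 h1' h2' ⊢ <;> omega
  · rintro ⟨s, rfl, rfl, rfl⟩
    rw [plt, plt, inC_iff]
    simp [P.le]

theorem dGad : D3 Gad :=
  ((dlt.at 0 1).and ((dlt.at 1 2).and (dinC.at 2).not))

def isA (p : P) : Prop := ∃ s, p = P.a s
def isB (p : P) : Prop := ∃ s, p = P.b s
def isM (p : P) : Prop := ∃ s, p = P.m s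
def isN (p : P) : Prop := ∃ s, p = P.n s

theorem disA : D1 isA := by
  refine D.congr (p := fun v => ∃ b w, Gad (v 0) b w) ?_ (fun v => ?_)
  · exact D.ex (D.ex (dGad.at (Fin.succ (Fin.succ 0)) (Fin.succ 0) 0))
  · simp [Gad_iff, isA]

theorem disB : D1 isB := by
  refine D.congr (p := fun v => ∃ b w, Gad b (v 0) w) ?_ (fun v => ?_)
  · exact D.ex (D.ex (dGad.at (Fin.succ 0) (Fin.succ (Fin.succ 0)) 0))
  · simp [Gad_iff, isB]

theorem disM : D1 isM := by
  refine D.congr (p := fun v => v 0 = P.m 0 ∨ ∃ a b, Gad a b (v 0)) ?_ (fun v => ?_)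
  · exact ((dconst (P.m 0)).at 0).or
      (D.ex (D.ex (dGad.at (Fin.succ 0) 0 (Fin.succ (Fin.succ 0)))))
  · simp only [isM, Gad_iff]
    constructor
    · rintro ⟨s, hs⟩
      cases s with
      | zero => exact Or.inl hs
      | succ s => exact Or.inr ⟨_, _, s, rfl, rfl, hs⟩
    · rintro (h | ⟨_, _, s, -, -, h⟩)
      · exact ⟨_, h⟩
      · exact ⟨_, h⟩

theorem disN : D1 isN := by
  refine D.congr (p := fun v => ¬ inC (v 0) ∧ ¬ isA (v 0) ∧ ¬ isB (v 0) ∧ ¬ isM (v 0)) ?_
    (fun v => ?_)
  · exact (dinC.at 0).not.and ((disA.at 0).not.and ((disB.at 0).not.and (disM.at 0).not))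
  · rw [inC_iff]
    rcases v 0 with (x | s | s | s | s) <;> simp [isA, isB, isM, isN]

/-- Every relation between the `m`-part and the `n`-part is definable. -/
theorem dRel (R : ℕ → ℕ → Prop) :
    D2 (fun w p : P => ∃ t u, w = P.m t ∧ p = P.n u ∧ R t u) := by
  obtain ⟨x, hx⟩ := coding R
  refine D.congr (p := fun v => isM (v 0) ∧ isN (v 1) ∧ ∃ a b z, Gad a b z ∧ a < v 0 ∧
    ¬ (v 0 = z) ∧ a < v 1 ∧ a ≤ P.c x ∧ ¬ (b ≤ P.c x)) ?_ (fun v => ?_)
  · refine (disM.at 0).and ((disN.at 1).and (D.ex (D.ex (D.ex ?_))))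
    have hle : D1 (fun p : P => p ≤ P.c x) := dle.fixR _
    exact (dGad.at _ _ _).and ((dlt.at _ _).and ((deq.at _ _).not.and ((dlt.at _ _).and
      ((hle.at _).and (hle.at _).not))))
  · constructor
    · rintro ⟨t, u, h1, h2, hR⟩
      obtain ⟨s, rfl, rfl, hA, hB⟩ := (hx t u).1 hR
      refine ⟨⟨_, h1⟩, ⟨_, h2⟩, P.a s, P.b s, P.m (s + 1), (Gad_iff _ _ _).2 ⟨s, rfl, rfl, rfl⟩,
        ?_, ?_, ?_, ?_, ?_⟩
      · rw [h1, plt]; simp [P.le]
      · rw [h1]; have := T_le s; intro h; injection h with h; omega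
      · rw [h2, plt]; simp [P.le]
      · exact hA
      · intro h; exact absurd hB (not_le.2 h)
    · rintro ⟨⟨t, ht⟩, ⟨u, hu⟩, a, b, z, hG, h1, h2, h3, h4, h5⟩
      obtain ⟨s, rfl, rfl, rfl⟩ := (Gad_iff _ _ _).1 hG
      rw [ht] at h1 h2
      rw [hu] at h3
      refine ⟨t, u, ht, hu, (hx t u).2 ⟨s, ?_, ?_, h4, ?_⟩⟩
      · have h6 : t = s + 1 ∨ t = T s := h1.le
        rcases h6 with h6 | h6
        · exact absurd (congrArg P.m h6) h2
        · exact h6.symm
      · have h6 : u = U s := h3.le
        exact h6.symm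
      · exact not_lt.1 h5

/-- `g` is a definable sort: its elements have names in the `m`-part. -/
def Named (g : ℕ → P) (ν : ℕ → ℕ) : Prop :=
  Function.Injective ν ∧ D2 (fun p w : P => ∃ s, p = g s ∧ w = P.m (ν s))

theorem named_a : Named P.a (fun s => s + 1) := by
  refine ⟨fun s t h => by simpa using h, ?_⟩
  refine D.congr (p := fun v => ∃ b, Gad (v 0) b (v 1)) ?_ (fun v => ?_)
  · exact D.ex (dGad.at _ _ _)
  · simp [Gad_iff]

theorem named_b : Named P.b (fun s => s + 1) := by
  refine ⟨fun s t h => by simpa using h, ?_⟩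
  refine D.congr (p := fun v => ∃ a, Gad a (v 0) (v 1)) ?_ (fun v => ?_)
  · exact D.ex (dGad.at _ _ _)
  · simp [Gad_iff]

theorem named_m : Named P.m (fun s => s) := by
  refine ⟨fun s t h => h, ?_⟩
  refine D.congr (p := fun v => v 0 = v 1 ∧ isM (v 1)) ?_ (fun v => ?_)
  · exact (deq.at _ _).and (disM.at _)
  · unfold isM
    constructor
    · rintro ⟨s, h1, h2⟩
      exact ⟨h1.trans h2.symm, s, h2⟩
    · rintro ⟨h1, s, h2⟩
      exact ⟨s, h1.trans h2, h2⟩

theorem named_n : Named P.n (fun s => s) := by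
  refine ⟨fun s t h => h, ?_⟩
  refine D.congr (p := fun v => ∃ t u, v 1 = P.m t ∧ v 0 = P.n u ∧ t = u) ?_ (fun v => ?_)
  · exact (dRel (fun t u => t = u)).at 1 0
  · constructor
    · rintro ⟨s, h1, h2⟩
      exact ⟨s, s, h2, h1, rfl⟩
    · rintro ⟨s, _, h1, h2, rfl⟩
      exact ⟨s, h2, h1⟩

theorem dsorts {g h : ℕ → P} {ν μ : ℕ → ℕ} (hg : Named g ν) (hh : Named h μ)
    (R : ℕ → ℕ → Prop) : D2 (fun p q : P => ∃ s t, p = g s ∧ q = h t ∧ R s t) := by
  refine D.congr (p := fun v => ∃ w1 w2 w3, (∃ s, v 0 = g s ∧ w1 = P.m (ν s)) ∧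
    (∃ t, v 1 = h t ∧ w2 = P.m (μ t)) ∧ (∃ t u, w2 = P.m t ∧ w3 = P.n u ∧ t = u) ∧
    (∃ t u, w1 = P.m t ∧ w3 = P.n u ∧ (∃ s' t', t = ν s' ∧ u = μ t' ∧ R s' t'))) ?_ (fun v => ?_)
  · refine D.ex (D.ex (D.ex ?_))
    exact (D2.at hg.2 _ _).and ((D2.at hh.2 _ _).and
      (((dRel (fun t u => t = u)).at _ _).and
      ((dRel (fun t u => ∃ s' t', t = ν s' ∧ u = μ t' ∧ R s' t')).at _ _)))
  · constructor
    · rintro ⟨s, t, h1, h2, h3⟩
      exact ⟨P.m (ν s), P.m (μ t), P.n (μ t), ⟨s, h1, rfl⟩, ⟨t, h2, rfl⟩, ⟨_, _, rfl, rfl, rfl⟩,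
        _, _, rfl, rfl, s, t, rfl, rfl, h3⟩
    · rintro ⟨w1, w2, w3, ⟨s, h1, rfl⟩, ⟨t, h2, rfl⟩, ⟨t1, u1, h3, rfl, rfl⟩,
        ⟨t2, u2, h4, h5, s', t', rfl, rfl, h6⟩⟩
      injection h3 with h3
      injection h4 with h4
      injection h5 with h5
      have e1 := hg.1 h4
      have e2 := hh.1 (h3.trans h5)
      subst e1 e2
      exact ⟨s, t, h1, h2, h6⟩

/-- Every binary relation on the countable part of `P` is definable. -/
theorem dQ (R : P → P → Prop) : D2 (fun p q : P => ¬ inC p ∧ ¬ inC q ∧ R p q) := by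
  have key : ∀ g h : ℕ → P, (∃ ν, Named g ν) → (∃ μ, Named h μ) →
      D2 (fun p q : P => ∃ s t, p = g s ∧ q = h t ∧ R (g s) (h t)) := by
    rintro g h ⟨ν, hν⟩ ⟨μ, hμ⟩
    exact dsorts hν hμ (fun s t => R (g s) (h t))
  have na : ∃ ν, Named P.a ν := ⟨_, named_a⟩
  have nb : ∃ ν, Named P.b ν := ⟨_, named_b⟩
  have nm : ∃ ν, Named P.m ν := ⟨_, named_m⟩
  have nn : ∃ ν, Named P.n ν := ⟨_, named_n⟩
  refine D.congr
    ((((key _ _ na na).or (key _ _ na nb)).or ((key _ _ na nm).or (key _ _ na nn))).or
    ((((key _ _ nb na).or (key _ _ nb nb)).or ((key _ _ nb nm).or (key _ _ nb nn))).or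
    ((((key _ _ nm na).or (key _ _ nm nb)).or ((key _ _ nm nm).or (key _ _ nm nn))).or
    (((key _ _ nn na).or (key _ _ nn nb)).or ((key _ _ nn nm).or (key _ _ nn nn)))))) (fun v => ?_)
  simp only [inC_iff]
  rcases v 0 with (x | s | s | s | s) <;> rcases v 1 with (y | t | t | t | t) <;> simp

/-- Every subset of the countable part of `P` is definable. -/
theorem dQ1 (Z : P → Prop) : D1 (fun p : P => ¬ inC p ∧ Z p) :=
  ((dQ (fun p _ => Z p)).at 0 0).congr (fun _ => by tauto)

/-- A family of up-sets indexed by the countable part of `P` is definable. -/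
theorem dUp (W : P → P → Prop) (hW : ∀ q x y, x ≤ y → W q x → W q y) :
    D2 (fun q x : P => ¬ inC q ∧ W q x) := by
  refine D.congr (p := fun v => (¬ inC (v 0) ∧ ¬ inC (v 1) ∧ W (v 0) (v 1)) ∨
    (¬ inC (v 0) ∧ inC (v 1) ∧
      ((∃ p, (¬ inC (v 0) ∧ ¬ inC p ∧ ∀ y, inC y → p ≤ y → W (v 0) y) ∧ p ≤ v 1) ∨
      ((¬ inC (v 0) ∧ ∃ z, IsLeast {y : C | W (v 0) (P.c y)} z) ∧
        ∀ p, isA p → (p ≤ v 1 ↔ (¬ inC (v 0) ∧ ¬ inC p ∧
          ∃ z, IsLeast {y : C | W (v 0) (P.c y)} z ∧ p ≤ P.c z)))))) ?_ (fun v => ?_)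
  · refine (dQ W).or ((dinC.at 0).not.and ((dinC.at 1).and ((D.ex ?_).or (D.and ?_ (D.all ?_)))))
    · exact ((dQ (fun q p => ∀ y, inC y → p ≤ y → W q y)).at _ _).and (dle.at _ _)
    · exact (dQ1 (fun q => ∃ z, IsLeast {y : C | W q (P.c y)} z)).at _
    · exact (disA.at _).imp ((dle.at _ _).iff
        ((dQ (fun q p => ∃ z, IsLeast {y : C | W q (P.c y)} z ∧ p ≤ P.c z)).at _ _))
  · generalize v 0 = q
    generalize v 1 = x
    by_cases hx : inC x
    · obtain ⟨x, rfl⟩ := (inC_iff x).1 hx
      constructor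
      · rintro ⟨hq, h⟩
        refine Or.inr ⟨hq, hx, ?_⟩
        by_cases hmin : IsLeast {y : C | W q (P.c y)} x
        · refine Or.inr ⟨⟨hq, x, hmin⟩, ?_⟩
          rintro p ⟨s, rfl⟩
          constructor
          · intro hp
            exact ⟨hq, by simp [inC_iff], x, hmin, hp⟩
          · rintro ⟨-, -, z, hz, hp⟩
            rwa [hmin.unique hz]
        · have : ∃ y : C, W q (P.c y) ∧ y < x := by
            by_contra hcon
            apply hmin
            refine ⟨h, fun y hy => ?_⟩
            by_contra hlt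
            exact hcon ⟨y, hy, not_le.1 hlt⟩
          obtain ⟨y, hy, hyx⟩ := this
          obtain ⟨s, hs1, hs2⟩ := sepA hyx
          refine Or.inl ⟨P.a s, ⟨hq, by simp [inC_iff], ?_⟩, hs2⟩
          intro z hz hsz
          obtain ⟨z, rfl⟩ := (inC_iff z).1 hz
          have h7 : A s ≤ z := hsz
          exact hW q (P.c y) (P.c z) (hs1.le.trans h7) hy
      · rintro (⟨_, h2, _⟩ | ⟨hq, -, h⟩)
        · exact absurd hx h2
        · refine ⟨hq, ?_⟩
          rcases h with ⟨p, ⟨-, -, h1⟩, h2⟩ | ⟨⟨-, z, hz⟩, h2⟩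
          · exact h1 _ hx h2
          · have h3 : ∀ s, A s ≤ x ↔ A s ≤ z := by
              intro s
              have := h2 (P.a s) ⟨s, rfl⟩
              constructor
              · intro hs
                obtain ⟨-, -, z', hz', h4⟩ := this.1 hs
                rw [hz.unique hz']
                exact h4
              · intro hs
                exact this.2 ⟨hq, by simp [inC_iff], z, hz, hs⟩
            have h4 : x = z := by
              rcases lt_trichotomy x z with h | h | h
              · obtain ⟨s, hs1, hs2⟩ := sepA h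
                exact absurd ((h3 s).2 hs2) (not_le.2 hs1)
              · exact h
              · obtain ⟨s, hs1, hs2⟩ := sepA h
                exact absurd ((h3 s).1 hs2) (not_le.2 hs1)
            rw [h4]
            exact hz.1
    · simp only [hx, not_false_eq_true, true_and, false_and, and_false, or_false]

theorem separation {p q : P} (h1 : inC p ↔ inC q) (h2 : ∀ r, ¬ inC r → (r ≤ p ↔ r ≤ q)) :
    p = q := by
  by_cases hp : inC p
  · obtain ⟨x, rfl⟩ := (inC_iff p).1 hp
    obtain ⟨y, rfl⟩ := (inC_iff q).1 (h1.1 hp)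
    rcases lt_trichotomy x y with h | h | h
    · obtain ⟨s, hs1, hs2⟩ := sepA h
      exact absurd ((h2 (P.a s) (by simp [inC_iff])).2 hs2) (not_le.2 hs1)
    · rw [h]
    · obtain ⟨s, hs1, hs2⟩ := sepA h
      exact absurd ((h2 (P.a s) (by simp [inC_iff])).1 hs2) (not_le.2 hs1)
  · exact le_antisymm ((h2 p hp).1 le_rfl) ((h2 q (fun h => hp (h1.2 h))).2 le_rfl)

theorem main (f : P → P) (hf : Monotone f) : D2 (fun x y : P => f x = y) := by
  have d1 : D1 (fun x : P => inC (f x)) := by
    have := dUp (fun _ x => inC (f x)) (fun _ x y hxy h => h.trans (hf hxy))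
    refine (this.fixL (P.a 0)).congr (fun v => ?_)
    simp [inC_iff]
  have d2 : D2 (fun q x : P => ¬ inC q ∧ q ≤ f x) :=
    dUp (fun q x => q ≤ f x) (fun _ x y hxy h => h.trans (hf hxy))
  refine D.congr (p := fun v => (inC (v 1) ↔ inC (f (v 0))) ∧
    ∀ q, ¬ inC q → (q ≤ v 1 ↔ (¬ inC q ∧ q ≤ f (v 0)))) ?_ (fun v => ?_)
  · refine ((dinC.at 1).iff (d1.at 0)).and (D.all ?_)
    exact (dinC.at _).not.imp ((dle.at _ _).iff (d2.at _ _))
  · constructor
    · intro h
      rw [h]
      exact ⟨Iff.rfl, fun q hq => by simp [hq]⟩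
    · rintro ⟨h1, h2⟩
      exact (separation h1 (fun r hr => by rw [h2 r hr]; simp [hr])).symm

/-- There is an infinite partial order in which the graph of every order-preserving self-map is first-order definable, with parameters, in the language of the order. -/
theorem result :
    ∃ (M : Type) (_ : PartialOrder M) (_ : Language.order.Structure M)
      (_ : Language.order.OrderedStructure M),
      Infinite M ∧
      ∀ f : M → M, Monotone f →
        (Set.univ : Set M).Definable Language.order {v : Fin 2 → M | f (v 0) = v 1} := by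
  refine ⟨P, inferInstance, inferInstance, inferInstance, ?_, fun f hf => main f hf⟩
  exact Infinite.of_injective P.a (fun s t h => by injection h)

end Pool.Agent.S15259
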